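import Mathlib

/-!
* `IsSep M S`: `S` is a separator of `M`;
* `IsComp M K`: `K` is (the ground set of) a connected component of `M`.
-/

set_option autoImplicit false

namespace Pool.Agent.EX18

variable {α : Type*}

/-- `S` is a separator of `M`: a set of elements such that every circuit is contained in it or
disjoint from it. -/
def IsSep (M : Matroid α) (S : Set α) : Prop :=
  S ⊆ M.E ∧ ∀ C, M.IsCircuit C → C ⊆ S ∨ Disjoint C S

/-- `K` is a connected component of `M`: a minimal nonempty separator. -/
def IsComp (M : Matroid α) (K : Set α) : Prop :=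
  IsSep M K ∧ K.Nonempty ∧ ∀ S ⊆ K, IsSep M S → S.Nonempty → S = K

end Pool.Agent.EX18
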