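import Pool.Agent.EX91.Fin

/-!
The converse of `EX91.quads_of_tconn`: if the toric ideal of `M` (over one field) is generated by
its elements of degree two, then triples of bases with the same content are connected by steps
which keep a member (`TConn`).
-/

set_option autoImplicit false

namespace Pool.Agent.EX18

open Finset Pool.Agent.DT3 Pool.Agent.WD Pool.Agent.H94 MvPolynomial Pool.Agent.EX91

section

variable {α : Type*}

/-- the content of a multiset of bases -/
noncomputable def ct (M : Matroid α) : (Bases M →₀ ℕ) →+ (α →₀ ℕ) :=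
  Finsupp.liftAddHom fun B => multiplesHom _ (∑ e ∈ B.1, Finsupp.single e 1)

theorem ct_single (M : Matroid α) (B : Bases M) (n : ℕ) :
    ct M (Finsupp.single B n) = n • ∑ e ∈ B.1, Finsupp.single e 1 := by
  simp [ct]

theorem baseHom_X (K : Type*) [Field K] (M : Matroid α) (B : Bases M) :
    baseHom K M (X B) = monomial (∑ e ∈ B.1, Finsupp.single e 1) 1 := by
  classical
  rw [baseHom, aeval_X]
  induction B.1 using Finset.induction_on with
  | empty => simp
  | insert a s ha ih =>
    rw [prod_insert ha, sum_insert ha, ih, X, monomial_mul, one_mul]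

theorem baseHom_mono (K : Type*) [Field K] (M : Matroid α) (d : Bases M →₀ ℕ) :
    baseHom K M (monomial d 1) = monomial (ct M d) 1 := by
  classical
  induction d using Finsupp.induction_linear with
  | zero =>
    have e1 : (monomial (0 : Bases M →₀ ℕ) (1 : K)) = 1 := rfl
    have e2 : (monomial (0 : α →₀ ℕ) (1 : K)) = 1 := rfl
    rw [map_zero, e1, e2, map_one]
  | add f g hf hg =>
    have h1 : (monomial (f + g) 1 : MvPolynomial (Bases M) K) = monomial f 1 * monomial g 1 := by
      rw [monomial_mul, one_mul]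
    rw [h1, map_mul, hf, hg, monomial_mul, one_mul, map_add]
  | single B n =>
    have h1 : (monomial (Finsupp.single B n) 1 : MvPolynomial (Bases M) K) = X B ^ n := by
      rw [X_pow_eq_monomial]
    rw [h1, map_pow, baseHom_X, monomial_pow, one_pow, ct_single]

/-- the linear functional with given values on the monomials -/
noncomputable def ev {σ : Type*} (K : Type*) [Field K] (F : (σ →₀ ℕ) → K) :
    MvPolynomial σ K →ₗ[K] K :=
  (basisMonomials σ K).constr K F

theorem ev_mono {σ : Type*} {K : Type*} [Field K] (F : (σ →₀ ℕ) → K) (d : σ →₀ ℕ) (a : K) :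
    ev K F (monomial d a) = a * F d := by
  have h1 : (monomial d a : MvPolynomial σ K) = a • basisMonomials σ K d := by
    rw [coe_basisMonomials, smul_monomial, smul_eq_mul, mul_one]
  rw [h1, map_smul, ev, Module.Basis.constr_basis, smul_eq_mul]

/-- the sum of the unit vectors of a tuple -/
noncomputable def tp {M : Matroid α} {n : ℕ} (T : Fin n → Bases M) : Bases M →₀ ℕ :=
  ∑ k, Finsupp.single (T k) 1

theorem ct_tp [DecidableEq α] {M : Matroid α} {n : ℕ} (T : Fin n → Bases M) (z : α) :
    ct M (tp T) z = (univ.filter (fun k => z ∈ (T k).1)).card := by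
  rw [tp, map_sum, Finsupp.finsetSum_apply, card_filter]
  refine sum_congr rfl fun k _ => ?_
  rw [ct_single, one_smul, Finsupp.finsetSum_apply]
  by_cases h : z ∈ (T k).1
  · rw [if_pos h, sum_eq_single z]
    · rw [Finsupp.single_eq_same]
    · intro b _ hb
      rw [Finsupp.single_apply, if_neg hb]
    · exact fun h' => absurd h h'
  · rw [if_neg h]
    refine sum_eq_zero fun b hb => ?_
    rw [Finsupp.single_apply, if_neg]
    rintro rfl
    exact h hb

theorem same_iff [DecidableEq α] {M : Matroid α} {n : ℕ} (T U : Fin n → Bases M) :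
    SameContent (fun k => (T k).1) (fun k => (U k).1) ↔ ct M (tp T) = ct M (tp U) := by
  constructor
  · intro h
    ext z
    rw [ct_tp, ct_tp]
    exact h z
  · intro h z
    rw [← ct_tp, ← ct_tp, h]

theorem tp_degree {M : Matroid α} {n : ℕ} (T : Fin n → Bases M) : (tp T).degree = n := by
  rw [tp, map_sum]
  simp

theorem exists_tp {M : Matroid α} (n : ℕ) : ∀ (d : Bases M →₀ ℕ), d.degree = n →
    ∃ T : Fin n → Bases M, d = tp T := by
  classical
  induction n with
  | zero =>
    intro d hd
    refine ⟨Fin.elim0, ?_⟩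
    rw [Finsupp.degree_eq_zero_iff] at hd
    rw [hd, tp]
    simp
  | succ n ih =>
    intro d hd
    have hne : d ≠ 0 := by
      rintro rfl
      simp at hd
    obtain ⟨B, hB⟩ := Finsupp.ne_iff.1 hne
    have hle : Finsupp.single B 1 ≤ d := by
      rw [Finsupp.single_le_iff]
      exact Nat.one_le_iff_ne_zero.2 hB
    obtain ⟨d', rfl⟩ := exists_add_of_le hle
    have hd' : d'.degree = n := by
      rw [map_add, Finsupp.degree_single] at hd
      omega
    obtain ⟨T, rfl⟩ := ih d' hd'
    refine ⟨Fin.cons B T, ?_⟩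
    rw [tp, tp, Fin.sum_univ_succ]
    simp

theorem mem_of_tp {M : Matroid α} {n m : ℕ} {T : Fin n → Bases M} {U : Fin m → Bases M}
    {m₀ : Bases M →₀ ℕ} (h : tp T = m₀ + tp U) (k : Fin m) : ∃ i, T i = U k := by
  classical
  by_contra hc
  push Not at hc
  have h1 : tp T (U k) = 0 := by
    rw [tp, Finsupp.finsetSum_apply]
    refine sum_eq_zero fun i _ => ?_
    rw [Finsupp.single_apply, if_neg (hc i)]
  have h2 : 1 ≤ tp U (U k) := by
    rw [tp, Finsupp.finsetSum_apply]
    refine le_trans ?_ (single_le_sum (f := fun i => (Finsupp.single (U i) 1 : Bases M →₀ ℕ) (U k))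
      (fun _ _ => Nat.zero_le _) (mem_univ k))
    simp
  rw [h, Finsupp.add_apply] at h1
  omega

end

section

variable {α : Type*} [DecidableEq α]

/-- The exponent `d` is the content of a triple reachable from `B`. -/
def Rch (M : Matroid α) (B : Fin 3 → Finset α) (d : Bases M →₀ ℕ) : Prop :=
  ∃ T : Fin 3 → Bases M, Relation.ReflTransGen
    (ShareStep (fun S : Finset α => M.IsBase (S : Set α))) B (fun k => (T k).1) ∧ d = tp T

theorem rch_swap {M : Matroid α} {B : Fin 3 → Finset α} {m d d' : Bases M →₀ ℕ}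
    (hd : d.degree = 2) (hd' : d'.degree = 2) (hc : ct M d = ct M d') (h : Rch M B (m + d)) :
    Rch M B (m + d') := by
  obtain ⟨T, hT, hmd⟩ := h
  have hm : m.degree = 1 := by
    have := congrArg Finsupp.degree hmd
    rw [map_add, hd, tp_degree] at this
    omega
  obtain ⟨A, hA⟩ := exists_tp 1 m hm
  obtain ⟨U, hU⟩ := exists_tp 2 d' hd'
  obtain ⟨W, hW⟩ := exists_tp 2 d hd
  have hcons : m + d' = tp (Fin.cons (A 0) U : Fin 3 → Bases M) := by
    rw [hA, hU, tp, tp, tp, Fin.sum_univ_succ (n := 2)]
    simp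
  refine ⟨Fin.cons (A 0) U, hT.tail ⟨fun k => (T k).2, fun k => ?_, ?_, ?_⟩, hcons⟩
  · exact ((Fin.cons (A 0) U : Fin 3 → Bases M) k).2
  · rw [same_iff, ← hmd, ← hcons, map_add, map_add, hc]
  · have h1 : tp T = d + tp A := by
      rw [← hmd, ← hA, add_comm]
    obtain ⟨i, hi⟩ := mem_of_tp h1 0
    exact ⟨i, 0, congrArg Subtype.val hi⟩

theorem ev_quad (K : Type*) [Field K] (M : Matroid α) (B : Fin 3 → Finset α)
    (q : MvPolynomial (Bases M) K) (hq : q ∈ toricIdeal K M) (h2 : q.IsHomogeneous 2)
    (m : Bases M →₀ ℕ) :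
    letI := Classical.decPred (Rch M B)
    ev K (fun d => if Rch M B d then 1 else 0) (monomial m 1 * q) = 0 := by
  classical
  let F : (α →₀ ℕ) → K := fun c => if ∃ d : Bases M →₀ ℕ, d.degree = 2 ∧ ct M d = c ∧
    Rch M B (m + d) then 1 else 0
  have hq0 : baseHom K M q = 0 := hq
  have key : ev K (fun d => if Rch M B d then (1 : K) else 0) (monomial m 1 * q) =
      ev K F (baseHom K M q) := by
    conv_lhs => rw [q.as_sum, mul_sum, map_sum]
    conv_rhs => rw [q.as_sum, map_sum, map_sum]
    refine sum_congr rfl fun d hd => ?_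
    have hdeg : d.degree = 2 := by
      have := h2 (mem_support_iff.1 hd)
      rw [← this, Finsupp.degree_eq_weight_one]
      rfl
    have e1 : (monomial d (coeff d q) : MvPolynomial (Bases M) K) =
        coeff d q • monomial d 1 := by
      rw [smul_monomial, smul_eq_mul, mul_one]
    rw [monomial_mul, one_mul, ev_mono, e1, map_smul, baseHom_mono, map_smul, ev_mono, one_mul,
      smul_eq_mul]
    congr 1
    by_cases hr : Rch M B (m + d)
    · rw [if_pos hr]
      exact (if_pos ⟨d, hdeg, rfl, hr⟩).symm
    · rw [if_neg hr]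
      refine (if_neg ?_).symm
      rintro ⟨d', hd', hc', hr'⟩
      exact hr (rch_swap hd' hdeg hc' hr')
  have : ev K (fun d => if Rch M B d then (1 : K) else 0) (monomial m 1 * q) = 0 := by
    rw [key, hq0, map_zero]
  convert this

theorem tconn_of_quads (K : Type*) [Field K] (M : Matroid α)
    (h : toricIdeal K M ≤ Ideal.span {f | f ∈ toricIdeal K M ∧ f.IsHomogeneous 2}) :
    TConn M := by
  classical
  intro B D hB hD hBD
  let b : Fin 3 → Bases M := fun k => ⟨B k, hB k⟩
  let d : Fin 3 → Bases M := fun k => ⟨D k, hD k⟩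
  let φ : MvPolynomial (Bases M) K →ₗ[K] K := ev K (fun d => if Rch M B d then 1 else 0)
  have hφ : ∀ f ∈ Ideal.span {f | f ∈ toricIdeal K M ∧ f.IsHomogeneous 2},
      ∀ a : MvPolynomial (Bases M) K, φ (a * f) = 0 := by
    intro f hf
    refine Submodule.span_induction (p := fun f _ => ∀ a, φ (a * f) = 0) ?_ ?_ ?_ ?_ hf
    · rintro q ⟨hq, h2⟩ a
      rw [a.as_sum, sum_mul, map_sum]
      refine sum_eq_zero fun m _ => ?_
      have e1 : (monomial m (coeff m a) : MvPolynomial (Bases M) K) * q =
          coeff m a • (monomial m 1 * q) := by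
        rw [← smul_mul_assoc, smul_monomial, smul_eq_mul, mul_one]
      rw [e1, map_smul]
      have := ev_quad K M B q hq h2 m
      have h0 : φ (monomial m 1 * q) = 0 := by
        convert this
      rw [h0, smul_zero]
    · intro a
      rw [mul_zero, map_zero]
    · intro x y _ _ hx hy a
      rw [mul_add, map_add, hx, hy, add_zero]
    · intro c x _ hx a
      rw [smul_eq_mul, ← mul_assoc]
      exact hx _
  have hmem : (monomial (tp b) 1 - monomial (tp d) 1 : MvPolynomial (Bases M) K) ∈
      toricIdeal K M := by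
    have hc : ct M (tp b) = ct M (tp d) := (same_iff b d).1 hBD
    rw [toricIdeal, RingHom.mem_ker, map_sub]
    have e1 := baseHom_mono K M (tp b)
    have e2 := baseHom_mono K M (tp d)
    rw [e1, e2, hc, sub_self]
  have h1 := hφ _ (h hmem) 1
  rw [one_mul, map_sub] at h1
  have hb : Rch M B (tp b) := ⟨b, Relation.ReflTransGen.refl, rfl⟩
  have h2 : φ (monomial (tp b) 1) = 1 := by
    show ev K _ _ = 1
    rw [ev_mono, if_pos hb, one_mul]
  have h3 : φ (monomial (tp d) 1) = if Rch M B (tp d) then 1 else 0 := by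
    show ev K _ _ = _
    rw [ev_mono, one_mul]
  rw [h2, h3] at h1
  have hd : Rch M B (tp d) := by
    by_contra hc
    rw [if_neg hc, sub_zero] at h1
    exact one_ne_zero h1
  obtain ⟨T, hT, hdT⟩ := hd
  refine hT.tail ⟨fun k => (T k).2, hD, ?_, ?_⟩
  · exact (same_iff T d).2 (by rw [hdT])
  · have h4 : tp T = 0 + tp d := by rw [zero_add, hdT]
    obtain ⟨i, hi⟩ := mem_of_tp h4 0
    exact ⟨i, 0, congrArg Subtype.val hi⟩

theorem tconn_of_not_rankPos {M : Matroid α} (h : ¬ M.RankPos) : TConn M := by
  intro B D hB hD _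
  have he : ∀ S : Finset α, M.IsBase (S : Set α) → S = ∅ := by
    intro S hS
    by_contra hc
    exact h (hS.rankPos_of_nonempty (coe_nonempty.2 (nonempty_iff_ne_empty.2 hc)))
  have : B = D := by
    funext k
    rw [he _ (hB k), he _ (hD k)]
  rw [this]

universe u x

/-- `TConn` is the same as generation by quadrics over all fields (of some universe). -/
theorem mem_iff {α : Type u} [DecidableEq α] {M : Matroid α} [M.Finite] [M.RankPos] :
    (∀ (K : Type x) [Field K],
      toricIdeal K M = Ideal.span {f | f ∈ toricIdeal K M ∧ f.IsHomogeneous 2}) ↔ TConn M :=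
  ⟨fun h => tconn_of_quads (ULift.{x} ℚ) M (h (ULift.{x} ℚ)).le,
    fun h K _ => quads_of_tconn K M h⟩

theorem mem_iff' {α : Type u} [DecidableEq α] {M : Matroid α} [M.Finite] :
    (M.RankPos → ∀ (K : Type x) [Field K],
      toricIdeal K M = Ideal.span {f | f ∈ toricIdeal K M ∧ f.IsHomogeneous 2}) ↔ TConn M := by
  by_cases h : M.RankPos
  · exact ⟨fun h' => mem_iff.1 (h' h), fun h' _ => mem_iff.2 h'⟩
  · exact ⟨fun _ => tconn_of_not_rankPos h, fun _ h' => absurd h' h⟩

end

end Pool.Agent.EX18
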