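import Pool.Agent.EX18.CompDefs

/-!
Definitions for the excluded minor theorem.

* `HasPairsMinor M`: `M` has a minor isomorphic to `U_{1,2} ⊕ U_{1,2} ⊕ U_{1,1}`.
* `HasSplitMinor M`: `M` has a minor isomorphic to `U_{0,1} ⊕ U_{1,2} ⊕ U_{1,1}`.
* `IsPaving M`: every circuit of `M` has at least `rank` elements.
* `Good N`: `N` or its dual has no minor isomorphic to `U_{1,2} ⊕ U_{1,2} ⊕ U_{1,1}`, or has rank at most five.
* `InClass M`: all connected components of `M` are good.
-/

set_option autoImplicit false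

namespace Pool.Agent.EX18

open scoped Matroid

variable {α : Type*}

/-- `M` has a minor isomorphic to `U_{1,2} ⊕ U_{1,2} ⊕ U_{1,1}`: a minor on five elements
`a, a', b, b', z` whose bases are the sets `{x, y, z}` with `x ∈ {a, a'}` and `y ∈ {b, b'}`. -/
def HasPairsMinor (M : Matroid α) : Prop :=
  ∃ (N : Matroid α) (a a' b b' z : α), N ≤m M ∧ [a, a', b, b', z].Nodup ∧
    N.E = {a, a', b, b', z} ∧
    ∀ B : Set α, N.IsBase B ↔ ∃ x y : α, (x = a ∨ x = a') ∧ (y = b ∨ y = b') ∧ B = {x, y, z}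

/-- `M` has a minor isomorphic to `U_{0,1} ⊕ U_{1,2} ⊕ U_{1,1}`: a minor on four elements `l, b, b', z`
whose bases are `{b, z}` and `{b', z}`. -/
def HasSplitMinor (M : Matroid α) : Prop :=
  ∃ (N : Matroid α) (l b b' z : α), N ≤m M ∧ [l, b, b', z].Nodup ∧ N.E = {l, b, b', z} ∧
    ∀ B : Set α, N.IsBase B ↔ B = {b, z} ∨ B = {b', z}

/-- `M` is a paving matroid: every circuit has at least as many elements as the rank. -/
def IsPaving (M : Matroid α) : Prop :=
  ∀ C : Set α, M.IsCircuit C → M.eRank ≤ C.encard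

/-- `N` or its dual has no minor isomorphic to `U_{1,2} ⊕ U_{1,2} ⊕ U_{1,1}`, or has rank at most
five. -/
def Good (N : Matroid α) : Prop :=
  ¬ HasPairsMinor N ∨ ¬ HasPairsMinor N✶ ∨ N.eRank ≤ 5 ∨ N✶.eRank ≤ 5

/-- Every connected component of `M` is good. -/
def InClass (M : Matroid α) : Prop :=
  ∀ K, IsComp M K → Good (M ↾ K)

end Pool.Agent.EX18
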