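import Pool.Agent.DT3.HFlat

/-!
Extraction of a parallel pair from a coloopless set, and of two skew parallel pairs from two skew coloopless sets.

* `ext_one`: if `K` is a non-empty set of non-loops modulo `F` and coloopless modulo `F`, then there are `A ⊆ K` and `a ≠ a'` in `K` which are
  parallel non-loops modulo `F ∪ A`.
* `ext_two`: the same for two sets `K1`, `K2` which are skew modulo `F`.
-/

set_option autoImplicit false

namespace Pool.Agent.EX18

open Finset Pool.Agent.DT3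

variable {α : Type*} [DecidableEq α] {r : Finset α → ℕ} {F K K1 K2 : Finset α}

theorem ext_one (h : RankFn r) (hne : K.Nonempty) (nl : ∀ x ∈ K, r (insert x F) ≠ r F)
    (cl : ∀ x ∈ K, r (F ∪ K.erase x) = r (F ∪ K)) :
    ∃ A ⊆ K, ∃ a ∈ K, ∃ a' ∈ K, a ≠ a' ∧ r (insert a (F ∪ A)) = r (F ∪ A) + 1 ∧
      r (insert a' (F ∪ A)) = r (F ∪ A) + 1 ∧
      r (insert a (insert a' (F ∪ A))) = r (F ∪ A) + 1 := by
  classical
  obtain ⟨a', ha'⟩ := hne
  set S := (K.erase a').powerset.filter (fun J => r (insert a' (F ∪ J)) = r (F ∪ J)) with hS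
  have hSn : S.Nonempty := by
    refine ⟨K.erase a', ?_⟩
    rw [hS, mem_filter]
    refine ⟨mem_powerset_self _, ?_⟩
    rw [← union_insert, insert_erase ha']
    exact (cl a' ha').symm
  obtain ⟨J, hJ, hmin⟩ := exists_min_image S card hSn
  rw [hS, mem_filter, mem_powerset] at hJ
  obtain ⟨hJK, hJr⟩ := hJ
  have hJn : J.Nonempty := by
    rw [nonempty_iff_ne_empty]
    rintro rfl
    rw [union_empty] at hJr
    exact nl a' ha' hJr
  obtain ⟨a, ha⟩ := hJn
  have haK : a ∈ K.erase a' := hJK ha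
  have hA : r (insert a' (F ∪ J.erase a)) ≠ r (F ∪ J.erase a) := by
    intro hc
    have hm : J.erase a ∈ S := by
      rw [hS, mem_filter, mem_powerset]
      exact ⟨(erase_subset _ _).trans hJK, hc⟩
    have h1 := hmin _ hm
    have h2 := card_erase_lt_of_mem ha
    omega
  have e1 := h.insert_le a' (F ∪ J.erase a)
  have e2 := h.mono (F ∪ J.erase a) (insert a' (F ∪ J.erase a)) (subset_insert _ _)
  have e3 : insert a (F ∪ J.erase a) = F ∪ J := by
    rw [← union_insert, insert_erase ha]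
  have e4 := h.insert_le a (F ∪ J.erase a)
  rw [e3] at e4
  have e5 : insert a (insert a' (F ∪ J.erase a)) = insert a' (F ∪ J) := by
    rw [insert_comm, e3]
  have e6 := h.mono (insert a' (F ∪ J.erase a)) (insert a' (F ∪ J))
    (insert_subset_insert _ (union_subset_union_right (erase_subset _ _)))
  refine ⟨J.erase a, (erase_subset _ _).trans (hJK.trans (erase_subset _ _)), a,
    (mem_erase.1 haK).2, a', ha', (mem_erase.1 haK).1, ?_, ?_, ?_⟩
  · rw [e3]
    omega
  · omega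
  · rw [e5]
    omega

/-- Skewness passes to subsets. -/
theorem skew_mono (h : RankFn r) {X1 X2 : Finset α} (h1 : X1 ⊆ K1) (h2 : X2 ⊆ K2)
    (hs : r (F ∪ K1) + r (F ∪ K2) = r (F ∪ (K1 ∪ K2)) + r F) :
    r (F ∪ X1) + r (F ∪ X2) = r (F ∪ (X1 ∪ X2)) + r F := by
  -- first replace `K2` by `X2`
  have a1 := h.submod (F ∪ (K1 ∪ X2)) (F ∪ K2)
  have a2 : (F ∪ (K1 ∪ X2)) ∪ (F ∪ K2) = F ∪ (K1 ∪ K2) := by
    ext x
    have := @h2 x
    simp only [mem_union]
    tauto
  have a3 := h.mono (F ∪ X2) ((F ∪ (K1 ∪ X2)) ∩ (F ∪ K2)) (by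
    intro x hx
    have := @h2 x
    simp only [mem_union, mem_inter] at hx ⊢
    tauto)
  rw [a2] at a1
  have b1 := h.submod (F ∪ (X1 ∪ X2)) (F ∪ K1)
  have b2 : (F ∪ (X1 ∪ X2)) ∪ (F ∪ K1) = F ∪ (K1 ∪ X2) := by
    ext x
    have := @h1 x
    simp only [mem_union]
    tauto
  have b3 := h.mono (F ∪ X1) ((F ∪ (X1 ∪ X2)) ∩ (F ∪ K1)) (by
    intro x hx
    have := @h1 x
    simp only [mem_union, mem_inter] at hx ⊢
    tauto)
  rw [b2] at b1
  have c1 := h.submod (F ∪ X1) (F ∪ X2)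
  have c2 : (F ∪ X1) ∪ (F ∪ X2) = F ∪ (X1 ∪ X2) := by
    ext x
    simp only [mem_union]
    tauto
  have c3 := h.mono F ((F ∪ X1) ∩ (F ∪ X2)) (by
    intro x hx
    simp only [mem_union, mem_inter]
    tauto)
  rw [c2] at c1
  omega

theorem ext_two (h : RankFn r) (n1 : K1.Nonempty) (n2 : K2.Nonempty)
    (nl : ∀ x ∈ K1 ∪ K2, r (insert x F) ≠ r F)
    (c1 : ∀ x ∈ K1, r (F ∪ K1.erase x) = r (F ∪ K1))
    (c2 : ∀ x ∈ K2, r (F ∪ K2.erase x) = r (F ∪ K2))
    (hs : r (F ∪ K1) + r (F ∪ K2) = r (F ∪ (K1 ∪ K2)) + r F) :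
    ∃ C ⊆ F ∪ (K1 ∪ K2), ∃ a ∈ K1, ∃ a' ∈ K1, ∃ b ∈ K2, ∃ b' ∈ K2, a ≠ a' ∧ b ≠ b' ∧
      r (insert a (insert a' C)) = r C + 1 ∧ r (insert b (insert b' C)) = r C + 1 ∧
      (∀ x ∈ ({a, a'} : Finset α), ∀ y ∈ ({b, b'} : Finset α),
        r (insert x (insert y C)) = r C + 2) := by
  obtain ⟨A, hA, a, ha, a', ha', haa, p1, p2, p3⟩ :=
    ext_one h n1 (fun x hx => nl x (mem_union_left _ hx)) c1
  obtain ⟨B, hB, b, hb, b', hb', hbb, q1, q2, q3⟩ :=
    ext_one h n2 (fun x hx => nl x (mem_union_right _ hx)) c2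
  -- the skewness for `A + S` and `B + T`
  have key : ∀ S ⊆ K1, ∀ T ⊆ K2, r (F ∪ (A ∪ B) ∪ (S ∪ T)) + r F =
      r (F ∪ A ∪ S) + r (F ∪ B ∪ T) := by
    intro S hS T hT
    have k := skew_mono h (union_subset hA hS) (union_subset hB hT) hs
    have e1 : F ∪ (A ∪ S) = F ∪ A ∪ S := (union_assoc _ _ _).symm
    have e2 : F ∪ (B ∪ T) = F ∪ B ∪ T := (union_assoc _ _ _).symm
    have e3 : F ∪ (A ∪ S ∪ (B ∪ T)) = F ∪ (A ∪ B) ∪ (S ∪ T) := by
      ext x
      simp only [mem_union]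
      tauto
    rw [e1, e2, e3] at k
    exact k.symm
  have k0 := key ∅ (empty_subset _) ∅ (empty_subset _)
  have ka := key {a, a'} (by
    intro x hx
    rw [mem_insert, mem_singleton] at hx
    rcases hx with rfl | rfl <;> assumption) ∅ (empty_subset _)
  have kb := key ∅ (empty_subset _) {b, b'} (by
    intro x hx
    rw [mem_insert, mem_singleton] at hx
    rcases hx with rfl | rfl <;> assumption)
  have i1 : ∀ (x : α) (Y : Finset α), Y ∪ {x} = insert x Y := by
    intro x Y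
    rw [union_comm, ← insert_eq]
  have i2 : ∀ (x y : α) (Y : Finset α), Y ∪ {x, y} = insert x (insert y Y) := by
    intro x y Y
    ext z
    simp only [mem_union, mem_insert, mem_singleton]
    tauto
  simp only [union_empty, empty_union] at k0 ka kb
  rw [i2, i2] at ka kb
  refine ⟨F ∪ (A ∪ B), union_subset_union_right (union_subset_union hA hB), a, ha, a', ha', b, hb,
    b', hb', haa, hbb, by omega, by omega, ?_⟩
  intro x hx y hy
  have hx1 : x ∈ K1 ∧ r (insert x (F ∪ A)) = r (F ∪ A) + 1 := by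
    rw [mem_insert, mem_singleton] at hx
    rcases hx with rfl | rfl
    · exact ⟨ha, p1⟩
    · exact ⟨ha', p2⟩
  have hy1 : y ∈ K2 ∧ r (insert y (F ∪ B)) = r (F ∪ B) + 1 := by
    rw [mem_insert, mem_singleton] at hy
    rcases hy with rfl | rfl
    · exact ⟨hb, q1⟩
    · exact ⟨hb', q2⟩
  have kx := key {x} (singleton_subset_iff.2 hx1.1) {y} (singleton_subset_iff.2 hy1.1)
  have e : F ∪ (A ∪ B) ∪ ({x} ∪ {y}) = insert x (insert y (F ∪ (A ∪ B))) := by
    ext z
    simp only [mem_union, mem_insert, mem_singleton]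
    tauto
  rw [e, i1, i1] at kx
  omega

end Pool.Agent.EX18
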