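import Pool.Agent.EX18.StarM
import Pool.Agent.CF98.Gen
import Pool.Agent.WD.Dual
import Pool.Agent.Q2.DegOne

/-!
The final assembly for matroids without a minor `U_{1,2} ⊕ U_{1,2} ⊕ U_{1,1}`: if in every strict system of three blocks with `Star` all
good bases are in one class (`SWs`), then the toric ideal of every finite matroid `M` of positive rank such that `M` or `M✶` has no such minor
is generated by quadrics.  (`fibreWs`, `liftWs`, `connWs` are the theorems `fibreW`, `liftW`, `connW` of `WT59.Final` with `Star` carried along.)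
-/

set_option autoImplicit false

namespace Pool.Agent.EX18

open Finset Pool.Agent.DT3 Pool.Agent.CF98 Pool.Agent.WD Pool.Agent.H94 MvPolynomial

section

variable {α : Type*} [DecidableEq α]

theorem fibreWs (h : SWs α) (n : ℕ) : ∀ (E : Finset α) (r : Finset α → ℕ) (f : ℕ)
    (Q : Finset α → Prop) (A B : Finset α), E.card ≤ n → Env r E f → Star r E f →
    (∀ A A', Stp r E f A A' → Q A → Q A') → Gd r E f A → Gd r E f B → Q A → Q B := by
  induction n with
  | zero =>
    intro E r f Q A B hn hE hst hQ hA hB hQA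
    have hE0 : E = ∅ := by
      rw [← card_eq_zero]
      omega
    have hA0 : A = ∅ := subset_empty.1 (hE0 ▸ hA.1)
    have hB0 : B = ∅ := subset_empty.1 (hE0 ▸ hB.1)
    rw [hB0, ← hA0]
    exact hQA
  | succ n ih =>
    intro E r f Q A B hn hE hst hQ hA hB hQA
    by_cases hs : Strict r E
    · exact h E r f Q A B hE hs hst hQ hA hB hQA
    · unfold Strict at hs
      push Not at hs
      obtain ⟨X, hX, hne, hXE, hlt⟩ := hs
      have ht : X.card = 3 * r X := by
        have := hE.three X hX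
        omega
      have hXc : X.card < E.card := card_lt_card (hX.ssubset_of_ne hXE)
      have hXp : 0 < X.card := hne.card_pos
      have hdc : (E \ X).card < E.card := by
        rw [card_sdiff_of_subset hX]
        omega
      have hA1 := gd_res hE hX ht hA
      have hA2 := gd_con hE hX ht hA
      have hB1 := gd_res hE hX ht hB
      have hB2 := gd_con hE hX ht hB
      have hAu : A ∩ X ∪ A \ X = A := by
        rw [union_comm]
        exact sdiff_union_inter A X
      have hBu : B ∩ X ∪ B \ X = B := by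
        rw [union_comm]
        exact sdiff_union_inter B X
      have h1 : Q (B ∩ X ∪ A \ X) := by
        refine ih X r (r X) (fun S => Q (S ∪ A \ X)) (A ∩ X) (B ∩ X) (by omega)
          (env_res hE hX ht) (star_res hE hX hst) ?_ hA1 hB1 ?_
        · intro S S' hS hq
          exact hQ _ _ (stp_glue_left hE hX ht hS hA2) hq
        · show Q (A ∩ X ∪ A \ X)
          rw [hAu]
          exact hQA
      have h2 : Q (B ∩ X ∪ B \ X) := by
        refine ih (E \ X) (fun Y => r (Y ∪ X) - r X) (f - r X) (fun S => Q (B ∩ X ∪ S))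
          (A \ X) (B \ X) (by omega) (env_con hE hX ht) (star_con hE hX hst) ?_ hA2 hB2 h1
        intro S S' hS hq
        exact hQ _ _ (stp_glue_right hE hX ht hB1 hS) hq
      rw [hBu] at h2
      exact h2

theorem liftWs {M : Matroid α} {f : ℕ} (h : SWs (α × ℕ)) (hM : ¬ HasPairsMinor M)
    (hf : M.eRank = (f : ℕ∞))
    (P P' : Fin 3 → Finset (α × ℕ))
    (hP : ∀ k, Bs (rr M) f (P k)) (hP' : ∀ k, Bs (rr M) f (P' k))
    (hd : Pairwise (Function.onFun Disjoint P)) (hd' : Pairwise (Function.onFun Disjoint P'))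
    (hu : univ.biUnion P = univ.biUnion P') :
    Relation.ReflTransGen (ShareStep (fun S : Finset α => M.IsBase (S : Set α)))
      (fun k => (P k).image Prod.fst) (fun k => (P' k).image Prod.fst) := by
  classical
  set E : Finset (α × ℕ) := univ.biUnion P with hE
  set base : Finset α → Prop := fun S : Finset α => M.IsBase (S : Set α) with hbase
  set B : Fin 3 → Finset α := fun k => (P k).image Prod.fst with hB
  have hEnv : Env (rr M) E f := lift_env hf P hP hd
  have hbs : ∀ S, Bs (rr M) f S → base (S.image Prod.fst) := fun S hS => ((bs_iff hf S).1 hS).1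
  have hBb : ∀ k, base (B k) := fun k => hbs _ (hP k)
  have hPE : ∀ k, P k ⊆ E := fun k => subset_biUnion_of_mem P (mem_univ k)
  have hval : ∀ {A C : Finset (α × ℕ)}, A ⊆ E → C ⊆ E → Disjoint A C → Bs (rr M) f A →
      Bs (rr M) f C → Bs (rr M) f (E \ (A ∪ C)) →
      SameContent B ![A.image Prod.fst, C.image Prod.fst, (E \ (A ∪ C)).image Prod.fst] ∧
      ∀ k, base ((![A.image Prod.fst, C.image Prod.fst, (E \ (A ∪ C)).image Prod.fst] :
        Fin 3 → Finset α) k) := by
    intro A C hA hC hAC hBA hBC hBD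
    refine ⟨lift_tuple hf P hP hd hA hC hAC hBA hBC hBD, fun k => ?_⟩
    fin_cases k
    · exact hbs _ hBA
    · exact hbs _ hBC
    · exact hbs _ hBD
  let Q : Finset (α × ℕ) → Prop := fun A => ∀ C ⊆ E, Disjoint A C → A ⊆ E → Bs (rr M) f A →
    Bs (rr M) f C → Bs (rr M) f (E \ (A ∪ C)) →
    Relation.ReflTransGen (ShareStep base) B
      ![A.image Prod.fst, C.image Prod.fst, (E \ (A ∪ C)).image Prod.fst]
  have hstep : ∀ A A', Stp (rr M) E f A A' → Q A → Q A' := by
    rintro A A' ⟨hA, hA', hBA, hBA', C₀, hC₀, hd0, hd0', hBC₀, hBD, hBD'⟩ hQ C hC hdC _ _ hBC hBD''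
    have v1 := hval hA hC₀ hd0 hBA hBC₀ hBD
    have v2 := hval hA' hC₀ hd0' hBA' hBC₀ hBD'
    have v3 := hval hA' hC hdC hBA' hBC hBD''
    have h1 := hQ C₀ hC₀ hd0 hA hBA hBC₀ hBD
    have s1 : ShareStep base ![A.image Prod.fst, C₀.image Prod.fst, (E \ (A ∪ C₀)).image Prod.fst]
        ![A'.image Prod.fst, C₀.image Prod.fst, (E \ (A' ∪ C₀)).image Prod.fst] :=
      ⟨v1.2, v2.2, fun z => (v1.1 z).symm.trans (v2.1 z), 1, 1, rfl⟩
    have s2 : ShareStep base ![A'.image Prod.fst, C₀.image Prod.fst,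
        (E \ (A' ∪ C₀)).image Prod.fst]
        ![A'.image Prod.fst, C.image Prod.fst, (E \ (A' ∪ C)).image Prod.fst] :=
      ⟨v2.2, v3.2, fun z => (v2.1 z).symm.trans (v3.1 z), 0, 0, rfl⟩
    exact (h1.tail s1).tail s2
  have hQ0 : Q (P 0) := by
    intro C hC hdC hA hBA hBC hBD
    have v := hval hA hC hdC hBA hBC hBD
    exact Relation.ReflTransGen.single ⟨hBb, v.2, v.1, 0, 0, rfl⟩
  have hg0 : Gd (rr M) E f (P 0) := lift_gd hf P hP hd 0
  have hg0' : Gd (rr M) E f (P' 0) := by
    rw [hu]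
    exact lift_gd hf P' hP' hd' 0
  have hQ1 : Q (P' 0) := fibreWs h E.card E (rr M) f Q (P 0) (P' 0) le_rfl hEnv
    (star_rr hM hf E) hstep hg0 hg0' hQ0
  have hPE' : ∀ k, P' k ⊆ E := fun k => by
    rw [hu]
    exact subset_biUnion_of_mem P' (mem_univ k)
  have hcomp : E \ (P' 0 ∪ P' 1) = P' 2 := by
    have d02 := hd' (show (0 : Fin 3) ≠ 2 by decide)
    have d12 := hd' (show (1 : Fin 3) ≠ 2 by decide)
    ext z
    rw [mem_sdiff, mem_union, hu, mem_biUnion]
    constructor
    · rintro ⟨⟨k, -, hk⟩, hn⟩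
      push Not at hn
      fin_cases k
      · exact absurd hk hn.1
      · exact absurd hk hn.2
      · exact hk
    · intro hz
      refine ⟨⟨2, mem_univ _, hz⟩, ?_⟩
      rintro (h | h)
      · exact disjoint_left.1 d02 h hz
      · exact disjoint_left.1 d12 h hz
  have h2 := hQ1 (P' 1) (hPE' 1) (hd' (by decide)) (hPE' 0) (hP' 0) (hP' 1) (by
    rw [hcomp]
    exact hP' 2)
  rw [hcomp] at h2
  have h3 : (![(P' 0).image Prod.fst, (P' 1).image Prod.fst, (P' 2).image Prod.fst] :
      Fin 3 → Finset α) = fun k => (P' k).image Prod.fst := by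
    funext k
    fin_cases k <;> rfl
  rw [h3] at h2
  exact h2

theorem connWs (h : SWs (α × ℕ)) (M : Matroid α) (hM : ¬ HasPairsMinor M) (B D : Fin 3 → Finset α)
    (hB : ∀ k, M.IsBase (B k : Set α)) (hD : ∀ k, M.IsBase (D k : Set α)) (hBD : SameContent B D) :
    Relation.ReflTransGen (ShareStep (fun S : Finset α => M.IsBase (S : Set α))) B D := by
  have hf : M.eRank = (((B 0).card : ℕ) : ℕ∞) := by
    rw [← (hB 0).encard_eq_eRank, Set.encard_coe_eq_coe_finsetCard]
  obtain ⟨P, p1, p2, p3, p4⟩ := exists_lift B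
  obtain ⟨P', q1, q2, q3, q4⟩ := exists_lift D
  have hP : ∀ k, Bs (rr M) (B 0).card (P k) := by
    intro k
    rw [bs_iff hf, p1 k]
    exact ⟨hB k, p2 k⟩
  have hP' : ∀ k, Bs (rr M) (B 0).card (P' k) := by
    intro k
    rw [bs_iff hf, q1 k]
    exact ⟨hD k, q2 k⟩
  have hmem : ∀ e n, (e, n) ∈ univ.biUnion P ↔ n < cont B e := by
    intro e n
    rw [mem_biUnion]
    simp only [mem_univ, true_and]
    exact p4 e n
  have hu : univ.biUnion P = univ.biUnion P' := by
    ext ⟨e, n⟩
    rw [hmem e n, mem_biUnion]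
    simp only [mem_univ, true_and]
    rw [q4 e n, ← hBD e]
    rfl
  have h1 := liftWs h hM hf P P' hP hP' p3 q3 hu
  have h2 : (fun k => (P k).image Prod.fst) = B := funext p1
  have h3 : (fun k => (P' k).image Prod.fst) = D := funext q1
  rw [h2, h3] at h1
  exact h1

end

/-- Tuples of more than two bases with the same content are connected. -/
theorem shareConnWs {α : Type*} [DecidableEq α] (h : SWs (α × ℕ)) (M : Matroid α) [M.Finite]
    (hM : ¬ HasPairsMinor M) : ShareConn (fun S : Finset α => M.IsBase (S : Set α)) 2 := by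
  obtain ⟨m, hm⟩ : ∃ m : ℕ, M.eRank ≤ (m : ℕ∞) := by
    obtain ⟨B, hB⟩ := M.exists_isBase
    refine ⟨B.ncard, ?_⟩
    rw [← hB.encard_eq_eRank, hB.finite.cast_ncard_eq]
  have hS : ∀ q, 3 ≤ q → WL.S1 (α × ℕ) q m := by
    intro q hq
    obtain ⟨p, rfl⟩ : ∃ p, q = p + 1 := ⟨q - 1, by omega⟩
    exact DT3.s1_all (α × ℕ) (by omega) m
  have h3 := WL.shareConn_of_S1 (d := 3) (by norm_num) hS hm
  intro k hk B D hB hD hBD
  rcases Nat.lt_or_ge 3 k with h4 | h4
  · exact h3 k h4 B D hB hD hBD
  · obtain rfl : k = 3 := by omega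
    exact connWs h M hM B D hB hD hBD

/-- The toric ideal is generated by quadrics. -/
theorem mainWs {α : Type*} [DecidableEq α] (h : SWs (α × ℕ)) (K : Type*) [Field K]
    (M : Matroid α) [M.Finite] [M.RankPos] (hM : ¬ HasPairsMinor M ∨ ¬ HasPairsMinor M✶) :
    toricIdeal K M = Ideal.span {f | f ∈ toricIdeal K M ∧ f.IsHomogeneous 2} := by
  refine Pool.Agent.Q2.toric_quad M ?_
  rcases hM with h1 | h1
  · exact toric_of_shareConn M (shareConnWs h M h1)
  · exact toric_of_shareConn M (shareConn_of_dual M (shareConnWs h M✶ h1))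

end Pool.Agent.EX18
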