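import Pool.Agent.EX18.SixDefs

/-!
Operations on matroids, described by bases or by independent sets: `IsSplit`, `IsPrincExt`, `IsUnion`, `IsTwoSum`,
`IsRelaxation`.
-/

set_option autoImplicit false

namespace Pool.Agent.EX18

open scoped Matroid

universe u

/-- The bases of the two matroids `M₁` and `M₂` are the bases `B` of `M` with `|B ∩ G| ≤ a` and the bases
`B` of `M` with `|B ∩ G| ≥ a`: the hyperplane `x(G) = a` splits the base polytope of `M`. -/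
def IsSplit {α : Type u} (M M₁ M₂ : Matroid α) (G : Set α) (a : ℕ) : Prop :=
  (∀ B, M₁.IsBase B ↔ M.IsBase B ∧ (B ∩ G).encard ≤ a) ∧
    ∀ B, M₂.IsBase B ↔ M.IsBase B ∧ (a : ℕ∞) ≤ (B ∩ G).encard

/-- `M'` is the principal extension of `M` by the new element `e` along the set `G`: `e` is added freely to the
flat spanned by `G`. -/
def IsPrincExt {α : Type u} (M' M : Matroid α) (G : Set α) (e : α) : Prop :=
  G ⊆ M.E ∧ e ∉ M.E ∧ M'.E = insert e M.E ∧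
    ∀ B, M'.IsBase B ↔ (e ∉ B ∧ M.IsBase B) ∨
      (e ∈ B ∧ M.Indep (B \ {e}) ∧ B.encard = M.eRank ∧ ¬ G ⊆ M.closure (B \ {e}))

/-- `M` is the union of `M₁` and `M₂`. -/
def IsUnion {α : Type u} (M M₁ M₂ : Matroid α) : Prop :=
  M.E = M₁.E ∪ M₂.E ∧ ∀ I, M.Indep I ↔ ∃ I₁ I₂, M₁.Indep I₁ ∧ M₂.Indep I₂ ∧ I = I₁ ∪ I₂

/-- `M` is the 2-sum of `M₁` and `M₂` with basepoint `p`. -/
def IsTwoSum {α : Type u} (M M₁ M₂ : Matroid α) (p : α) : Prop :=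
  p ∈ M₁.E ∧ p ∈ M₂.E ∧ M₁.E ∩ M₂.E ⊆ {p} ∧ M.E = (M₁.E ∪ M₂.E) \ {p} ∧
    ∀ B, M.IsBase B ↔ ∃ B₁ B₂, M₁.IsBase B₁ ∧ M₂.IsBase B₂ ∧
      ((p ∈ B₁ ∧ p ∉ B₂) ∨ (p ∉ B₁ ∧ p ∈ B₂)) ∧ B = (B₁ ∪ B₂) \ {p}

/-- `Q` is a circuit-hyperplane of `M`: a circuit which is a maximal proper flat. -/
def IsCircuitHyperplane {α : Type u} (M : Matroid α) (Q : Set α) : Prop :=
  M.IsCircuit Q ∧ M.IsFlat Q ∧ Q ≠ M.E ∧ ∀ e ∈ M.E \ Q, M.closure (insert e Q) = M.E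

/-- `M'` is obtained from `M` by relaxing a circuit-hyperplane (making it a base). -/
def IsRelaxation {α : Type u} (M' M : Matroid α) : Prop :=
  ∃ Q, IsCircuitHyperplane M Q ∧ M'.E = M.E ∧ ∀ B, M'.IsBase B ↔ M.IsBase B ∨ B = Q

end Pool.Agent.EX18
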