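import Mathlib

/-!
* `HasSixMinor M`: `M` has a minor isomorphic to `U_{1,2} ⊕ U_{1,2} ⊕ U_{2,2}`.
-/

set_option autoImplicit false

namespace Pool.Agent.EX18

open scoped Matroid

/-- `M` has a minor isomorphic to `U_{1,2} ⊕ U_{1,2} ⊕ U_{2,2}`: a minor on six elements
`a, a', b, b', z, w` whose bases are the sets `{x, y, z, w}` with `x ∈ {a, a'}` and `y ∈ {b, b'}`. -/
def HasSixMinor {α : Type*} (M : Matroid α) : Prop :=
  ∃ (N : Matroid α) (a a' b b' z w : α), N ≤m M ∧ [a, a', b, b', z, w].Nodup ∧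
    N.E = {a, a', b, b', z, w} ∧
    ∀ B : Set α, N.IsBase B ↔ ∃ x y : α, (x = a ∨ x = a') ∧ (y = b ∨ y = b') ∧ B = {x, y, z, w}

end Pool.Agent.EX18
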