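import Mathlib

/-!
Principal truncations.
-/

set_option autoImplicit false

namespace Pool.Agent.EX18

universe u

/-- `M'` is the principal truncation of `M` along the set `G`: the bases of `M'` are the sets obtained from the bases of
`M` by removing one element of `G`. (For `G = M.E` this is the truncation of `M`.) -/
def IsPrincTrunc {α : Type u} (M' M : Matroid α) (G : Set α) : Prop :=
  G ⊆ M.E ∧ M'.E = M.E ∧ ∀ B, M'.IsBase B ↔ ∃ x ∈ G, x ∉ B ∧ M.IsBase (insert x B)

end Pool.Agent.EX18
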