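import Pool.Agent.H94.ToricDefs
import Pool.Agent.EX18.SixDefs
import Pool.Agent.EX18.QDefs
import Pool.Agent.EX18.TrDefs
import Pool.Agent.EX18.CompDefs
import Pool.Agent.Un25.IndDefs

/-!
The class `QGen` of the closure theorem.
-/

set_option autoImplicit false

namespace Pool.Agent.EX18

open Pool.Agent.H94 Pool.Agent.Un25
open scoped Matroid

universe u v

/-- The smallest class of finite matroids which contains
* the matroids whose toric ideal over some field is generated by its homogeneous elements of degree two
  (for instance, by our theorem `Quadrics`, all representable matroids of positive rank),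
* the matroids on at most thirteen elements,
* the matroids of rank at most six,
* the matroids without a minor isomorphic to `U_{1,2} ⊕ U_{1,2} ⊕ U_{2,2}`,
* the matroids all of whose circuits have at least `rank - 2` elements,

and which is closed under
* isomorphism, duality, minors, direct sums (moreover a matroid is in the class if its connected components are),
* 2-sums,
* principal extension (a new element is added freely to the flat spanned by a set `G`),
* principal truncation along a set `G`,
* matroid union,
* induction by a bipartite graph `R`,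
* splits: if a hyperplane `x(G) = a` splits the base polytope of `M` into the base polytopes of two members of the
  class then `M` is in the class,
* relaxation of a circuit-hyperplane. -/
inductive QGen : ∀ {α : Type u}, Matroid α → Prop
  | quad {α : Type u} (M : Matroid α) (hM : M.Finite) (K : Type v) [Field K]
      (h : toricIdeal K M = Ideal.span {f | f ∈ toricIdeal K M ∧ f.IsHomogeneous 2}) : QGen M
  | thirteen {α : Type u} (M : Matroid α) (h : M.E.encard ≤ 13) : QGen M
  | rankSix {α : Type u} (M : Matroid α) (hM : M.Finite) (h : M.eRank ≤ 6) : QGen M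
  | noSix {α : Type u} (M : Matroid α) (hM : M.Finite) (h : ¬ HasSixMinor M) : QGen M
  | circ {α : Type u} (M : Matroid α) (hM : M.Finite) (h : ∀ C, M.IsCircuit C → M.eRank ≤ C.encard + 2) :
      QGen M
  | map {α β : Type u} (M : Matroid α) (f : α → β) (hf : M.E.InjOn f) (h : QGen M) : QGen (M.map f hf)
  | dual {α : Type u} (M : Matroid α) (h : QGen M) : QGen M✶
  | minor {α : Type u} (N M : Matroid α) (hN : N ≤m M) (h : QGen M) : QGen N
  | sum {α : Type u} (M N : Matroid α) (hd : Disjoint M.E N.E) (hM : QGen M) (hN : QGen N) :
      QGen (M.disjointSum N hd)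
  | comp {α : Type u} (M : Matroid α) (hM : M.Finite) (h : ∀ C, IsComp M C → QGen (M ↾ C)) : QGen M
  | twoSum {α : Type u} (M M₁ M₂ : Matroid α) (p : α) (hp : IsTwoSum M M₁ M₂ p) (h₁ : QGen M₁)
      (h₂ : QGen M₂) : QGen M
  | princExt {α : Type u} (M' M : Matroid α) (G : Set α) (e : α) (he : IsPrincExt M' M G e) (h : QGen M) :
      QGen M'
  | princTrunc {α : Type u} (M' M : Matroid α) (G : Set α) (ht : IsPrincTrunc M' M G) (h : QGen M) : QGen M'
  | union {α : Type u} (M M₁ M₂ : Matroid α) (hu : IsUnion M M₁ M₂) (h₁ : QGen M₁) (h₂ : QGen M₂) : QGen M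
  | induced {α β : Type u} (M : Matroid α) (N : Matroid β) (R : α → β → Prop) (hM : M.Finite)
      (hi : IsInduced M N R) (h : QGen N) : QGen M
  | split {α : Type u} (M M₁ M₂ : Matroid α) (G : Set α) (a : ℕ) (hM : M.Finite)
      (hs : IsSplit M M₁ M₂ G a) (h₁ : QGen M₁) (h₂ : QGen M₂) : QGen M
  | relax {α : Type u} (M' M : Matroid α) (hr : IsRelaxation M' M) (h : QGen M) : QGen M'

end Pool.Agent.EX18
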