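import Pool.Agent.EX18.QDefs
import Pool.Agent.SP65.Split

/-!
The split theorem in the form used by the closure theorem.
-/

set_option autoImplicit false

namespace Pool.Agent.EX18

open Finset Pool.Agent.EX91

theorem tconn_isSplit {α : Type*} [DecidableEq α] {M M₁ M₂ : Matroid α} {G : Set α} {a : ℕ}
    (h : IsSplit M M₁ M₂ G a) (t1 : TConn M₁) (t2 : TConn M₂) : TConn M := by
  classical
  have e : ∀ B : Finset α, ((B : Set α) ∩ G).encard = ((B.filter (fun x => x ∈ G)).card : ℕ∞) := by
    intro B
    rw [← Set.encard_coe_eq_coe_finsetCard]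
    congr 1
    ext x
    simp
  refine SP65.tconn_split_prop (fun x => x ∈ G) a ?_ ?_ t1 t2
  · intro B
    rw [h.1, e B, Nat.cast_le]
  · intro B
    rw [h.2, e B, Nat.cast_le]

end Pool.Agent.EX18
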