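import Pool.Agent.DT3.Link
import Pool.Agent.EX18.Defs

/-!
Minors isomorphic to `U_{1,2} ⊕ U_{1,2} ⊕ U_{1,1}`.

* `contract_indep_rk`: independence in `M ／ c` in terms of the rank function.
* `hasPairsMinor_of_rk`: two skew parallel pairs modulo `c` and an element outside their closure give such a minor.
-/

set_option autoImplicit false

namespace Pool.Agent.EX18

open Pool.Agent.DT3
open scoped Matroid

variable {α : Type*} {M : Matroid α}

theorem rk_coe (M : Matroid α) (Y : Finset α) :
    ((rkFn M Y : ℕ) : ℕ∞) = M.eRk (Y : Set α) := by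
  unfold rkFn
  apply ENat.natCast_toNat
  have h1 := M.eRk_le_encard (Y : Set α)
  have h2 : (Y : Set α).encard ≠ ⊤ := by
    rw [Set.encard_ne_top_iff]
    exact Y.finite_toSet
  exact ne_top_of_le_ne_top h2 h1

theorem rk_indep (J : Finset α) : M.Indep (J : Set α) ↔ rkFn M J = J.card := by
  rw [Matroid.indep_iff_eRk_eq_encard_of_finite J.finite_toSet, ← rk_coe,
    Set.encard_coe_eq_coe_finsetCard]
  exact Nat.cast_inj

variable [DecidableEq α]

/-- Independence in the contraction. -/
theorem contract_indep_rk (c J : Finset α) :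
    (M ／ (c : Set α)).Indep (J : Set α) ↔ Disjoint c J ∧ rkFn M (J ∪ c) = J.card + rkFn M c := by
  obtain ⟨I, hI⟩ := M.exists_isBasis' (c : Set α)
  have hIf : I.Finite := c.finite_toSet.subset hI.subset
  obtain ⟨I', rfl⟩ : ∃ I' : Finset α, (I' : Set α) = I := ⟨hIf.toFinset, hIf.coe_toFinset⟩
  have hIc : I' ⊆ c := by exact_mod_cast hI.subset
  have hr : rkFn M c = I'.card := by
    have h1 := hI.encard_eq_eRk
    rw [← rk_coe, Set.encard_coe_eq_coe_finsetCard] at h1
    exact_mod_cast h1.symm
  have hu : rkFn M (J ∪ c) = rkFn M (J ∪ I') := by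
    have h1 := hI.eRk_eq_eRk_union (J : Set α)
    have h2 : ((rkFn M (J ∪ c) : ℕ) : ℕ∞) = (rkFn M (J ∪ I') : ℕ) := by
      rw [rk_coe, rk_coe, Finset.coe_union, Finset.coe_union, Set.union_comm (J : Set α) c,
        Set.union_comm (J : Set α) I', h1]
    exact_mod_cast h2
  rw [hI.contract_indep_iff, ← Finset.coe_union, rk_indep, Finset.disjoint_coe, hu, hr]
  constructor
  · rintro ⟨h1, h2⟩
    refine ⟨h2, ?_⟩
    rw [h1, Finset.card_union_of_disjoint]
    exact (Finset.disjoint_of_subset_left hIc h2).symm
  · rintro ⟨h1, h2⟩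
    refine ⟨?_, h1⟩
    rw [h2, Finset.card_union_of_disjoint]
    exact (Finset.disjoint_of_subset_left hIc h1).symm

theorem hasPairsMinor_of_rk {c : Finset α} {a a' b b' z : α} (haa : a ≠ a') (hbb : b ≠ b')
    (pa : rkFn M (insert a (insert a' c)) = rkFn M c + 1)
    (pb : rkFn M (insert b (insert b' c)) = rkFn M c + 1)
    (pz : ∀ x ∈ ({a, a'} : Finset α), ∀ y ∈ ({b, b'} : Finset α),
      rkFn M (insert z (insert x (insert y c))) = rkFn M c + 3) : HasPairsMinor M := by
  have hr := rkFn_rank M
  -- three elements in one step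
  have three : ∀ x ∈ ({a, a'} : Finset α), ∀ y ∈ ({b, b'} : Finset α),
      x ∉ c ∧ y ∉ c ∧ z ∉ c ∧ x ≠ y ∧ x ≠ z ∧ y ≠ z := by
    intro x hx y hy
    have h := pz x hx y hy
    have i1 := hr.insert_le z (insert x (insert y c))
    have i2 := hr.insert_le x (insert y c)
    have i3 := hr.insert_le y c
    refine ⟨fun h1 => ?_, fun h1 => ?_, fun h1 => ?_, ?_, ?_, ?_⟩
    · rw [Finset.insert_eq_of_mem (Finset.mem_insert_of_mem h1)] at h i1
      omega
    · rw [Finset.insert_eq_of_mem h1] at h i1 i2
      omega
    · rw [Finset.insert_eq_of_mem (Finset.mem_insert_of_mem (Finset.mem_insert_of_mem h1))] at h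
      omega
    · rintro rfl
      rw [Finset.insert_eq_of_mem (Finset.mem_insert_self _ _)] at h i1
      omega
    · rintro rfl
      rw [Finset.insert_eq_of_mem (Finset.mem_insert_self _ _)] at h
      omega
    · rintro rfl
      rw [Finset.insert_eq_of_mem (Finset.mem_insert_of_mem (Finset.mem_insert_self _ _))] at h
      omega
  have ma : a ∈ ({a, a'} : Finset α) := by simp
  have ma' : a' ∈ ({a, a'} : Finset α) := by simp
  have mb : b ∈ ({b, b'} : Finset α) := by simp
  have mb' : b' ∈ ({b, b'} : Finset α) := by simp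
  obtain ⟨nac, nbc, nzc, hab, haz, hbz⟩ := three a ma b mb
  obtain ⟨na'c, nb'c, -, ha'b', ha'z, hb'z⟩ := three a' ma' b' mb'
  obtain ⟨-, -, -, hab', -, -⟩ := three a ma b' mb'
  obtain ⟨-, -, -, ha'b, -, -⟩ := three a' ma' b mb
  set S : Set α := {a, a', b, b', z} with hS
  set P : Matroid α := M ／ (c : Set α) with hP
  -- the triples are independent
  have tri : ∀ x ∈ ({a, a'} : Finset α), ∀ y ∈ ({b, b'} : Finset α),
      P.Indep ({x, y, z} : Set α) := by
    intro x hx y hy
    obtain ⟨h1, h2, h3, h4, h5, h6⟩ := three x hx y hy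
    have e : (({x, y, z} : Finset α) : Set α) = {x, y, z} := by simp
    rw [← e, hP, contract_indep_rk]
    refine ⟨?_, ?_⟩
    · rw [Finset.disjoint_left]
      intro t ht ht'
      rw [Finset.mem_insert, Finset.mem_insert, Finset.mem_singleton] at ht'
      rcases ht' with rfl | rfl | rfl
      · exact h1 ht
      · exact h2 ht
      · exact h3 ht
    · have c3 : ({x, y, z} : Finset α).card = 3 := by
        rw [Finset.card_eq_three]
        exact ⟨x, y, z, h4, h5, h6, rfl⟩
      have e2 : ({x, y, z} : Finset α) ∪ c = insert z (insert x (insert y c)) := by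
        ext t
        simp only [Finset.mem_union, Finset.mem_insert, Finset.mem_singleton]
        tauto
      rw [c3, e2, pz x hx y hy]
      omega
  -- the pairs are dependent
  have dep : ∀ x y : α, x ≠ y → rkFn M (insert x (insert y c)) = rkFn M c + 1 →
      ∀ J : Set α, P.Indep J → x ∈ J → y ∈ J → False := by
    intro x y hxy hrk J hJ hx hy
    have h1 : P.Indep ((({x, y} : Finset α) : Set α)) := by
      refine hJ.subset ?_
      intro t ht
      simp only [Finset.coe_insert, Finset.coe_singleton, Set.mem_insert_iff,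
        Set.mem_singleton_iff] at ht
      rcases ht with rfl | rfl <;> assumption
    rw [hP, contract_indep_rk] at h1
    have e2 : ({x, y} : Finset α) ∪ c = insert x (insert y c) := by
      ext t
      simp only [Finset.mem_union, Finset.mem_insert, Finset.mem_singleton]
      tauto
    have h2 := h1.2
    rw [e2, hrk, Finset.card_pair hxy] at h2
    omega
  have hSE : S ⊆ P.E := by
    have t1 := (tri a ma b mb).subset_ground
    have t2 := (tri a' ma' b' mb').subset_ground
    intro t ht
    rw [hS] at ht
    simp only [Set.mem_insert_iff, Set.mem_singleton_iff] at ht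
    rcases ht with rfl | rfl | rfl | rfl | rfl
    · exact t1 (by simp)
    · exact t2 (by simp)
    · exact t1 (by simp)
    · exact t2 (by simp)
    · exact t1 (by simp)
  set N : Matroid α := P ＼ (P.E \ S) with hN
  have hNE : N.E = S := by
    rw [hN, Matroid.delete_ground, Set.sdiff_sdiff_cancel_left hSE]
  have hNI : ∀ J : Set α, N.Indep J ↔ P.Indep J ∧ J ⊆ S := by
    intro J
    rw [hN, Matroid.delete_indep_iff]
    constructor
    · rintro ⟨h1, h2⟩
      refine ⟨h1, fun t ht => ?_⟩
      by_contra hc
      exact Set.disjoint_left.1 h2 ht ⟨h1.subset_ground ht, hc⟩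
    · rintro ⟨h1, h2⟩
      refine ⟨h1, ?_⟩
      rw [Set.disjoint_left]
      exact fun t ht ht' => ht'.2 (h2 ht)
  have triN : ∀ x y : α, (x = a ∨ x = a') → (y = b ∨ y = b') → N.Indep ({x, y, z} : Set α) := by
    intro x y hx hy
    rw [hNI]
    refine ⟨tri x (by rw [Finset.mem_insert, Finset.mem_singleton]; exact hx) y
      (by rw [Finset.mem_insert, Finset.mem_singleton]; exact hy), ?_⟩
    intro t ht
    simp only [Set.mem_insert_iff, Set.mem_singleton_iff] at ht
    rw [hS]
    simp only [Set.mem_insert_iff, Set.mem_singleton_iff]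
    rcases ht with rfl | rfl | rfl
    · rcases hx with rfl | rfl <;> simp
    · rcases hy with rfl | rfl <;> simp
    · simp
  have sup : ∀ J : Set α, N.Indep J → ∃ x y : α, (x = a ∨ x = a') ∧ (y = b ∨ y = b') ∧
      J ⊆ {x, y, z} := by
    intro J hJ
    rw [hNI] at hJ
    classical
    refine ⟨if a' ∈ J then a' else a, if b' ∈ J then b' else b, ?_, ?_, ?_⟩
    · split_ifs <;> simp
    · split_ifs <;> simp
    · intro t ht
      have hts := hJ.2 ht
      rw [hS] at hts
      simp only [Set.mem_insert_iff, Set.mem_singleton_iff] at hts ⊢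
      rcases hts with rfl | rfl | rfl | rfl | rfl
      · left
        rw [if_neg]
        exact fun h => dep _ _ haa pa J hJ.1 ht h
      · left
        rw [if_pos ht]
      · right; left
        rw [if_neg]
        exact fun h => dep _ _ hbb pb J hJ.1 ht h
      · right; left
        rw [if_pos ht]
      · right; right; rfl
  refine ⟨N, a, a', b, b', z, M.contract_delete_isMinor _ _, ?_, hNE, ?_⟩
  · simp only [List.nodup_cons, List.mem_cons, List.not_mem_nil, not_or, or_false, not_false_eq_true,
      List.nodup_nil, and_true]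
    exact ⟨⟨haa, hab, hab', haz⟩, ⟨ha'b, ha'b', ha'z⟩, ⟨hbb, hbz⟩, hb'z⟩
  · intro B
    constructor
    · intro hB
      obtain ⟨x, y, hx, hy, hBs⟩ := sup B hB.indep
      exact ⟨x, y, hx, hy, hB.eq_of_subset_indep (triN x y hx hy) hBs⟩
    · rintro ⟨x, y, hx, hy, rfl⟩
      obtain ⟨B', hB', hs⟩ := (triN x y hx hy).exists_isBase_superset
      obtain ⟨x', y', hx', hy', hs'⟩ := sup B' hB'.indep
      have h1 : x ∈ ({x', y', z} : Set α) := hs' (hs (by simp))
      have h2 : y ∈ ({x', y', z} : Set α) := hs' (hs (by simp))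
      simp only [Set.mem_insert_iff, Set.mem_singleton_iff] at h1 h2
      have e1 : x = x' := by
        rcases h1 with h | h | h
        · exact h
        · exfalso
          rcases hx with rfl | rfl <;> rcases hy' with rfl | rfl <;> first | exact hab h | exact hab' h | exact ha'b h | exact ha'b' h
        · exfalso
          rcases hx with rfl | rfl <;> first | exact haz h | exact ha'z h
      have e2 : y = y' := by
        rcases h2 with h | h | h
        · exfalso
          rcases hy with rfl | rfl <;> rcases hx' with rfl | rfl <;> first | exact hab h.symm | exact hab' h.symm | exact ha'b h.symm | exact ha'b' h.symm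
        · exact h
        · exfalso
          rcases hy with rfl | rfl <;> first | exact hbz h | exact hb'z h
      rw [← e1, ← e2] at hs'
      rw [Set.Subset.antisymm hs hs']
      exact hB'

end Pool.Agent.EX18
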