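import Pool.Agent.EX18.SixDefs
import Pool.Agent.EX18.Defs

/-!
A minor `U_{1,2} ⊕ U_{1,2} ⊕ U_{2,2}` contains a minor `U_{1,2} ⊕ U_{1,2} ⊕ U_{1,1}`.
-/

set_option autoImplicit false

namespace Pool.Agent.EX18

open scoped Matroid

theorem HasSixMinor.pairs {α : Type*} {M : Matroid α} (h : HasSixMinor M) : HasPairsMinor M := by
  obtain ⟨N, a, a', b, b', z, w, hN, hnd, hE, hB⟩ := h
  simp only [List.nodup_cons, List.mem_cons, List.not_mem_nil, not_or, or_false,
    not_false_eq_true, List.nodup_nil, and_true] at hnd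
  obtain ⟨⟨haa, hab, hab', haz, haw⟩, ⟨ha'b, ha'b', ha'z, ha'w⟩, ⟨hbb, hbz, hbw⟩, ⟨hb'z, hb'w⟩, hzw⟩ := hnd
  have hw : N.Indep {w} := by
    refine ((hB _).2 ⟨a, b, Or.inl rfl, Or.inl rfl, rfl⟩).indep.subset ?_
    rw [Set.singleton_subset_iff]
    simp
  refine ⟨N ／ {w}, a, a', b, b', z, ?_, ?_, ?_, ?_⟩
  · refine Matroid.IsMinor.trans ⟨{w}, ∅, ?_⟩ hN
    rw [Matroid.delete_empty]
  · simp only [List.nodup_cons, List.mem_cons, List.not_mem_nil, not_or, or_false,
      not_false_eq_true, List.nodup_nil, and_true]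
    exact ⟨⟨haa, hab, hab', haz⟩, ⟨ha'b, ha'b', ha'z⟩, ⟨hbb, hbz⟩, hb'z⟩
  · rw [Matroid.contract_ground, hE]
    ext t
    simp only [Set.mem_sdiff, Set.mem_insert_iff, Set.mem_singleton_iff]
    constructor
    · rintro ⟨h1, h2⟩
      tauto
    · rintro (rfl | rfl | rfl | rfl | rfl)
      · exact ⟨by tauto, haw⟩
      · exact ⟨by tauto, ha'w⟩
      · exact ⟨by tauto, hbw⟩
      · exact ⟨by tauto, hb'w⟩
      · exact ⟨by tauto, hzw⟩
  · intro B
    rw [hw.contract_isBase_iff, hB]
    constructor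
    · rintro ⟨⟨x, y, hx, hy, h1⟩, h2⟩
      refine ⟨x, y, hx, hy, ?_⟩
      have hwB : w ∉ B := Set.disjoint_singleton_right.1 h2
      have hxw : x ≠ w := by rcases hx with rfl | rfl <;> assumption
      have hyw : y ≠ w := by rcases hy with rfl | rfl <;> assumption
      ext t
      have h3 : t ∈ B ∪ {w} ↔ t ∈ ({x, y, z, w} : Set α) := by rw [h1]
      simp only [Set.mem_union, Set.mem_singleton_iff, Set.mem_insert_iff] at h3 ⊢
      constructor
      · intro ht
        have htw : t ≠ w := fun h => hwB (h ▸ ht)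
        tauto
      · rintro (rfl | rfl | rfl)
        · exact (h3.2 (Or.inl rfl)).resolve_right hxw
        · exact (h3.2 (Or.inr (Or.inl rfl))).resolve_right hyw
        · exact (h3.2 (Or.inr (Or.inr (Or.inl rfl)))).resolve_right hzw
    · rintro ⟨x, y, hx, hy, rfl⟩
      have hxw : x ≠ w := by rcases hx with rfl | rfl <;> assumption
      have hyw : y ≠ w := by rcases hy with rfl | rfl <;> assumption
      refine ⟨⟨x, y, hx, hy, ?_⟩, ?_⟩
      · ext t
        simp only [Set.mem_union, Set.mem_singleton_iff, Set.mem_insert_iff]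
        tauto
      · rw [Set.disjoint_singleton_right]
        simp only [Set.mem_insert_iff, Set.mem_singleton_iff, not_or]
        exact ⟨fun h => hxw h.symm, fun h => hyw h.symm, fun h => hzw h.symm⟩

end Pool.Agent.EX18
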