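import Pool.Agent.EX18.QDefs
import Pool.Agent.EX18.SixP
import Pool.Agent.EX18.Mat

/-!
Relaxations of circuit-hyperplanes.

* `oneOut Q E`: the matroid on `E` whose independent sets are the sets with at most `|Q|` elements, at most one of them
  outside `Q`; it has no minor `U_{1,2} ⊕ U_{1,2} ⊕ U_{1,1}`.
* `relax_split`: a relaxation is split into the original matroid and `oneOut`.
-/

set_option autoImplicit false

namespace Pool.Agent.EX18

open scoped Matroid

universe u v w

section

variable {α : Type u}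

/-- Sets with at most `|Q|` elements, at most one of them outside `Q`. -/
def OneOut (Q E I : Set α) : Prop :=
  I ⊆ E ∧ (∀ x ∈ I, ∀ y ∈ I, x ∉ Q → y ∉ Q → x = y) ∧ I.ncard ≤ Q.ncard

/-- The matroid with these independent sets. -/
def oneOut (Q E : Set α) (hE : E.Finite) (_hQ : Q ⊆ E) : Matroid α :=
  (IndepMatroid.ofFinite hE (OneOut Q E)
    ⟨Set.empty_subset _, fun _ h => absurd h (Set.notMem_empty _), by simp⟩
    (fun I J hJ hIJ => ⟨hIJ.trans hJ.1, fun x hx y hy => hJ.2.1 x (hIJ hx) y (hIJ hy),
      (Set.ncard_le_ncard hIJ (hE.subset hJ.1)).trans hJ.2.2⟩)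
    (by
      intro I J hI hJ hlt
      have hIf := hE.subset hI.1
      have hJf := hE.subset hJ.1
      have hcard : ∀ e, (insert e I).ncard ≤ Q.ncard := fun e => by
        have h1 := Set.ncard_insert_le e I
        have h2 := hJ.2.2
        omega
      by_cases hu : ∃ u ∈ I, u ∉ Q
      · obtain ⟨u, huI, huQ⟩ := hu
        -- an element of `J` inside `Q` and outside `I`
        have hex : ∃ e ∈ J ∩ Q, e ∉ I := by
          by_contra hcon
          push Not at hcon
          have h1 : J ∩ Q ⊆ I \ {u} := fun e he => ⟨hcon e he, fun h => huQ (h ▸ he.2)⟩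
          have h2 := Set.ncard_le_ncard h1 (hIf.subset Set.sdiff_subset)
          have h3 := Set.ncard_sdiff_singleton_add_one huI hIf
          have h4 : (J \ Q).ncard ≤ 1 := by
            rw [Set.ncard_le_one (hJf.subset Set.sdiff_subset)]
            exact fun x hx y hy => hJ.2.1 x hx.1 y hy.1 hx.2 hy.2
          have h5 := Set.ncard_inter_add_ncard_sdiff_eq_ncard J Q hJf
          omega
        obtain ⟨e, he, heI⟩ := hex
        refine ⟨e, he.1, heI, Set.insert_subset (hJ.1 he.1) hI.1, ?_, hcard e⟩
        intro x hx y hy hxQ hyQ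
        have hx' : x ∈ I := hx.resolve_left fun h => hxQ (h ▸ he.2)
        have hy' : y ∈ I := hy.resolve_left fun h => hyQ (h ▸ he.2)
        exact hI.2.1 x hx' y hy' hxQ hyQ
      · push Not at hu
        obtain ⟨e, heJ, heI⟩ := Set.exists_mem_notMem_of_ncard_lt_ncard hlt hIf
        refine ⟨e, heJ, heI, Set.insert_subset (hJ.1 heJ) hI.1, ?_, hcard e⟩
        intro x hx y hy hxQ hyQ
        have hx' : x = e := hx.resolve_right fun h => hxQ (hu x h)
        have hy' : y = e := hy.resolve_right fun h => hyQ (hu y h)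
        rw [hx', hy'])
    (fun I hI => hI.1)).matroid

theorem oneOut_indep {Q E : Set α} (hE : E.Finite) (hQ : Q ⊆ E) (I : Set α) :
    (oneOut Q E hE hQ).Indep I ↔ OneOut Q E I := by
  rfl

theorem oneOut_base {Q E : Set α} (hE : E.Finite) (hQ : Q ⊆ E) (B : Set α) :
    (oneOut Q E hE hQ).IsBase B ↔ OneOut Q E B ∧ B.ncard = Q.ncard := by
  have hQB : (oneOut Q E hE hQ).IsBase Q := by
    have hQi : (oneOut Q E hE hQ).Indep Q :=
      (oneOut_indep hE hQ Q).2 ⟨hQ, fun x hx _ _ h => absurd hx h, le_rfl⟩
    refine hQi.isBase_of_maximal ?_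
    intro J hJ hQJ
    have h1 := (oneOut_indep hE hQ J).1 hJ
    exact Set.eq_of_subset_of_ncard_le hQJ h1.2.2 (hE.subset h1.1)
  constructor
  · intro hB
    exact ⟨(oneOut_indep hE hQ B).1 hB.indep, hB.ncard_eq_ncard_of_isBase hQB⟩
  · rintro ⟨h1, h2⟩
    refine ((oneOut_indep hE hQ B).2 h1).isBase_of_maximal ?_
    intro J hJ hBJ
    have h3 := (oneOut_indep hE hQ J).1 hJ
    exact Set.eq_of_subset_of_ncard_le hBJ (by rw [h2]; exact h3.2.2) (hE.subset h3.1)

theorem oneOut_pairs {Q E : Set α} (hE : E.Finite) (hQ : Q ⊆ E) :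
    ¬ HasPairsMinor (oneOut Q E hE hQ) := by
  rintro ⟨N, a, a', b, b', z, ⟨C, D, rfl⟩, hnd, hNE, hB⟩
  simp only [List.nodup_cons, List.mem_cons, List.not_mem_nil, not_or, or_false,
    not_false_eq_true, List.nodup_nil, and_true] at hnd
  obtain ⟨⟨haa, hab, hab', haz⟩, ⟨ha'b, ha'b', ha'z⟩, ⟨hbb, hbz⟩, hb'z⟩ := hnd
  set M := oneOut Q E hE hQ with hM
  obtain ⟨I, hI⟩ := M.exists_isBasis' C
  -- the triples
  have tri : ∀ x y : α, (x = a ∨ x = a') → (y = b ∨ y = b') → OneOut Q E ({x, y, z} ∪ I) ∧
      Disjoint ({x, y, z} : Set α) C := by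
    intro x y hx hy
    have h1 : (M ／ C ＼ D).Indep {x, y, z} := ((hB _).2 ⟨x, y, hx, hy, rfl⟩).indep
    rw [Matroid.delete_indep_iff, hI.contract_indep_iff] at h1
    exact ⟨(oneOut_indep hE hQ _).1 h1.1.1, h1.1.2.symm⟩
  -- a pair of parallel elements consists of elements outside `Q`
  have key : ∀ x x' y : α, x ≠ x' → x' ≠ y → x' ≠ z → x ≠ y → x ≠ z → y ≠ z →
      OneOut Q E ({x', y, z} ∪ I) → Disjoint ({x', y, z} : Set α) C → x ∈ E → x ∉ C →
      ¬ (M ／ C).Indep {x, x'} → x ∉ Q := by
    intro x x' y hxx hx'y hx'z hxy hxz hyz h1 h2 hxE hxC h3 hxQ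
    apply h3
    rw [hI.contract_indep_iff]
    have hIC := hI.subset
    have hfin : ({x', y, z} ∪ I : Set α).Finite := hE.subset h1.1
    have hIf : I.Finite := hfin.subset Set.subset_union_right
    refine ⟨(oneOut_indep hE hQ _).2 ⟨?_, ?_, ?_⟩, ?_⟩
    · intro t ht
      rcases ht with ht | ht
      · rcases ht with rfl | ht
        · exact hxE
        · rw [Set.mem_singleton_iff] at ht
          exact h1.1 (Or.inl (by rw [ht]; simp))
      · exact h1.1 (Or.inr ht)
    · intro s hs t ht hsQ htQ
      have hin : ∀ s, s ∈ ({x, x'} ∪ I : Set α) → s ∉ Q → s ∈ ({x', y, z} ∪ I : Set α) := by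
        intro s hs hsQ
        rcases hs with hs | hs
        · rcases hs with rfl | hs
          · exact absurd hxQ hsQ
          · rw [Set.mem_singleton_iff] at hs
            rw [hs]
            exact Or.inl (by simp)
        · exact Or.inr hs
      exact h1.2.1 s (hin s hs hsQ) t (hin t ht htQ) hsQ htQ
    · have hd : Disjoint ({x', y, z} : Set α) I := h2.mono_right hIC
      have c1 : ({x', y, z} ∪ I : Set α).ncard = 3 + I.ncard := by
        rw [Set.ncard_union_eq hd (Set.toFinite _) hIf]
        congr 1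
        rw [Set.ncard_eq_three]
        exact ⟨x', y, z, hx'y, hx'z, hyz, rfl⟩
      have c2 : ({x, x'} ∪ I : Set α).ncard ≤ 2 + I.ncard := by
        refine (Set.ncard_union_le _ _).trans ?_
        have := Set.ncard_pair hxx
        omega
      have := h1.2.2
      omega
    · rw [Set.disjoint_right]
      intro t ht htC
      rcases ht with rfl | ht
      · exact hxC htC
      · rw [Set.mem_singleton_iff] at ht
        exact Set.disjoint_left.1 h2 (by rw [ht]; simp) htC
  -- dependent pairs
  have dep : ∀ x x' : α, x ≠ x' → (∀ x₁ y₁ : α, (x₁ = a ∨ x₁ = a') → (y₁ = b ∨ y₁ = b') →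
      ¬ ({x, x'} : Set α) ⊆ {x₁, y₁, z}) → x ∈ ({a, a', b, b', z} : Set α) →
      x' ∈ ({a, a', b, b', z} : Set α) → ¬ (M ／ C).Indep {x, x'} := by
    intro x x' _ h1 hx hx' h2
    have h3 : (M ／ C ＼ D).Indep {x, x'} := by
      rw [Matroid.delete_indep_iff]
      refine ⟨h2, ?_⟩
      rw [Set.disjoint_left]
      intro t ht htD
      have : t ∈ (M ／ C ＼ D).E := by
        rw [hNE]
        rcases ht with rfl | ht
        · exact hx
        · rw [Set.mem_singleton_iff] at ht
          rw [ht]
          exact hx'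
      exact this.2 htD
    obtain ⟨B, hBb, hsub⟩ := h3.exists_isBase_superset
    obtain ⟨x₁, y₁, hx₁, hy₁, rfl⟩ := (hB B).1 hBb
    exact h1 x₁ y₁ hx₁ hy₁ hsub
  have ground : ∀ x ∈ ({a, a', b, b', z} : Set α), x ∈ E ∧ x ∉ C := by
    intro x hx
    rw [← hNE] at hx
    exact ⟨hx.1.1, hx.1.2⟩
  have ga := ground a (by simp)
  have gb := ground b (by simp)
  have naQ : a ∉ Q := by
    refine key a a' b haa ha'b ha'z hab haz hbz (tri a' b (Or.inr rfl) (Or.inl rfl)).1
      (tri a' b (Or.inr rfl) (Or.inl rfl)).2 ga.1 ga.2 (dep a a' haa ?_ (by simp) (by simp))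
    intro x₁ y₁ hx₁ hy₁ hsub
    have h1 : a ∈ ({x₁, y₁, z} : Set α) := hsub (by simp)
    have h2 : a' ∈ ({x₁, y₁, z} : Set α) := hsub (by simp)
    simp only [Set.mem_insert_iff, Set.mem_singleton_iff] at h1 h2
    have e1 : a = x₁ := by
      rcases h1 with h | h | h
      · exact h
      · exfalso
        rcases hy₁ with rfl | rfl
        · exact hab h
        · exact hab' h
      · exact absurd h haz
    have e2 : a' = x₁ := by
      rcases h2 with h | h | h
      · exact h
      · exfalso
        rcases hy₁ with rfl | rfl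
        · exact ha'b h
        · exact ha'b' h
      · exact absurd h ha'z
    exact haa (e1.trans e2.symm)
  have nbQ : b ∉ Q := by
    have t1 := tri a b' (Or.inl rfl) (Or.inr rfl)
    have e0 : ({a, b', z} : Set α) = {b', a, z} := by
      ext t
      simp only [Set.mem_insert_iff, Set.mem_singleton_iff]
      tauto
    rw [e0] at t1
    refine key b b' a hbb (Ne.symm hab') hb'z (Ne.symm hab) hbz haz t1.1 t1.2 gb.1 gb.2
      (dep b b' hbb ?_ (by simp) (by simp))
    intro x₁ y₁ hx₁ hy₁ hsub
    have h1 : b ∈ ({x₁, y₁, z} : Set α) := hsub (by simp)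
    have h2 : b' ∈ ({x₁, y₁, z} : Set α) := hsub (by simp)
    simp only [Set.mem_insert_iff, Set.mem_singleton_iff] at h1 h2
    have e1 : b = y₁ := by
      rcases h1 with h | h | h
      · exfalso
        rcases hx₁ with rfl | rfl
        · exact hab h.symm
        · exact ha'b h.symm
      · exact h
      · exact absurd h hbz
    have e2 : b' = y₁ := by
      rcases h2 with h | h | h
      · exfalso
        rcases hx₁ with rfl | rfl
        · exact hab' h.symm
        · exact ha'b' h.symm
      · exact h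
      · exact absurd h hb'z
    exact hbb (e1.trans e2.symm)
  have t := (tri a b (Or.inl rfl) (Or.inl rfl)).1
  exact hab (t.2.1 a (Or.inl (by simp)) b (Or.inl (by simp)) naQ nbQ)

/-- The relaxation of a circuit-hyperplane splits the base polytope. -/
theorem relax_split {M M' : Matroid α} [M.Finite] {Q : Set α} (hQ : IsCircuitHyperplane M Q)
    (hE' : M'.E = M.E) (hB' : ∀ B, M'.IsBase B ↔ M.IsBase B ∨ B = Q) :
    IsSplit M' M (oneOut Q M.E M.ground_finite hQ.1.subset_ground) Q (Q.ncard - 1) := by
  obtain ⟨hc, hflat, hne, hhyp⟩ := hQ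
  have hQE : Q ⊆ M.E := hc.subset_ground
  have hfin := M.ground_finite
  have hQf : Q.Finite := hfin.subset hQE
  have hQne : Q.Nonempty := hc.nonempty
  have hQpos : 0 < Q.ncard := (Set.ncard_pos hQf).2 hQne
  have hex : (M.E \ Q).Nonempty := by
    rw [Set.nonempty_iff_ne_empty]
    intro h
    exact hne (Set.Subset.antisymm hQE (Set.sdiff_eq_empty.1 h))
  have hbase : ∀ p ∈ Q, ∀ u ∈ M.E \ Q, M.IsBase (insert u (Q \ {p})) := by
    intro p hp u hu
    have hcl : M.closure (Q \ {p}) = Q := by
      rw [(hc.sdiff_singleton_isBasis hp).closure_eq_closure, hflat.closure]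
    have hind : M.Indep (Q \ {p}) := (hc.sdiff_singleton_isBasis hp).indep
    have hind2 : M.Indep (insert u (Q \ {p})) := by
      rw [hind.insert_indep_iff_of_notMem (fun h => hu.2 h.1), hcl]
      exact ⟨hu.1, hu.2⟩
    refine hind2.isBase_of_spanning ?_
    rw [Matroid.spanning_iff_closure_eq (hind2.subset_ground), ← Matroid.closure_insert_closure_eq_closure_insert, hcl,
      hhyp u hu]
  have hcard : ∀ B, M.IsBase B → B.ncard = Q.ncard := by
    intro B hB
    obtain ⟨p, hp⟩ := hQne
    obtain ⟨u, hu⟩ := hex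
    rw [hB.ncard_eq_ncard_of_isBase (hbase p hp u hu), Set.ncard_insert_of_notMem (fun h => hu.2 h.1)
      (hQf.subset Set.sdiff_subset)]
    exact Set.ncard_sdiff_singleton_add_one hp hQf
  have hQnb : ¬ M.IsBase Q := fun h => hc.not_indep h.indep
  have henc : ∀ B : Set α, B ⊆ M.E → (B ∩ Q).encard = ((B ∩ Q).ncard : ℕ∞) := by
    intro B hB
    exact ((hQf.subset Set.inter_subset_right).cast_ncard_eq).symm
  have hle : ∀ B : Set α, (B ∩ Q).ncard ≤ Q.ncard := fun B =>
    Set.ncard_le_ncard Set.inter_subset_right hQf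
  constructor
  · intro B
    constructor
    · intro hB
      refine ⟨(hB' B).2 (Or.inl hB), ?_⟩
      rw [henc B hB.subset_ground]
      norm_cast
      by_contra hcon
      have h1 : (B ∩ Q).ncard = Q.ncard := by
        have := hle B
        omega
      have h2 : B ∩ Q = Q := Set.eq_of_subset_of_ncard_le Set.inter_subset_right h1.ge hQf
      have h3 : Q ⊆ B := Set.inter_eq_right.1 h2
      exact hc.not_indep (hB.indep.subset h3)
    · rintro ⟨hB, h1⟩
      rcases (hB' B).1 hB with h | rfl
      · exact h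
      · exfalso
        rw [henc B hQE, Set.inter_self] at h1
        norm_cast at h1
        omega
  · intro B
    rw [oneOut_base]
    constructor
    · rintro ⟨⟨hBE, hone, -⟩, hBc⟩
      have hBf : B.Finite := hfin.subset hBE
      by_cases hBQ : B ⊆ Q
      · have h1 : B = Q := Set.eq_of_subset_of_ncard_le hBQ hBc.ge hQf
        refine ⟨(hB' B).2 (Or.inr h1), ?_⟩
        rw [henc B hBE, h1, Set.inter_self]
        norm_cast
        omega
      · obtain ⟨u, huB, huQ⟩ := Set.not_subset.1 hBQ
        have h1 : B = insert u (B ∩ Q) := by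
          ext t
          constructor
          · intro ht
            by_cases htQ : t ∈ Q
            · exact Or.inr ⟨ht, htQ⟩
            · exact Or.inl (hone t ht u huB htQ huQ)
          · rintro (rfl | ht)
            · exact huB
            · exact ht.1
        have h2 : (B ∩ Q).ncard + 1 = Q.ncard := by
          rw [← hBc]
          conv_rhs => rw [h1]
          exact (Set.ncard_insert_of_notMem (fun h => huQ h.2) (hBf.subset Set.inter_subset_left)).symm
        have h3 : ∃ p ∈ Q, p ∉ B := by
          by_contra hcon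
          push Not at hcon
          rw [Set.inter_eq_right.2 hcon] at h2
          omega
        obtain ⟨p, hpQ, hpB⟩ := h3
        have h4 : B ∩ Q = Q \ {p} := by
          refine Set.eq_of_subset_of_ncard_le ?_ ?_ (hQf.subset Set.sdiff_subset)
          · exact fun t ht => ⟨ht.2, fun h => hpB (h ▸ ht.1)⟩
          · have := Set.ncard_sdiff_singleton_add_one hpQ hQf
            omega
        refine ⟨(hB' B).2 (Or.inl ?_), ?_⟩
        · rw [h1, h4]
          exact hbase p hpQ u ⟨hBE huB, huQ⟩
        · rw [henc B hBE]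
          norm_cast
          omega
    · rintro ⟨hB, h1⟩
      have hBE : B ⊆ M.E := by
        rw [← hE']
        exact hB.subset_ground
      have hBf : B.Finite := hfin.subset hBE
      have hBc : B.ncard = Q.ncard := by
        rcases (hB' B).1 hB with h | rfl
        · exact hcard B h
        · rfl
      rw [henc B hBE] at h1
      norm_cast at h1
      refine ⟨⟨hBE, ?_, hBc.le⟩, hBc⟩
      have h2 := Set.ncard_inter_add_ncard_sdiff_eq_ncard B Q hBf
      have h3 : (B \ Q).ncard ≤ 1 := by omega
      rw [Set.ncard_le_one (hBf.subset Set.sdiff_subset)] at h3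
      exact fun x hx y hy hxQ hyQ => h3 x ⟨hx, hxQ⟩ y ⟨hy, hyQ⟩

end

end Pool.Agent.EX18
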