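import Pool.Agent.EX18.Star
import Pool.Agent.EX18.Ext
import Pool.Agent.EX18.Mat
import Pool.Agent.CF98.LiftA

/-!
`Star` for matroids without a minor `U_{1,2} ⊕ U_{1,2} ⊕ U_{1,1}`.
-/

set_option autoImplicit false

namespace Pool.Agent.EX18

open Finset Pool.Agent.DT3 Pool.Agent.CF98

variable {α : Type*} [DecidableEq α] {M : Matroid α} {f : ℕ}

theorem rr_apply (M : Matroid α) (X : Finset (α × ℕ)) : rr M X = rkFn M (X.image Prod.fst) := rfl

theorem star_rr (hM : ¬ HasPairsMinor M) (hf : M.eRank = (f : ℕ∞)) (E : Finset (α × ℕ)) :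
    Star (rr M) E f := by
  intro F _ K1 _ K2 _ n1 n2 s1 s2 nl c1 c2 sk
  by_contra hne
  apply hM
  have hr := rr_rank M
  have hk := rkFn_rank M
  obtain ⟨C, hC, a, ha, a', ha', b, hb, b', hb', haa, hbb, pa, pb, pab⟩ :=
    ext_two hr n1 n2 nl c1 c2 sk
  -- an element outside
  have hlt : M.eRk (((F ∪ (K1 ∪ K2)).image Prod.fst : Finset α) : Set α) < M.eRk M.E := by
    rw [← Matroid.eRank_def, hf, ← rk_coe, ← rr_apply]
    have h1 : ((rr M (F ∪ (K1 ∪ K2)) : ℕ) : ℕ∞) ≤ (f : ℕ∞) := by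
      rw [rr_apply, rk_coe, ← hf]
      exact M.eRk_le_eRank _
    have h2 : rr M (F ∪ (K1 ∪ K2)) ≤ f := by exact_mod_cast h1
    exact_mod_cast lt_of_le_of_ne h2 hne
  obtain ⟨z, -, hz⟩ := Matroid.exists_eRk_insert_eq_add_one_of_lt hlt
  have hz' : rkFn M (insert z ((F ∪ (K1 ∪ K2)).image Prod.fst)) =
      rkFn M ((F ∪ (K1 ∪ K2)).image Prod.fst) + 1 := by
    have h1 : ((rkFn M (insert z ((F ∪ (K1 ∪ K2)).image Prod.fst)) : ℕ) : ℕ∞) =
        ((rkFn M ((F ∪ (K1 ∪ K2)).image Prod.fst) + 1 : ℕ) : ℕ∞) := by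
      rw [rk_coe, coe_insert, hz, Nat.cast_add, rk_coe]
      rfl
    exact_mod_cast h1
  have hzW : ∀ W : Finset (α × ℕ), W ⊆ F ∪ (K1 ∪ K2) →
      rkFn M (insert z (W.image Prod.fst)) = rkFn M (W.image Prod.fst) + 1 := by
    intro W hW
    rcases hk.insert_eq z (W.image Prod.fst) with h | h
    · exfalso
      have h1 := hk.mono_insert h (image_subset_image hW)
      omega
    · exact h
  have simple : ∀ x y : α × ℕ, rr M {x, y} = 2 → x.1 ≠ y.1 := by
    intro x y hxy h
    rw [rr_apply, image_insert, image_singleton, h, insert_eq_of_mem (mem_singleton_self _)] at hxy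
    have h1 := hk.le_card {y.1}
    rw [card_singleton] at h1
    omega
  refine hasPairsMinor_of_rk (c := C.image Prod.fst) (a := a.1) (a' := a'.1) (b := b.1) (b' := b'.1)
    (z := z) (simple _ _ (s1 a ha a' ha' haa)) (simple _ _ (s2 b hb b' hb' hbb)) ?_ ?_ ?_
  · rw [← image_insert, ← image_insert, ← rr_apply, ← rr_apply]
    exact pa
  · rw [← image_insert, ← image_insert, ← rr_apply, ← rr_apply]
    exact pb
  · intro x hx y hy
    have hx1 : ∃ x0 ∈ ({a, a'} : Finset (α × ℕ)), x0.1 = x := by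
      rw [mem_insert, mem_singleton] at hx
      rcases hx with rfl | rfl
      · exact ⟨a, by simp, rfl⟩
      · exact ⟨a', by simp, rfl⟩
    have hy1 : ∃ y0 ∈ ({b, b'} : Finset (α × ℕ)), y0.1 = y := by
      rw [mem_insert, mem_singleton] at hy
      rcases hy with rfl | rfl
      · exact ⟨b, by simp, rfl⟩
      · exact ⟨b', by simp, rfl⟩
    obtain ⟨x0, hx0, rfl⟩ := hx1
    obtain ⟨y0, hy0, rfl⟩ := hy1
    have hxK : x0 ∈ K1 := by
      rw [mem_insert, mem_singleton] at hx0
      rcases hx0 with rfl | rfl <;> assumption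
    have hyK : y0 ∈ K2 := by
      rw [mem_insert, mem_singleton] at hy0
      rcases hy0 with rfl | rfl <;> assumption
    have h1 := pab x0 hx0 y0 hy0
    have h2 := hzW (insert x0 (insert y0 C)) (by
      intro t ht
      rw [mem_insert, mem_insert] at ht
      rcases ht with rfl | rfl | ht
      · exact mem_union_right _ (mem_union_left _ hxK)
      · exact mem_union_right _ (mem_union_right _ hyK)
      · exact hC ht)
    rw [← rr_apply M (insert x0 (insert y0 C)), h1, image_insert, image_insert] at h2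
    rw [h2, ← rr_apply]

end Pool.Agent.EX18
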