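import Pool.Agent.EX18.Six
import Pool.Agent.EX18.StarM
import Pool.Agent.EX18.SixDefs

/-!
Minors isomorphic to `U_{1,2} ⊕ U_{1,2} ⊕ U_{2,2}`, and `TConn` for matroids without such a minor (given LEMMA D^1).
-/

set_option autoImplicit false

namespace Pool.Agent.EX18

open Pool.Agent.DT3 Pool.Agent.CF98 Pool.Agent.SA65 Pool.Agent.EX91
open scoped Matroid

section

variable {α : Type*} {M : Matroid α} [DecidableEq α]

theorem hasSixMinor_of_rk {c : Finset α} {a a' b b' z w : α} (haa : a ≠ a') (hbb : b ≠ b')
    (pa : rkFn M (insert a (insert a' c)) = rkFn M c + 1)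
    (pb : rkFn M (insert b (insert b' c)) = rkFn M c + 1)
    (pz : ∀ x ∈ ({a, a'} : Finset α), ∀ y ∈ ({b, b'} : Finset α),
      rkFn M (insert w (insert z (insert x (insert y c)))) = rkFn M c + 4) : HasSixMinor M := by
  have hr := rkFn_rank M
  -- four elements in one step
  have four : ∀ x ∈ ({a, a'} : Finset α), ∀ y ∈ ({b, b'} : Finset α),
      x ∉ c ∧ y ∉ c ∧ z ∉ c ∧ w ∉ c ∧ x ≠ y ∧ x ≠ z ∧ y ≠ z ∧ w ≠ x ∧ w ≠ y ∧ w ≠ z := by
    intro x hx y hy
    have h := pz x hx y hy
    have i0 := hr.insert_le w (insert z (insert x (insert y c)))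
    have i1 := hr.insert_le z (insert x (insert y c))
    have i2 := hr.insert_le x (insert y c)
    have i3 := hr.insert_le y c
    refine ⟨fun h1 => ?_, fun h1 => ?_, fun h1 => ?_, fun h1 => ?_, ?_, ?_, ?_, ?_, ?_, ?_⟩
    · have e := congrArg (rkFn M) (Finset.insert_eq_of_mem
        (Finset.mem_insert_of_mem h1 : x ∈ insert y c))
      omega
    · have e := congrArg (rkFn M) (Finset.insert_eq_of_mem h1)
      omega
    · have e := congrArg (rkFn M) (Finset.insert_eq_of_mem
        (Finset.mem_insert_of_mem (Finset.mem_insert_of_mem h1) : z ∈ insert x (insert y c)))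
      omega
    · have e := congrArg (rkFn M) (Finset.insert_eq_of_mem
        (Finset.mem_insert_of_mem (Finset.mem_insert_of_mem (Finset.mem_insert_of_mem h1)) :
          w ∈ insert z (insert x (insert y c))))
      omega
    · rintro rfl
      have e := congrArg (rkFn M) (Finset.insert_eq_of_mem
        (Finset.mem_insert_self x c : x ∈ insert x c))
      omega
    · rintro rfl
      have e := congrArg (rkFn M) (Finset.insert_eq_of_mem
        (Finset.mem_insert_self x (insert y c) : x ∈ insert x (insert y c)))
      omega
    · rintro rfl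
      have e := congrArg (rkFn M) (Finset.insert_eq_of_mem
        (Finset.mem_insert_of_mem (Finset.mem_insert_self y c) : y ∈ insert x (insert y c)))
      omega
    · rintro rfl
      have e := congrArg (rkFn M) (Finset.insert_eq_of_mem
        (Finset.mem_insert_of_mem (Finset.mem_insert_self w (insert y c)) :
          w ∈ insert z (insert w (insert y c))))
      omega
    · rintro rfl
      have e := congrArg (rkFn M) (Finset.insert_eq_of_mem
        (Finset.mem_insert_of_mem (Finset.mem_insert_of_mem (Finset.mem_insert_self w c)) :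
          w ∈ insert z (insert x (insert w c))))
      omega
    · rintro rfl
      have e := congrArg (rkFn M) (Finset.insert_eq_of_mem
        (Finset.mem_insert_self w (insert x (insert y c)) : w ∈ insert w (insert x (insert y c))))
      omega
  have ma : a ∈ ({a, a'} : Finset α) := by simp
  have ma' : a' ∈ ({a, a'} : Finset α) := by simp
  have mb : b ∈ ({b, b'} : Finset α) := by simp
  have mb' : b' ∈ ({b, b'} : Finset α) := by simp
  obtain ⟨nac, nbc, nzc, nwc, hab, haz, hbz, hwa, hwb, hwz⟩ := four a ma b mb
  obtain ⟨na'c, nb'c, -, -, ha'b', ha'z, hb'z, hwa', hwb', -⟩ := four a' ma' b' mb'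
  obtain ⟨-, -, -, -, hab', -, -, -, -, -⟩ := four a ma b' mb'
  obtain ⟨-, -, -, -, ha'b, -, -, -, -, -⟩ := four a' ma' b mb
  set S : Set α := {a, a', b, b', z, w} with hS
  set P : Matroid α := M ／ (c : Set α) with hP
  -- the quadruples are independent
  have tri : ∀ x ∈ ({a, a'} : Finset α), ∀ y ∈ ({b, b'} : Finset α),
      P.Indep ({x, y, z, w} : Set α) := by
    intro x hx y hy
    obtain ⟨h1, h2, h3, h4, h5, h6, h7, h8, h9, h10⟩ := four x hx y hy
    have e : (({x, y, z, w} : Finset α) : Set α) = {x, y, z, w} := by simp
    rw [← e, hP, contract_indep_rk]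
    refine ⟨?_, ?_⟩
    · rw [Finset.disjoint_left]
      intro t ht ht'
      rw [Finset.mem_insert, Finset.mem_insert, Finset.mem_insert, Finset.mem_singleton] at ht'
      rcases ht' with rfl | rfl | rfl | rfl
      · exact h1 ht
      · exact h2 ht
      · exact h3 ht
      · exact h4 ht
    · have c3 : ({x, y, z, w} : Finset α).card = 4 := by
        rw [Finset.card_insert_of_notMem, Finset.card_eq_three.2 ⟨y, z, w, h7, h9.symm, h10.symm, rfl⟩]
        rw [Finset.mem_insert, Finset.mem_insert, Finset.mem_singleton]
        rintro (h | h | h)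
        · exact h5 h
        · exact h6 h
        · exact h8 h.symm
      have e2 : ({x, y, z, w} : Finset α) ∪ c = insert w (insert z (insert x (insert y c))) := by
        ext t
        simp only [Finset.mem_union, Finset.mem_insert, Finset.mem_singleton]
        tauto
      rw [c3, e2, pz x hx y hy]
      omega
  -- the pairs are dependent
  have dep : ∀ x y : α, x ≠ y → rkFn M (insert x (insert y c)) = rkFn M c + 1 →
      ∀ J : Set α, P.Indep J → x ∈ J → y ∈ J → False := by
    intro x y hxy hrk J hJ hx hy
    have h1 : P.Indep ((({x, y} : Finset α) : Set α)) := by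
      refine hJ.subset ?_
      intro t ht
      simp only [Finset.coe_insert, Finset.coe_singleton, Set.mem_insert_iff,
        Set.mem_singleton_iff] at ht
      rcases ht with rfl | rfl <;> assumption
    rw [hP, contract_indep_rk] at h1
    have e2 : ({x, y} : Finset α) ∪ c = insert x (insert y c) := by
      ext t
      simp only [Finset.mem_union, Finset.mem_insert, Finset.mem_singleton]
      tauto
    have h2 := h1.2
    rw [e2, hrk, Finset.card_pair hxy] at h2
    omega
  have hSE : S ⊆ P.E := by
    have t1 := (tri a ma b mb).subset_ground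
    have t2 := (tri a' ma' b' mb').subset_ground
    intro t ht
    rw [hS] at ht
    simp only [Set.mem_insert_iff, Set.mem_singleton_iff] at ht
    rcases ht with rfl | rfl | rfl | rfl | rfl | rfl
    · exact t1 (by simp)
    · exact t2 (by simp)
    · exact t1 (by simp)
    · exact t2 (by simp)
    · exact t1 (by simp)
    · exact t1 (by simp)
  set N : Matroid α := P ＼ (P.E \ S) with hN
  have hNE : N.E = S := by
    rw [hN, Matroid.delete_ground, Set.sdiff_sdiff_cancel_left hSE]
  have hNI : ∀ J : Set α, N.Indep J ↔ P.Indep J ∧ J ⊆ S := by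
    intro J
    rw [hN, Matroid.delete_indep_iff]
    constructor
    · rintro ⟨h1, h2⟩
      refine ⟨h1, fun t ht => ?_⟩
      by_contra hc
      exact Set.disjoint_left.1 h2 ht ⟨h1.subset_ground ht, hc⟩
    · rintro ⟨h1, h2⟩
      refine ⟨h1, ?_⟩
      rw [Set.disjoint_left]
      exact fun t ht ht' => ht'.2 (h2 ht)
  have triN : ∀ x y : α, (x = a ∨ x = a') → (y = b ∨ y = b') →
      N.Indep ({x, y, z, w} : Set α) := by
    intro x y hx hy
    rw [hNI]
    refine ⟨tri x (by rw [Finset.mem_insert, Finset.mem_singleton]; exact hx) y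
      (by rw [Finset.mem_insert, Finset.mem_singleton]; exact hy), ?_⟩
    intro t ht
    simp only [Set.mem_insert_iff, Set.mem_singleton_iff] at ht
    rw [hS]
    simp only [Set.mem_insert_iff, Set.mem_singleton_iff]
    rcases ht with rfl | rfl | rfl | rfl
    · rcases hx with rfl | rfl <;> simp
    · rcases hy with rfl | rfl <;> simp
    · simp
    · simp
  have sup : ∀ J : Set α, N.Indep J → ∃ x y : α, (x = a ∨ x = a') ∧ (y = b ∨ y = b') ∧
      J ⊆ {x, y, z, w} := by
    intro J hJ
    rw [hNI] at hJ
    classical
    refine ⟨if a' ∈ J then a' else a, if b' ∈ J then b' else b, ?_, ?_, ?_⟩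
    · split_ifs <;> simp
    · split_ifs <;> simp
    · intro t ht
      have hts := hJ.2 ht
      rw [hS] at hts
      simp only [Set.mem_insert_iff, Set.mem_singleton_iff] at hts ⊢
      rcases hts with rfl | rfl | rfl | rfl | rfl | rfl
      · left
        rw [if_neg]
        exact fun h => dep _ _ haa pa J hJ.1 ht h
      · left
        rw [if_pos ht]
      · right; left
        rw [if_neg]
        exact fun h => dep _ _ hbb pb J hJ.1 ht h
      · right; left
        rw [if_pos ht]
      · right; right; left; rfl
      · right; right; right; rfl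
  refine ⟨N, a, a', b, b', z, w, M.contract_delete_isMinor _ _, ?_, hNE, ?_⟩
  · simp only [List.nodup_cons, List.mem_cons, List.not_mem_nil, not_or, or_false, not_false_eq_true,
      List.nodup_nil, and_true]
    exact ⟨⟨haa, hab, hab', haz, hwa.symm⟩, ⟨ha'b, ha'b', ha'z, hwa'.symm⟩, ⟨hbb, hbz, hwb.symm⟩,
      ⟨hb'z, hwb'.symm⟩, hwz.symm⟩
  · intro B
    constructor
    · intro hB
      obtain ⟨x, y, hx, hy, hBs⟩ := sup B hB.indep
      exact ⟨x, y, hx, hy, hB.eq_of_subset_indep (triN x y hx hy) hBs⟩
    · rintro ⟨x, y, hx, hy, rfl⟩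
      obtain ⟨B', hB', hs⟩ := (triN x y hx hy).exists_isBase_superset
      obtain ⟨x', y', hx', hy', hs'⟩ := sup B' hB'.indep
      have h1 : x ∈ ({x', y', z, w} : Set α) := hs' (hs (by simp))
      have h2 : y ∈ ({x', y', z, w} : Set α) := hs' (hs (by simp))
      simp only [Set.mem_insert_iff, Set.mem_singleton_iff] at h1 h2
      have e1 : x = x' := by
        rcases h1 with h | h | h | h
        · exact h
        · exfalso
          rcases hx with rfl | rfl <;> rcases hy' with rfl | rfl <;> first | exact hab h | exact hab' h | exact ha'b h | exact ha'b' h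
        · exfalso
          rcases hx with rfl | rfl <;> first | exact haz h | exact ha'z h
        · exfalso
          rcases hx with rfl | rfl <;> first | exact hwa h.symm | exact hwa' h.symm
      have e2 : y = y' := by
        rcases h2 with h | h | h | h
        · exfalso
          rcases hy with rfl | rfl <;> rcases hx' with rfl | rfl <;> first | exact hab h.symm | exact hab' h.symm | exact ha'b h.symm | exact ha'b' h.symm
        · exact h
        · exfalso
          rcases hy with rfl | rfl <;> first | exact hbz h | exact hb'z h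
        · exfalso
          rcases hy with rfl | rfl <;> first | exact hwb h.symm | exact hwb' h.symm
      rw [← e1, ← e2] at hs'
      rw [Set.Subset.antisymm hs hs']
      exact hB'

end

section

open Finset

variable {α : Type*} [DecidableEq α] {M : Matroid α}

theorem star2_rr (hM : ¬ HasSixMinor M) (E : Finset (α × ℕ)) : Star2 E (rr M) := by
  intro F hF K1 hK1 K2 hK2 n1 n2 s1 s2 nl c1 c2 sk
  by_contra hne
  apply hM
  push Not at hne
  have hr := rr_rank M
  have hk := rkFn_rank M
  obtain ⟨C, hC, a, ha, a', ha', b, hb, b', hb', haa, hbb, pa, pb, pab⟩ :=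
    ext_two hr n1 n2 nl c1 c2 sk
  set W0 : Finset (α × ℕ) := F ∪ (K1 ∪ K2) with hW0
  have hW0E : W0 ⊆ E := union_subset hF (union_subset hK1 hK2)
  -- an element outside
  have out : ∀ W : Finset (α × ℕ), rr M W < rr M E → ∃ z ∈ E, rr M (insert z W) = rr M W + 1 := by
    intro W hW
    by_contra hcon
    push Not at hcon
    have h1 : ∀ V ⊆ E, rr M (W ∪ V) = rr M W := by
      intro V
      induction V using Finset.induction_on with
      | empty => intro _; rw [union_empty]
      | insert v V hv ih =>
        intro hV
        have h2 := ih ((subset_insert _ _).trans hV)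
        have h3 : rr M (insert v W) = rr M W := by
          rcases hr.insert_eq v W with h | h
          · exact h
          · exact absurd h (hcon v (hV (mem_insert_self _ _)))
        have h4 := hr.mono_insert h3 (subset_union_left : W ⊆ W ∪ V)
        rw [union_insert, h4, h2]
    have h2 := h1 E (Subset.refl _)
    have h3 := hr.mono E (W ∪ E) subset_union_right
    omega
  obtain ⟨z, -, hz⟩ := out W0 (by omega)
  obtain ⟨w, -, hw⟩ := out (insert z W0) (by omega)
  -- the same over subsets
  have hzW : ∀ W ⊆ W0, rr M (insert z W) = rr M W + 1 := by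
    intro W hW
    rcases hr.insert_eq z W with h | h
    · exfalso
      have h1 := hr.mono_insert h hW
      omega
    · exact h
  have hwW : ∀ W ⊆ W0, rr M (insert w (insert z W)) = rr M W + 2 := by
    intro W hW
    have h2 := hzW W hW
    rcases hr.insert_eq w (insert z W) with h | h
    · exfalso
      have h1 := hr.mono_insert h (insert_subset_insert z hW)
      omega
    · omega
  have simple : ∀ x y : α × ℕ, rr M {x, y} = 2 → x.1 ≠ y.1 := by
    intro x y hxy h
    rw [rr_apply, image_insert, image_singleton, h, insert_eq_of_mem (mem_singleton_self _)] at hxy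
    have h1 := hk.le_card {y.1}
    rw [card_singleton] at h1
    omega
  refine hasSixMinor_of_rk (c := C.image Prod.fst) (a := a.1) (a' := a'.1) (b := b.1) (b' := b'.1)
    (z := z.1) (w := w.1) (simple _ _ (s1 a ha a' ha' haa)) (simple _ _ (s2 b hb b' hb' hbb)) ?_ ?_ ?_
  · rw [← image_insert, ← image_insert, ← rr_apply, ← rr_apply]
    exact pa
  · rw [← image_insert, ← image_insert, ← rr_apply, ← rr_apply]
    exact pb
  · intro x hx y hy
    have hx1 : ∃ x0 ∈ ({a, a'} : Finset (α × ℕ)), x0.1 = x := by
      rw [mem_insert, mem_singleton] at hx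
      rcases hx with rfl | rfl
      · exact ⟨a, by simp, rfl⟩
      · exact ⟨a', by simp, rfl⟩
    have hy1 : ∃ y0 ∈ ({b, b'} : Finset (α × ℕ)), y0.1 = y := by
      rw [mem_insert, mem_singleton] at hy
      rcases hy with rfl | rfl
      · exact ⟨b, by simp, rfl⟩
      · exact ⟨b', by simp, rfl⟩
    obtain ⟨x0, hx0, rfl⟩ := hx1
    obtain ⟨y0, hy0, rfl⟩ := hy1
    have hxK : x0 ∈ K1 := by
      rw [mem_insert, mem_singleton] at hx0
      rcases hx0 with rfl | rfl <;> assumption
    have hyK : y0 ∈ K2 := by
      rw [mem_insert, mem_singleton] at hy0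
      rcases hy0 with rfl | rfl <;> assumption
    have h1 := pab x0 hx0 y0 hy0
    have h2 := hwW (insert x0 (insert y0 C)) (by
      intro t ht
      rw [mem_insert, mem_insert] at ht
      rcases ht with rfl | rfl | ht
      · exact mem_union_right _ (mem_union_left _ hxK)
      · exact mem_union_right _ (mem_union_right _ hyK)
      · exact hC ht)
    rw [h1] at h2
    rw [← image_insert, ← image_insert, ← image_insert, ← image_insert, ← rr_apply, ← rr_apply, h2]

/-- `TConn` for matroids without a minor `U_{1,2} ⊕ U_{1,2} ⊕ U_{2,2}`. -/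
theorem tconn_six (hcr : NapCorank (α × ℕ)) {M : Matroid α} (hM : ¬ HasSixMinor M) : TConn M :=
  connP her_star2 (swp_star2 hcr) M (fun E => star2_rr hM E)

end

end Pool.Agent.EX18
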