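import Pool.Agent.EX91.Fin

/-!
`TConn` is invariant under isomorphism.
-/

set_option autoImplicit false

namespace Pool.Agent.EX18

open Finset Pool.Agent.DT3 Pool.Agent.CF98 Pool.Agent.WD Pool.Agent.H94 Pool.Agent.EX91
open scoped Matroid

section

variable {α β : Type*} [DecidableEq α] [DecidableEq β]

theorem sameContent_image {f : α → β} {E : Set α} (hf : E.InjOn f) {m : ℕ} {B D : Fin m → Finset α}
    (hB : ∀ k, (B k : Set α) ⊆ E) (hD : ∀ k, (D k : Set α) ⊆ E) :
    SameContent (fun k => (B k).image f) (fun k => (D k).image f) ↔ SameContent B D := by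
  have key : ∀ (B : Fin m → Finset α), (∀ k, (B k : Set α) ⊆ E) → ∀ z ∈ E,
      univ.filter (fun k => f z ∈ (B k).image f) = univ.filter (fun k => z ∈ B k) := by
    intro B hB z hz
    refine filter_congr fun k _ => ?_
    rw [mem_image]
    constructor
    · rintro ⟨w, hw, hwz⟩
      have h1 := hf (hB k (mem_coe.2 hw)) hz hwz
      rwa [← h1]
    · exact fun h => ⟨z, h, rfl⟩
  constructor
  · intro h z
    by_cases hz : z ∈ E
    · have h1 := h (f z)
      simp only at h1
      rw [key B hB z hz, key D hD z hz] at h1
      exact h1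
    · have h0 : ∀ C : Fin m → Finset α, (∀ k, (C k : Set α) ⊆ E) →
          univ.filter (fun k => z ∈ C k) = ∅ := by
        intro C hC
        rw [filter_eq_empty_iff]
        intro k _ hk
        exact hz (hC k (mem_coe.2 hk))
      rw [h0 B hB, h0 D hD]
  · intro h w
    by_cases hw : ∃ z ∈ E, f z = w
    · obtain ⟨z, hz, rfl⟩ := hw
      show (univ.filter (fun k => f z ∈ (B k).image f)).card =
        (univ.filter (fun k => f z ∈ (D k).image f)).card
      rw [key B hB z hz, key D hD z hz]
      exact h z
    · have h0 : ∀ C : Fin m → Finset α, (∀ k, (C k : Set α) ⊆ E) →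
          univ.filter (fun k => w ∈ (C k).image f) = ∅ := by
        intro C hC
        rw [filter_eq_empty_iff]
        intro k _ hk
        obtain ⟨z, hz, hzw⟩ := mem_image.1 hk
        exact hw ⟨z, hC k (mem_coe.2 hz), hzw⟩
      show (univ.filter (fun k => w ∈ (B k).image f)).card =
        (univ.filter (fun k => w ∈ (D k).image f)).card
      rw [h0 B hB, h0 D hD]

theorem tconn_map {M : Matroid α} {f : α → β} (hf : M.E.InjOn f) (h : TConn M) :
    TConn (M.map f hf) := by
  have pre : ∀ B : Finset β, (M.map f hf).IsBase (B : Set β) →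
      ∃ B₀ : Finset α, M.IsBase (B₀ : Set α) ∧ B₀.image f = B := by
    intro B hB
    rw [Matroid.map_isBase_iff] at hB
    obtain ⟨B₀, hB₀, hBB⟩ := hB
    have hfin : B₀.Finite := by
      have h1 : (f '' B₀).Finite := by
        rw [← hBB]
        exact B.finite_toSet
      exact h1.of_finite_image (hf.mono hB₀.subset_ground)
    refine ⟨hfin.toFinset, by rwa [hfin.coe_toFinset], ?_⟩
    rw [← coe_inj, coe_image, hfin.coe_toFinset, hBB]
  intro B D hB hD hBD
  choose B₀ hB₀ hBB using fun k => pre (B k) (hB k)
  choose D₀ hD₀ hDD using fun k => pre (D k) (hD k)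
  have hBB' : (fun k => (B₀ k).image f) = B := funext hBB
  have hDD' : (fun k => (D₀ k).image f) = D := funext hDD
  have hc : SameContent B₀ D₀ := by
    rw [← sameContent_image hf (fun k => (hB₀ k).subset_ground) (fun k => (hD₀ k).subset_ground),
      hBB', hDD']
    exact hBD
  have path := h B₀ D₀ hB₀ hD₀ hc
  have key : Relation.ReflTransGen (ShareStep (fun S : Finset β => (M.map f hf).IsBase (S : Set β)))
      (fun k => (B₀ k).image f) (fun k => (D₀ k).image f) := by
    refine Relation.ReflTransGen.lift
      (r := ShareStep (fun S : Finset α => M.IsBase (S : Set α)))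
      (fun (P : Fin 3 → Finset α) (k : Fin 3) => (P k).image f) ?_ B₀ D₀ path
    rintro P P' ⟨hP, hP', hcc, i, j, hij⟩
    refine ⟨?_, ?_, ?_, i, j, ?_⟩
    · intro k
      rw [coe_image]
      exact (hP k).map hf
    · intro k
      rw [coe_image]
      exact (hP' k).map hf
    · exact (sameContent_image hf (fun k => (hP k).subset_ground)
        (fun k => (hP' k).subset_ground)).2 hcc
    · show (P i).image f = (P' j).image f
      rw [hij]
  rw [hBB', hDD'] at key
  exact key

end

end Pool.Agent.EX18
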