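import Pool.Agent.EX91.Fin

/-!
`TConn` passes to minors.
-/

set_option autoImplicit false

namespace Pool.Agent.EX18

open Finset Pool.Agent.DT3 Pool.Agent.CF98 Pool.Agent.WD Pool.Agent.H94 Pool.Agent.EX91
open scoped Matroid

section

variable {α : Type*} [DecidableEq α]

/-- Triples of a face given by elements in all blocks (`J`) and elements in no block (`¬ p`, not in `J`). -/
theorem share_face {b b' : Finset α → Prop} (J : Finset α) (p : α → Prop) [DecidablePred p]
    (hJ : ∀ z ∈ J, ¬ p z) (h1 : ∀ S, b' S → b (S ∪ J) ∧ ∀ z ∈ S, p z)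
    (h2 : ∀ T, b T → J ⊆ T → (∀ z ∈ T, z ∈ J ∨ p z) → b' (T.filter p))
    (hT : ∀ B D : Fin 3 → Finset α, (∀ k, b (B k)) → (∀ k, b (D k)) → SameContent B D →
      Relation.ReflTransGen (ShareStep b) B D)
    (B D : Fin 3 → Finset α) (hB : ∀ k, b' (B k)) (hD : ∀ k, b' (D k)) (hBD : SameContent B D) :
    Relation.ReflTransGen (ShareStep b') B D := by
  have hf : ∀ S, b' S → (S ∪ J).filter p = S := by
    intro S hS
    ext z
    rw [mem_filter, mem_union]
    constructor
    · rintro ⟨h | h, hp⟩
      · exact h
      · exact absurd hp (hJ z h)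
    · intro h
      exact ⟨Or.inl h, (h1 S hS).2 z h⟩
  have hc : SameContent (fun k => B k ∪ J) (fun k => D k ∪ J) := by
    intro z
    by_cases hz : z ∈ J
    · simp only [mem_union, hz, or_true]
    · simp only [mem_union, hz, or_false]
      exact hBD z
  have path := hT (fun k => B k ∪ J) (fun k => D k ∪ J) (fun k => (h1 _ (hB k)).1)
    (fun k => (h1 _ (hD k)).1) hc
  have inv : ∀ P : Fin 3 → Finset α, (∀ k, b (P k)) → SameContent (fun k => B k ∪ J) P →
      ∀ k, b' ((P k).filter p) := by
    intro P hP hc k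
    refine h2 _ (hP k) ?_ ?_
    · intro z hz
      have h3 : (univ.filter (fun k => z ∈ B k ∪ J)).card = (univ.filter (fun k => z ∈ P k)).card :=
        hc z
      have h4 : univ.filter (fun k : Fin 3 => z ∈ B k ∪ J) = univ := by
        rw [filter_eq_self]
        exact fun k _ => mem_union_right _ hz
      rw [h4] at h3
      have h5 : univ.filter (fun k => z ∈ P k) = univ := eq_univ_of_card _ h3.symm
      have h6 : k ∈ univ.filter (fun k => z ∈ P k) := by
        rw [h5]
        exact mem_univ k
      exact (mem_filter.1 h6).2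
    · intro z hz
      by_contra hcon
      push Not at hcon
      have h3 : (univ.filter (fun k => z ∈ B k ∪ J)).card = (univ.filter (fun k => z ∈ P k)).card :=
        hc z
      have h4 : univ.filter (fun k : Fin 3 => z ∈ B k ∪ J) = ∅ := by
        rw [filter_eq_empty_iff]
        intro k _ h
        rcases mem_union.1 h with h | h
        · exact hcon.2 ((h1 _ (hB k)).2 z h)
        · exact hcon.1 h
      rw [h4, card_empty] at h3
      have h5 := card_eq_zero.1 h3.symm
      have h6 : k ∈ univ.filter (fun k => z ∈ P k) := mem_filter.2 ⟨mem_univ _, hz⟩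
      rw [h5] at h6
      exact notMem_empty k h6
  have main : ∀ P, Relation.ReflTransGen (ShareStep b) (fun k => B k ∪ J) P →
      (∀ k, b (P k)) ∧ SameContent (fun k => B k ∪ J) P ∧
        Relation.ReflTransGen (ShareStep b') B (fun k => (P k).filter p) := by
    intro P hP
    induction hP with
    | refl =>
      refine ⟨fun k => (h1 _ (hB k)).1, fun _ => rfl, ?_⟩
      have e : (fun k => (B k ∪ J).filter p) = B := funext fun k => hf _ (hB k)
      rw [e]
    | @tail P P' _ hst ih =>
      obtain ⟨hP, hcP, hp⟩ := ih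
      obtain ⟨-, hP', hcc, i, j, hij⟩ := hst
      have hcP' : SameContent (fun k => B k ∪ J) P' := fun z => (hcP z).trans (hcc z)
      refine ⟨hP', hcP', hp.tail ⟨inv P hP hcP, inv P' hP' hcP', ?_, i, j, ?_⟩⟩
      · intro z
        by_cases hz : p z
        · simp only [mem_filter, hz, and_true]
          exact hcc z
        · simp only [mem_filter, hz, and_false]
      · show (P i).filter p = (P' j).filter p
        rw [hij]
  have key := (main _ path).2.2
  have e : (fun k => (D k ∪ J).filter p) = D := funext fun k => hf _ (hD k)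
  rwa [e] at key

theorem tconn_restrict {M : Matroid α} [M.Finite] {R : Set α} (hR : R ⊆ M.E) (h : TConn M) :
    TConn (M ↾ R) := by
  classical
  obtain ⟨B₀, hB₀⟩ := M.exists_isBasis R
  obtain ⟨B₁, hB₁, hsub⟩ := hB₀.indep.exists_isBase_superset
  have hBf : B₁.Finite := M.ground_finite.subset hB₁.subset_ground
  set J : Finset α := (hBf.subset (Set.sdiff_subset : B₁ \ B₀ ⊆ B₁)).toFinset with hJdef
  have hJ : (J : Set α) = B₁ \ B₀ := Set.Finite.coe_toFinset _
  have hJR : ∀ z ∈ J, z ∉ R := by
    intro z hz hzR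
    have hz' : z ∈ B₁ \ B₀ := by
      rw [← hJ]
      exact mem_coe.2 hz
    have h1 : B₁ ∩ R = B₀ :=
      (hB₀.eq_of_subset_indep (hB₁.indep.subset Set.inter_subset_left)
        (fun x hx => ⟨hsub hx, hB₀.subset hx⟩) Set.inter_subset_right).symm
    exact hz'.2 (h1 ▸ ⟨hz'.1, hzR⟩)
  have hJi : (M ／ R).Indep (J : Set α) := by
    rw [hB₀.contract_indep_iff, hJ, Set.sdiff_union_of_subset hsub]
    refine ⟨hB₁.indep, ?_⟩
    rw [← hJ, Set.disjoint_left]
    intro z hz hz'
    first
      | exact hJR z (mem_coe.1 hz) hz'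
      | exact hJR z (mem_coe.1 hz') hz
  have up : ∀ S : Set α, M.IsBasis S R → M.IsBase (S ∪ J) := by
    intro S hS
    have h1 := (hS.contract_indep_iff.1 hJi).1
    rw [Set.union_comm] at h1
    refine h1.isBase_of_spanning ?_
    rw [Matroid.spanning_iff_ground_subset_closure h1.subset_ground]
    have h2 : B₁ ⊆ M.closure (S ∪ J) := by
      intro z hz
      by_cases hz0 : z ∈ B₀
      · have h3 : z ∈ M.closure S := by
          rw [hS.closure_eq_closure]
          exact M.subset_closure R hR (hB₀.subset hz0)
        exact M.closure_subset_closure Set.subset_union_left h3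
      · refine M.subset_closure _ h1.subset_ground (Or.inr ?_)
        rw [hJ]
        exact ⟨hz, hz0⟩
    have h3 := M.closure_subset_closure_of_subset_closure h2
    rw [hB₁.closure_eq] at h3
    exact h3
  intro B D hB hD hBD
  refine share_face (b := fun S : Finset α => M.IsBase (S : Set α))
    (b' := fun S : Finset α => (M ↾ R).IsBase (S : Set α)) J (fun z => z ∈ R) hJR ?_ ?_ h B D hB hD
    hBD
  · intro S hS
    rw [Matroid.isBase_restrict_iff hR] at hS
    refine ⟨?_, fun z hz => hS.subset (mem_coe.2 hz)⟩
    rw [coe_union]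
    exact up _ hS
  · intro T hT hJT hTz
    rw [Matroid.isBase_restrict_iff hR]
    have e1 : ((T.filter (fun z => z ∈ R) : Finset α) : Set α) = (T : Set α) ∩ R := by
      ext z
      simp
    rw [e1]
    obtain ⟨Y, hY, hXY⟩ := (hT.indep.subset (Set.inter_subset_left : (T : Set α) ∩ R ⊆ T)).subset_isBasis_of_subset
      Set.inter_subset_right hR
    have h1 := up Y hY
    have h2 : (T : Set α) ⊆ Y ∪ J := by
      intro z hz
      rcases hTz z (mem_coe.1 hz) with h | h
      · exact Or.inr (mem_coe.2 h)
      · exact Or.inl (hXY ⟨hz, h⟩)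
    have h3 := hT.eq_of_subset_isBase h1 h2
    have h4 : Y ⊆ (T : Set α) ∩ R := by
      intro z hz
      refine ⟨?_, hY.subset hz⟩
      rw [h3]
      exact Or.inl hz
    rw [Set.Subset.antisymm hXY h4]
    exact hY

theorem tconn_minor {M N : Matroid α} [M.Finite] (hm : N ≤m M) (h : TConn M) : TConn N := by
  obtain ⟨C, D, hC, hD, hCD, rfl⟩ := hm.exists_eq_contract_delete_disjoint
  have h1 : TConn M✶✶ := by rwa [Matroid.dual_dual]
  have h2 : TConn M✶ := TConn.dual h1
  have h3 : TConn (M✶ ＼ C) := tconn_restrict Set.sdiff_subset h2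
  have h4 : TConn (M ／ C) := by
    have h5 : TConn (M ／ C)✶ := by rwa [Matroid.dual_contract]
    exact TConn.dual h5
  exact tconn_restrict Set.sdiff_subset h4

end

end Pool.Agent.EX18
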