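import Pool.Agent.EX18.TrDefs
import Pool.Agent.EX18.MapC
import Pool.Agent.EX18.Minor
import Pool.Agent.Un25.Ext
import Pool.Agent.FT56.PMain

/-!
Principal truncations of matroids with `TConn` have `TConn`.
-/

set_option autoImplicit false

namespace Pool.Agent.EX18

open Pool.Agent.EX91
open scoped Matroid

universe u

theorem tconn_princTrunc {α : Type u} [DecidableEq α] {M' M : Matroid α} [M.Finite] {G : Set α}
    (h : IsPrincTrunc M' M G) (hM : TConn M) : TConn M' := by
  classical
  obtain ⟨hG, hE, hB⟩ := h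
  obtain ⟨B', hB'⟩ := M'.exists_isBase
  obtain ⟨x0, hx0, hx0B, hx0b⟩ := (hB B').1 hB'
  have hinj : M.E.InjOn (some : α → Option α) := (Option.some_injective α).injOn
  set M₁ : Matroid (Option α) := M.map some hinj with hM₁d
  have hM₁ : TConn M₁ := tconn_map hinj hM
  have hM₁E : M₁.E = some '' M.E := by rw [hM₁d, Matroid.map_ground]
  have hfin : M₁.Finite := ⟨by rw [hM₁E]; exact M.ground_finite.image some⟩
  have hG₁ : some '' G ⊆ M₁.E := by
    rw [hM₁E]
    exact Set.image_mono hG
  have hnone : (none : Option α) ∉ M₁.E := by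
    rw [hM₁E]
    rintro ⟨a, -, ha⟩
    exact absurd ha (by simp)
  obtain ⟨N, hNf, hNE, hNI⟩ := Un25.exists_ext M₁ (some '' G) none
  have hNB := Un25.isBase_ext hG₁ hnone hNI
  have hN : TConn N := FT56.tconn_princExt N M₁ (some '' G) none ⟨hG₁, hnone, hNE, hNB⟩ hM₁
  have hN' : TConn (N ／ {none}) := tconn_minor ⟨{none}, ∅, by rw [Matroid.delete_empty]⟩ hN
  -- the bases of `N` which contain the new element
  have hbase : ∀ B : Set (Option α), none ∉ B →
      (N.IsBase (B ∪ {none}) ↔ ∃ y ∈ some '' G, y ∉ B ∧ M₁.IsBase (insert y B)) := by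
    intro B hnB
    have e1 : (B ∪ {none}) \ {none} = B := by
      ext t
      simp only [Set.mem_sdiff, Set.mem_union, Set.mem_singleton_iff]
      constructor
      · rintro ⟨h1 | h1, h2⟩
        · exact h1
        · exact absurd h1 h2
      · intro h1
        exact ⟨Or.inl h1, fun h2 => hnB (h2 ▸ h1)⟩
    have e2 : (B ∪ {none}).encard = B.encard + 1 := by
      rw [Set.union_singleton, Set.encard_insert_of_notMem hnB]
    rw [hNB, e1, e2]
    constructor
    · rintro (⟨h1, -⟩ | ⟨-, h2, h3, h4⟩)
      · exact absurd (Set.mem_union_right B (Set.mem_singleton none)) h1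
      · obtain ⟨y, hy, hyB, hyi⟩ := (Un25.opn_iff hG₁ h2).2 h4
        refine ⟨y, hy, hyB, (Un25.isBase_iff_card).2 ⟨hyi, ?_⟩⟩
        rw [Set.encard_insert_of_notMem hyB, h3]
    · rintro ⟨y, hy, hyB, hyb⟩
      refine Or.inr ⟨Set.mem_union_right B (Set.mem_singleton none), hyb.indep.subset (Set.subset_insert _ _), ?_,
        (Un25.opn_iff hG₁ (hyb.indep.subset (Set.subset_insert _ _))).1 ⟨y, hy, hyB, hyb.indep⟩⟩
      rw [← hyb.encard_eq_eRank, Set.encard_insert_of_notMem hyB]
  have hbi : ∀ B : Set (Option α), none ∉ B →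
      ((∃ y ∈ some '' G, y ∉ B ∧ M₁.IsBase (insert y B)) ↔ ∃ B₀, M'.IsBase B₀ ∧ B = some '' B₀) := by
    intro B hnB
    constructor
    · rintro ⟨y, ⟨g, hg, rfl⟩, hyB, hyb⟩
      rw [hM₁d, Matroid.map_isBase_iff] at hyb
      obtain ⟨C, hC, hCe⟩ := hyb
      have hgC : g ∈ C := by
        have h1 : some g ∈ some '' C := by
          rw [← hCe]
          exact Set.mem_insert _ _
        obtain ⟨c, hc, hcg⟩ := h1
        rw [← Option.some_injective α hcg]
        exact hc
      refine ⟨C \ {g}, (hB _).2 ⟨g, hg, fun h => h.2 rfl, ?_⟩, ?_⟩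
      · rw [Set.insert_sdiff_singleton, Set.insert_eq_of_mem hgC]
        exact hC
      · ext t
        constructor
        · intro ht
          have h1 : t ∈ some '' C := by
            rw [← hCe]
            exact Set.mem_insert_of_mem _ ht
          obtain ⟨c, hc, rfl⟩ := h1
          exact ⟨c, ⟨hc, fun h => hyB (by rw [Set.mem_singleton_iff] at h; rwa [← h])⟩, rfl⟩
        · rintro ⟨c, ⟨hc, hcg⟩, rfl⟩
          have h1 : some c ∈ insert (some g) B := by
            rw [hCe]
            exact ⟨c, hc, rfl⟩
          rcases h1 with h1 | h1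
          · exact absurd (Option.some_injective α h1) hcg
          · exact h1
    · rintro ⟨B₀, hB₀, rfl⟩
      obtain ⟨g, hg, hgB, hgb⟩ := (hB B₀).1 hB₀
      refine ⟨some g, ⟨g, hg, rfl⟩, ?_, ?_⟩
      · rintro ⟨c, hc, hcg⟩
        exact hgB (Option.some_injective α hcg ▸ hc)
      · rw [hM₁d, Matroid.map_isBase_iff]
        exact ⟨_, hgb, by rw [Set.image_insert_eq]⟩
  have hnoneI : N.Indep {none} := by
    have h1 : N.IsBase (some '' B' ∪ {none}) := by
      have h2 : (none : Option α) ∉ some '' B' := by
        rintro ⟨c, -, hc⟩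
        exact absurd hc (by simp)
      rw [hbase _ h2, hbi _ h2]
      exact ⟨B', hB', rfl⟩
    exact h1.indep.subset Set.subset_union_right
  have hinj' : M'.E.InjOn (some : α → Option α) := (Option.some_injective α).injOn
  have e : N ／ {none} = M'.map some hinj' := by
    refine Matroid.ext_isBase ?_ ?_
    · rw [Matroid.contract_ground, hNE, hM₁E, Matroid.map_ground, hE]
      ext t
      simp only [Set.mem_sdiff, Set.mem_insert_iff, Set.mem_singleton_iff]
      constructor
      · rintro ⟨h1 | h1, h2⟩
        · exact absurd h1 h2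
        · exact h1
      · intro h1
        refine ⟨Or.inr h1, ?_⟩
        rintro rfl
        exact hnone (by rw [hM₁E]; exact h1)
    · intro B _
      rw [hnoneI.contract_isBase_iff, Matroid.map_isBase_iff]
      constructor
      · rintro ⟨h1, h2⟩
        have hnB : none ∉ B := fun h3 => Set.disjoint_left.1 h2 h3 rfl
        exact (hbi B hnB).1 ((hbase B hnB).1 h1)
      · rintro ⟨B₀, hB₀, rfl⟩
        have hnB : (none : Option α) ∉ some '' B₀ := by
          rintro ⟨c, -, hc⟩
          exact absurd hc (by simp)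
        refine ⟨(hbase _ hnB).2 ((hbi _ hnB).2 ⟨B₀, hB₀, rfl⟩), ?_⟩
        rw [Set.disjoint_singleton_right]
        exact hnB
  rw [e] at hN'
  -- back to `M'`
  let pr : Option α → α := fun o => o.getD x0
  have hpr : (M'.map some hinj').E.InjOn pr := by
    rw [Matroid.map_ground]
    rintro _ ⟨a, -, rfl⟩ _ ⟨b, -, rfl⟩ hab
    exact congrArg some hab
  have hback : (M'.map some hinj').map pr hpr = M' := by
    refine Matroid.ext_isBase ?_ ?_
    · rw [Matroid.map_ground, Matroid.map_ground, Set.image_image]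
      simp [pr]
    · intro B _
      rw [Matroid.map_isBase_iff]
      constructor
      · rintro ⟨C, hC, rfl⟩
        rw [Matroid.map_isBase_iff] at hC
        obtain ⟨D, hD, rfl⟩ := hC
        rw [Set.image_image]
        simpa [pr] using hD
      · intro hBb
        refine ⟨some '' B, ?_, ?_⟩
        · rw [Matroid.map_isBase_iff]
          exact ⟨B, hBb, rfl⟩
        · rw [Set.image_image]
          simp [pr]
  have hfinal := tconn_map hpr hN'
  rwa [hback] at hfinal

end Pool.Agent.EX18
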