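import Pool.Agent.EX18.Sum
import Pool.Agent.H94.ClassThm

/-!
Triples of bases after adding a parallel element, and of a direct sum.
-/

set_option autoImplicit false

namespace Pool.Agent.EX18

open Finset Pool.Agent.DT3 Pool.Agent.CF98 Pool.Agent.WD Pool.Agent.H94 Pool.Agent.EX91
open scoped Matroid

section

variable {α : Type*} [DecidableEq α]

/-- In the slots of `U` the element `f` is replaced by `e`. -/
def Lft (e f : α) (P : Fin 3 → Finset α) (U : Finset (Fin 3)) : Fin 3 → Finset α :=
  fun k => if k ∈ U then insert e ((P k).erase f) else P k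

theorem lft_content {e f : α} (hne : e ≠ f) {P P' : Fin 3 → Finset α} {U U' : Finset (Fin 3)}
    (he : ∀ k, e ∉ P k) (he' : ∀ k, e ∉ P' k) (hU : ∀ k ∈ U, f ∈ P k) (hU' : ∀ k ∈ U', f ∈ P' k)
    (hc : U.card = U'.card) (h : SameContent P P') : SameContent (Lft e f P U) (Lft e f P' U') := by
  have ce : ∀ (P : Fin 3 → Finset α) (U : Finset (Fin 3)), (∀ k, e ∉ P k) →
      univ.filter (fun k => e ∈ Lft e f P U k) = U := by
    intro P U he
    ext k
    rw [mem_filter]
    unfold Lft
    constructor
    · rintro ⟨-, h⟩
      by_contra hk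
      rw [if_neg hk] at h
      exact he k h
    · intro hk
      rw [if_pos hk]
      exact ⟨mem_univ _, mem_insert_self _ _⟩
  have cf : ∀ (P : Fin 3 → Finset α) (U : Finset (Fin 3)), (∀ k ∈ U, f ∈ P k) →
      (univ.filter (fun k => f ∈ Lft e f P U k)).card + U.card =
        (univ.filter (fun k => f ∈ P k)).card := by
    intro P U hU
    have h1 : univ.filter (fun k => f ∈ Lft e f P U k) = (univ.filter (fun k => f ∈ P k)) \ U := by
      ext k
      rw [mem_filter, mem_sdiff, mem_filter]
      unfold Lft
      by_cases hk : k ∈ U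
      · rw [if_pos hk, mem_insert, mem_erase]
        constructor
        · rintro ⟨-, h | h⟩
          · exact absurd h.symm hne
          · exact absurd rfl h.1
        · rintro ⟨-, h⟩
          exact absurd hk h
      · rw [if_neg hk]
        tauto
    rw [h1, card_sdiff_add_card_eq_card]
    intro k hk
    exact mem_filter.2 ⟨mem_univ _, hU k hk⟩
  intro z
  by_cases hze : z = e
  · subst hze
    rw [ce P U he, ce P' U' he']
    exact hc
  by_cases hzf : z = f
  · subst hzf
    have h1 := cf P U hU
    have h2 := cf P' U' hU'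
    have h3 : (univ.filter (fun k => z ∈ P k)).card = (univ.filter (fun k => z ∈ P' k)).card := h z
    omega
  · have hz : ∀ (P : Fin 3 → Finset α) (U : Finset (Fin 3)),
        univ.filter (fun k => z ∈ Lft e f P U k) = univ.filter (fun k => z ∈ P k) := by
      intro P U
      refine filter_congr fun k _ => ?_
      unfold Lft
      by_cases hk : k ∈ U
      · rw [if_pos hk, mem_insert, mem_erase]
        tauto
      · rw [if_neg hk]
    rw [hz, hz]
    exact h z

theorem par_lift {b b' : Finset α → Prop} {e f : α} (hne : e ≠ f)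
    (h1 : ∀ S, b' S ↔ b S ∧ e ∉ S)
    (h2 : ∀ S, b S → e ∈ S → f ∉ S ∧ b (insert f (S.erase e)))
    (h3 : ∀ S, b S → f ∈ S → b (insert e (S.erase f)))
    (hT : ∀ B D : Fin 3 → Finset α, (∀ k, b' (B k)) → (∀ k, b' (D k)) → SameContent B D →
      Relation.ReflTransGen (ShareStep b') B D)
    (B D : Fin 3 → Finset α) (hB : ∀ k, b (B k)) (hD : ∀ k, b (D k)) (hBD : SameContent B D) :
    Relation.ReflTransGen (ShareStep b) B D := by
  -- lifts consist of bases
  have lb : ∀ (P : Fin 3 → Finset α) (U : Finset (Fin 3)), (∀ k, b' (P k)) → (∀ k ∈ U, f ∈ P k) →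
      ∀ k, b (Lft e f P U k) := by
    intro P U hP hU k
    unfold Lft
    by_cases hk : k ∈ U
    · rw [if_pos hk]
      exact h3 _ ((h1 _).1 (hP k)).1 (hU k hk)
    · rw [if_neg hk]
      exact ((h1 _).1 (hP k)).1
  -- the projection
  let R : (Fin 3 → Finset α) → Fin 3 → Finset α :=
    fun B k => if e ∈ B k then insert f ((B k).erase e) else B k
  let W : (Fin 3 → Finset α) → Finset (Fin 3) := fun B => univ.filter (fun k => e ∈ B k)
  have Rb : ∀ B : Fin 3 → Finset α, (∀ k, b (B k)) → ∀ k, b' (R B k) := by
    intro B hB k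
    rw [h1]
    show b (if e ∈ B k then insert f ((B k).erase e) else B k) ∧
      e ∉ (if e ∈ B k then insert f ((B k).erase e) else B k)
    by_cases hk : e ∈ B k
    · rw [if_pos hk]
      refine ⟨(h2 _ (hB k) hk).2, ?_⟩
      rw [mem_insert, mem_erase]
      rintro (h | h)
      · exact hne h
      · exact h.1 rfl
    · rw [if_neg hk]
      exact ⟨hB k, hk⟩
  have RW : ∀ B : Fin 3 → Finset α, (∀ k, b (B k)) → ∀ k ∈ W B, f ∈ R B k := by
    intro B _ k hk
    have hk' : e ∈ B k := (mem_filter.1 hk).2
    show f ∈ (if e ∈ B k then insert f ((B k).erase e) else B k)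
    rw [if_pos hk']
    exact mem_insert_self _ _
  have RL : ∀ B : Fin 3 → Finset α, (∀ k, b (B k)) → Lft e f (R B) (W B) = B := by
    intro B hB
    funext k
    unfold Lft
    by_cases hk : e ∈ B k
    · have hkW : k ∈ W B := mem_filter.2 ⟨mem_univ _, hk⟩
      rw [if_pos hkW]
      show insert e ((if e ∈ B k then insert f ((B k).erase e) else B k).erase f) = B k
      rw [if_pos hk]
      have hf := (h2 _ (hB k) hk).1
      rw [erase_insert, insert_erase hk]
      intro h
      exact hf (mem_of_mem_erase h)
    · have hkW : k ∉ W B := fun h => hk (mem_filter.1 h).2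
      rw [if_neg hkW]
      show (if e ∈ B k then insert f ((B k).erase e) else B k) = B k
      rw [if_neg hk]
  have ne : ∀ (P : Fin 3 → Finset α), (∀ k, b' (P k)) → ∀ k, e ∉ P k :=
    fun P hP k => ((h1 _).1 (hP k)).2
  -- content of the projection
  have RC : SameContent (R B) (R D) := by
    have key : ∀ B : Fin 3 → Finset α, (∀ k, b (B k)) → ∀ z,
        (univ.filter (fun k => z ∈ R B k)).card =
          if z = e then 0 else if z = f then (univ.filter (fun k => e ∈ B k)).card +
            (univ.filter (fun k => f ∈ B k)).card else (univ.filter (fun k => z ∈ B k)).card := by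
      intro B hB z
      by_cases hze : z = e
      · rw [if_pos hze, card_eq_zero, filter_eq_empty_iff]
        intro k _
        rw [hze]
        exact ne _ (Rb B hB) k
      · rw [if_neg hze]
        by_cases hzf : z = f
        · rw [if_pos hzf, ← card_union_of_disjoint]
          · congr 1
            ext k
            rw [mem_filter, mem_union, mem_filter, mem_filter]
            show k ∈ univ ∧ z ∈ (if e ∈ B k then insert f ((B k).erase e) else B k) ↔ _
            by_cases hk : e ∈ B k
            · rw [if_pos hk, hzf]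
              simp [hk]
            · rw [if_neg hk, hzf]
              simp [hk]
          · rw [disjoint_left]
            intro k hk hk'
            exact (h2 _ (hB k) (mem_filter.1 hk).2).1 (mem_filter.1 hk').2
        · rw [if_neg hzf]
          congr 1
          refine filter_congr fun k _ => ?_
          show z ∈ (if e ∈ B k then insert f ((B k).erase e) else B k) ↔ _
          by_cases hk : e ∈ B k
          · rw [if_pos hk, mem_insert, mem_erase]
            tauto
          · rw [if_neg hk]
    intro z
    have g1 : ∀ z, (univ.filter (fun k => z ∈ B k)).card = (univ.filter (fun k => z ∈ D k)).card :=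
      hBD
    rw [key B hB z, key D hD z, g1 e, g1 f, g1 z]
  -- combinatorics of subsets of the three slots
  have comb : ∀ U U' : Finset (Fin 3), U.card = U'.card → ∃ k, k ∈ U ↔ k ∈ U' := by decide
  have same : ∀ (P : Fin 3 → Finset α) (U U' : Finset (Fin 3)), (∀ k, b' (P k)) →
      (∀ k ∈ U, f ∈ P k) → (∀ k ∈ U', f ∈ P k) → U.card = U'.card →
      ShareStep b (Lft e f P U) (Lft e f P U') := by
    intro P U U' hP hU hU' hc
    refine ⟨lb P U hP hU, lb P U' hP hU', lft_content hne (ne P hP) (ne P hP) hU hU' hc
      (fun _ => rfl), ?_⟩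
    obtain ⟨k, hk⟩ := comb U U' hc
    refine ⟨k, k, ?_⟩
    unfold Lft
    by_cases h : k ∈ U
    · rw [if_pos h, if_pos (hk.1 h)]
    · rw [if_neg h, if_neg (fun h' => h (hk.2 h'))]
  have step : ∀ (P P' : Fin 3 → Finset α) (U : Finset (Fin 3)), ShareStep b' P P' →
      (∀ k ∈ U, f ∈ P k) → ∃ U' : Finset (Fin 3), (∀ k ∈ U', f ∈ P' k) ∧ U'.card = U.card ∧
      ShareStep b (Lft e f P U) (Lft e f P' U') := by
    rintro P P' U ⟨hP, hP', hc, i, j, hij⟩ hU
    have hm : (univ.filter (fun k => f ∈ P k)).card = (univ.filter (fun k => f ∈ P' k)).card := hc f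
    obtain ⟨U', hU', hUc, hiff⟩ : ∃ U' : Finset (Fin 3), (∀ k ∈ U', f ∈ P' k) ∧
        U'.card = U.card ∧ (i ∈ U ↔ j ∈ U') := by
      by_cases hi : i ∈ U
      · have hfj : j ∈ univ.filter (fun k => f ∈ P' k) :=
          mem_filter.2 ⟨mem_univ _, hij ▸ hU i hi⟩
        have hsub : U ⊆ univ.filter (fun k => f ∈ P k) :=
          fun k hk => mem_filter.2 ⟨mem_univ _, hU k hk⟩
        have hle : U.card - 1 ≤ ((univ.filter (fun k => f ∈ P' k)).erase j).card := by
          rw [card_erase_of_mem hfj, ← hm]
          have := card_le_card hsub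
          omega
        obtain ⟨V, hV, hVc⟩ := exists_subset_card_eq hle
        have hjV : j ∉ V := fun h => (mem_erase.1 (hV h)).1 rfl
        refine ⟨insert j V, ?_, ?_, ?_⟩
        · intro k hk
          rw [mem_insert] at hk
          rcases hk with rfl | hk
          · exact (mem_filter.1 hfj).2
          · exact (mem_filter.1 (mem_of_mem_erase (hV hk))).2
        · rw [card_insert_of_notMem hjV, hVc]
          have := card_pos.2 ⟨i, hi⟩
          omega
        · exact ⟨fun _ => mem_insert_self _ _, fun _ => hi⟩
      · have hle : U.card ≤ ((univ.filter (fun k => f ∈ P' k)).erase j).card := by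
          have hsub : U ⊆ (univ.filter (fun k => f ∈ P k)).erase i :=
            fun k hk => mem_erase.2 ⟨fun h => hi (h ▸ hk), mem_filter.2 ⟨mem_univ _, hU k hk⟩⟩
          have h4 := card_le_card hsub
          by_cases hfi : f ∈ P i
          · have hi' : i ∈ univ.filter (fun k => f ∈ P k) := mem_filter.2 ⟨mem_univ _, hfi⟩
            have hj' : j ∈ univ.filter (fun k => f ∈ P' k) := mem_filter.2 ⟨mem_univ _, hij ▸ hfi⟩
            rw [card_erase_of_mem hi'] at h4
            rw [card_erase_of_mem hj', ← hm]
            exact h4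
          · have hi' : i ∉ univ.filter (fun k => f ∈ P k) := fun h => hfi (mem_filter.1 h).2
            have hj' : j ∉ univ.filter (fun k => f ∈ P' k) := fun h =>
              hfi (by rw [hij]; exact (mem_filter.1 h).2)
            rw [erase_eq_of_notMem hi'] at h4
            rw [erase_eq_of_notMem hj', ← hm]
            exact h4
        obtain ⟨V, hV, hVc⟩ := exists_subset_card_eq hle
        have hjV : j ∉ V := fun h => (mem_erase.1 (hV h)).1 rfl
        refine ⟨V, ?_, hVc, ?_⟩
        · intro k hk
          exact (mem_filter.1 (mem_of_mem_erase (hV hk))).2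
        · exact ⟨fun h => absurd h hi, fun h => absurd h hjV⟩
    refine ⟨U', hU', hUc, lb P U hP hU, lb P' U' hP' hU',
      lft_content hne (ne P hP) (ne P' hP') hU hU' hUc.symm hc, i, j, ?_⟩
    unfold Lft
    by_cases h : i ∈ U
    · rw [if_pos h, if_pos (hiff.1 h), hij]
    · rw [if_neg h, if_neg (fun h' => h (hiff.2 h')), hij]
  have path := hT (R B) (R D) (Rb B hB) (Rb D hD) RC
  have main : ∀ P, Relation.ReflTransGen (ShareStep b') (R B) P →
      (∀ k, b' (P k)) ∧ ∃ U : Finset (Fin 3), (∀ k ∈ U, f ∈ P k) ∧ U.card = (W B).card ∧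
        Relation.ReflTransGen (ShareStep b) B (Lft e f P U) := by
    intro P hP
    induction hP with
    | refl => exact ⟨Rb B hB, W B, RW B hB, rfl, by rw [RL B hB]⟩
    | tail _ hst ih =>
      obtain ⟨-, U, hU, hUc, hp⟩ := ih
      obtain ⟨U', hU', hUc', hs⟩ := step _ _ U hst hU
      exact ⟨hst.2.1, U', hU', hUc'.trans hUc, hp.tail hs⟩
  obtain ⟨hbD, U, hU, hUc, hp⟩ := main _ path
  have hW : (W B).card = (W D).card := hBD e
  have last := same (R D) U (W D) hbD hU (RW D hD) (hUc.trans hW)
  rw [RL D hD] at last
  exact hp.tail last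

end

section

variable {α : Type*} [DecidableEq α] {M : Matroid α}

theorem tconn_parallel {e f : α} (hne : e ≠ f) (he : M.IsNonloop e)
    (hcl : M.closure {e} = M.closure {f}) (h : TConn (M ＼ {e})) : TConn M := by
  have hf : M.IsNonloop f := by
    by_contra hcon
    rw [Matroid.not_isNonloop_iff_closure] at hcon
    rw [← hcl, ← Matroid.not_isNonloop_iff_closure] at hcon
    exact hcon he
  have hco : M.Coindep {e} := by
    rw [Matroid.coindep_iff_compl_spanning (Set.singleton_subset_iff.mpr he.mem_ground)]
    rw [Matroid.spanning_iff_ground_subset_closure Set.sdiff_subset]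
    have hsub : M.E \ {e} ⊆ M.closure (M.E \ {e}) := M.subset_closure _ Set.sdiff_subset
    intro x hx
    by_cases hxe : x = e
    · have h1 : x ∈ M.closure {f} := by
        rw [← hcl, hxe]; exact M.mem_closure_self e he.mem_ground
      refine M.closure_subset_closure ?_ h1
      rw [Set.singleton_subset_iff]
      exact ⟨hf.mem_ground, fun h => hne (Set.mem_singleton_iff.mp h).symm⟩
    · exact hsub ⟨hx, hxe⟩
  -- exchanging parallel elements
  have ex : ∀ {u v : α}, u ≠ v → M.IsNonloop u → M.IsNonloop v → M.closure {u} = M.closure {v} →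
      ∀ S : Finset α, M.IsBase (S : Set α) → u ∈ S →
      v ∉ S ∧ M.IsBase ((insert v (S.erase u) : Finset α) : Set α) := by
    intro u v huv hu hv huv' S hS huS
    have hvS : v ∉ S := by
      intro hvS
      have h1 : u ∈ M.closure {v} := by
        rw [← huv']
        exact M.mem_closure_self u hu.mem_ground
      have h2 : u ∈ M.closure ((S : Set α) \ {u}) := by
        refine M.closure_subset_closure ?_ h1
        rw [Set.singleton_subset_iff]
        exact ⟨hvS, fun h => huv (Set.mem_singleton_iff.1 h).symm⟩
      exact hS.indep.notMem_closure_sdiff_of_mem (mem_coe.2 huS) h2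
    refine ⟨hvS, ?_⟩
    have h3 : ((insert v (S.erase u) : Finset α) : Set α) = insert v ((S : Set α) \ {u}) := by
      rw [coe_insert, coe_erase]
    rw [h3]
    refine hS.exchange_isBase_of_indep (fun h => hvS (mem_coe.1 h)) ?_
    have h4 : M.Indep ((S : Set α) \ {u}) := hS.indep.subset Set.sdiff_subset
    rw [h4.insert_indep_iff_of_notMem (fun h => hvS (mem_coe.1 h.1))]
    refine ⟨hv.mem_ground, fun h5 => ?_⟩
    have h6 : u ∈ M.closure ((S : Set α) \ {u}) := by
      have h7 : u ∈ M.closure {v} := by
        rw [← huv']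
        exact M.mem_closure_self u hu.mem_ground
      have h8 : M.closure {v} ⊆ M.closure ((S : Set α) \ {u}) :=
        M.closure_subset_closure_of_subset_closure (Set.singleton_subset_iff.2 h5)
      exact h8 h7
    exact hS.indep.notMem_closure_sdiff_of_mem (mem_coe.2 huS) h6
  intro B D hB hD hBD
  refine par_lift (b := fun S : Finset α => M.IsBase (S : Set α))
    (b' := fun S : Finset α => (M ＼ {e}).IsBase (S : Set α)) hne ?_ ?_ ?_ h B D hB hD hBD
  · intro S
    rw [hco.delete_isBase_iff, Set.disjoint_singleton_right, mem_coe]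
  · intro S hS heS
    exact ex hne he hf hcl S hS heS
  · intro S hS hfS
    exact (ex hne.symm hf he hcl.symm S hS hfS).2

theorem tconn_disjointSum {N : Matroid α} (hd : Disjoint M.E N.E) (h1 : TConn M) (h2 : TConn N) :
    TConn (M.disjointSum N hd) := by
  classical
  intro B D hB hD hBD
  let p : α → Prop := fun z => z ∈ M.E
  have i1 : ∀ T : Finset α, ((T.filter p : Finset α) : Set α) = (T : Set α) ∩ M.E := by
    intro T
    ext z
    simp [p]
  have hsub : ∀ T : Finset α, (M.disjointSum N hd).IsBase (T : Set α) →
      ((T.filter (fun z => ¬ p z) : Finset α) : Set α) = (T : Set α) ∩ N.E := by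
    intro T hT
    rw [Matroid.disjointSum_isBase_iff] at hT
    ext z
    simp only [coe_filter, Set.mem_ofPred_eq, Set.mem_inter_iff, mem_coe]
    constructor
    · rintro ⟨hz, hz'⟩
      exact ⟨hz, (hT.2.2 (mem_coe.2 hz)).resolve_left hz'⟩
    · rintro ⟨hz, hz'⟩
      exact ⟨hz, fun h => Set.disjoint_left.1 hd h hz'⟩
  have hM : ∀ T : Finset α, (M.disjointSum N hd).IsBase (T : Set α) →
      M.IsBase ((T.filter p : Finset α) : Set α) := by
    intro T hT
    rw [i1]
    exact (Matroid.disjointSum_isBase_iff.1 hT).1
  have hN : ∀ T : Finset α, (M.disjointSum N hd).IsBase (T : Set α) →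
      N.IsBase ((T.filter (fun z => ¬ p z) : Finset α) : Set α) := by
    intro T hT
    rw [hsub T hT]
    exact (Matroid.disjointSum_isBase_iff.1 hT).2.1
  have c1 : SameContent (fun k => (B k).filter p) (fun k => (D k).filter p) := by
    intro z
    by_cases hz : p z
    · simp only [mem_filter, hz, and_true]
      exact hBD z
    · simp only [mem_filter, hz, and_false, filter_false]
  have c2 : SameContent (fun k => (B k).filter (fun z => ¬ p z))
      (fun k => (D k).filter (fun z => ¬ p z)) := by
    intro z
    by_cases hz : p z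
    · simp only [mem_filter, hz, not_true, and_false, filter_false]
    · simp only [mem_filter, hz, not_false_iff, and_true]
      exact hBD z
  have r1 := h1 (fun k => (B k).filter p) (fun k => (D k).filter p) (fun k => hM _ (hB k))
    (fun k => hM _ (hD k)) c1
  have r2 := h2 (fun k => (B k).filter (fun z => ¬ p z)) (fun k => (D k).filter (fun z => ¬ p z))
    (fun k => hN _ (hB k)) (fun k => hN _ (hD k)) c2
  have key := path_both (b := fun T : Finset α => (M.disjointSum N hd).IsBase (T : Set α))
    (b1 := fun T : Finset α => M.IsBase (T : Set α)) (b2 := fun T : Finset α => N.IsBase (T : Set α))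
    (S := M.E)
    (fun X Y hX hY => by
      rw [Matroid.disjointSum_isBase_iff, coe_union]
      have hXM : (X : Set α) ⊆ M.E := hX.subset_ground
      have hYN : (Y : Set α) ⊆ N.E := hY.subset_ground
      have e1 : ((X : Set α) ∪ Y) ∩ M.E = X := by
        rw [Set.union_inter_distrib_right, Set.inter_eq_left.2 hXM,
          Set.disjoint_iff_inter_eq_empty.1 (hd.symm.mono_left hYN), Set.union_empty]
      have e2 : ((X : Set α) ∪ Y) ∩ N.E = Y := by
        rw [Set.union_inter_distrib_right, Set.inter_eq_left.2 hYN,
          Set.disjoint_iff_inter_eq_empty.1 (hd.mono_left hXM), Set.empty_union]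
      rw [e1, e2]
      exact ⟨hX, hY, Set.union_subset_union hXM hYN⟩)
    (fun X hX z hz => hX.subset_ground (mem_coe.2 hz))
    (fun Y hY z hz hzM => Set.disjoint_left.1 hd hzM (hY.subset_ground (mem_coe.2 hz))) r1 r2
    (fun k => hM _ (hD k)) (fun k => hN _ (hB k))
  have e1 : (fun k => (B k).filter p ∪ (B k).filter (fun z => ¬ p z)) = B :=
    funext fun k => filter_union_filter_not_eq p (B k)
  have e2 : (fun k => (D k).filter p ∪ (D k).filter (fun z => ¬ p z)) = D :=
    funext fun k => filter_union_filter_not_eq p (D k)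
  rw [e1, e2] at key
  exact key

end

end Pool.Agent.EX18
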