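import Pool.Agent.EX18.InQDefs
import Pool.Agent.EX18.Conv
import Pool.Agent.EX18.RelaxA
import Pool.Agent.EX18.QSplit
import Pool.Agent.EX18.SixM
import Pool.Agent.TwoSum25.Main
import Pool.Agent.Un25.TConn
import Pool.Agent.Un25.Ind
import Pool.Agent.FT56.PMain
import Pool.Agent.EX18.Tr
import Pool.Agent.R6.Conn
import Pool.Agent.EX54.P2
import Pool.Agent.SP65.Six5

/-!
The closure theorem for the class `Q`.
-/

set_option autoImplicit false

namespace Pool.Agent.EX18

open Pool.Agent.DT3 Pool.Agent.WD Pool.Agent.H94 Pool.Agent.EX91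
open scoped Matroid

universe u v

theorem inQ_iff {α : Type u} [DecidableEq α] {M : Matroid α} : InQ M ↔ M.Finite ∧ TConn M := by
  constructor
  · rintro ⟨h1, h2⟩
    exact ⟨h1, mem_iff'.1 h2⟩
  · rintro ⟨h1, h2⟩
    exact ⟨h1, mem_iff'.2 h2⟩

theorem inQ_field {α : Type u} (M : Matroid α) [M.Finite] [M.RankPos] (K : Type v) [Field K] :
    toricIdeal K M = Ideal.span {f | f ∈ toricIdeal K M ∧ f.IsHomogeneous 2} ↔ InQ M := by
  classical
  rw [inQ_iff]
  constructor
  · intro h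
    exact ⟨inferInstance, tconn_of_quads K M h.le⟩
  · intro h
    exact quads_of_tconn K M h.2

theorem inQ_map {α β : Type u} (M : Matroid α) (f : α → β) (hf : M.E.InjOn f) (h : InQ M) :
    InQ (M.map f hf) := by
  classical
  rw [inQ_iff] at h ⊢
  exact ⟨⟨by rw [Matroid.map_ground]; exact h.1.ground_finite.image f⟩, tconn_map hf h.2⟩

theorem inQ_dual {α : Type u} (M : Matroid α) (h : InQ M) : InQ M✶ := by
  classical
  rw [inQ_iff] at h ⊢
  have := h.1
  refine ⟨inferInstance, TConn.dual ?_⟩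
  rw [Matroid.dual_dual]
  exact h.2

theorem inQ_minor {α : Type u} (N M : Matroid α) (hm : N ≤m M) (h : InQ M) : InQ N := by
  classical
  rw [inQ_iff] at h ⊢
  have := h.1
  exact ⟨⟨h.1.ground_finite.subset hm.subset⟩, tconn_minor hm h.2⟩

theorem inQ_sum {α : Type u} (M N : Matroid α) (hd : Disjoint M.E N.E) (h1 : InQ M)
    (h2 : InQ N) : InQ (M.disjointSum N hd) := by
  classical
  rw [inQ_iff] at h1 h2 ⊢
  refine ⟨⟨by
    rw [Matroid.disjointSum_ground_eq]
    exact h1.1.ground_finite.union h2.1.ground_finite⟩, ?_⟩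
  exact tconn_disjointSum hd h1.2 h2.2

theorem inQ_twoSum {α : Type u} (M M₁ M₂ : Matroid α) (p : α) (hp : IsTwoSum M M₁ M₂ p)
    (h1 : InQ M₁) (h2 : InQ M₂) : InQ M := by
  classical
  rw [inQ_iff] at h1 h2 ⊢
  have := h1.1
  have := h2.1
  refine ⟨⟨by
    rw [hp.2.2.2.1]
    exact (h1.1.ground_finite.union h2.1.ground_finite).subset Set.sdiff_subset⟩, ?_⟩
  exact TwoSum25.tconn_twoSum (M := M) (M₁ := M₁) (M₂ := M₂) (p := p) hp h1.2 h2.2

theorem inQ_princExt {α : Type u} (M' M : Matroid α) (G : Set α) (e : α)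
    (he : IsPrincExt M' M G e) (h : InQ M) : InQ M' := by
  classical
  rw [inQ_iff] at h ⊢
  have := h.1
  exact ⟨⟨by rw [he.2.2.1]; exact h.1.ground_finite.insert e⟩, FT56.tconn_princExt M' M G e he h.2⟩

theorem inQ_princTrunc {α : Type u} (M' M : Matroid α) (G : Set α) (ht : IsPrincTrunc M' M G) (h : InQ M) :
    InQ M' := by
  classical
  rw [inQ_iff] at h ⊢
  have := h.1
  exact ⟨⟨by rw [ht.2.1]; exact h.1.ground_finite⟩, tconn_princTrunc ht h.2⟩

theorem inQ_union {α : Type u} (M M₁ M₂ : Matroid α) (hu : IsUnion M M₁ M₂)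
    (h1 : InQ M₁) (h2 : InQ M₂) : InQ M := by
  classical
  rw [inQ_iff] at h1 h2 ⊢
  have := h1.1
  have := h2.1
  exact ⟨⟨by rw [hu.1]; exact h1.1.ground_finite.union h2.1.ground_finite⟩,
    Un25.tconn_union FT56.tconn_princExt hu h1.2 h2.2⟩

theorem inQ_induced {α β : Type u} (M : Matroid α) (N : Matroid β) (R : α → β → Prop) (hf : M.Finite)
    (hi : Un25.IsInduced M N R) (h : InQ N) : InQ M := by
  classical
  rw [inQ_iff] at h ⊢
  have := h.1
  exact ⟨hf, Un25.tconn_induced hi h.2⟩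

/-- It is enough to look at the connected components. -/
theorem inQ_comp {α : Type u} (M : Matroid α) (hf : M.Finite) (h : ∀ C, IsComp M C → InQ (M ↾ C)) : InQ M := by
  classical
  rw [inQ_iff]
  refine ⟨hf, tconn_comp (fun N hN => ?_) M.E.ncard M le_rfl (fun K hK => ?_)⟩
  · refine tconn_of_not_rankPos fun hR => ?_
    obtain ⟨B, hB⟩ := N.exists_isBase
    have h1 : B ⊆ ∅ := by
      rw [← hN]
      exact hB.subset_ground
    exact hR.empty_not_isBase (by rwa [← Set.subset_empty_iff.1 h1])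
  · exact (inQ_iff.1 (h K hK)).2

theorem inQ_split {α : Type u} (M M₁ M₂ : Matroid α) (G : Set α) (a : ℕ) (hf : M.Finite)
    (hs : IsSplit M M₁ M₂ G a) (h1 : InQ M₁) (h2 : InQ M₂) : InQ M := by
  classical
  rw [inQ_iff] at h1 h2 ⊢
  exact ⟨hf, tconn_isSplit hs h1.2 h2.2⟩

/-- `TConn` for matroids without a minor `U_{1,2} ⊕ U_{1,2} ⊕ U_{2,2}`. -/
theorem tconn_noSix' {α : Type*} [DecidableEq α] {M : Matroid α} (h : ¬ HasSixMinor M) : TConn M :=
  tconn_six (fun _ _ _ _ _ _ _ _ hE h => EX54.nap_corank hE.rk h) h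

theorem inQ_relax {α : Type u} (M' M : Matroid α) (hr : IsRelaxation M' M) (h : InQ M) :
    InQ M' := by
  classical
  rw [inQ_iff] at h ⊢
  obtain ⟨Q, hQ, hE', hB'⟩ := hr
  have hfin := h.1
  have hfin' : M'.Finite := ⟨by rw [hE']; exact M.ground_finite⟩
  exact ⟨hfin', tconn_isSplit (relax_split hQ hE' hB') h.2
    (tconn_noSix' fun h6 => oneOut_pairs _ _ h6.pairs)⟩

theorem inQ_noSix {α : Type u} (M : Matroid α) (hf : M.Finite) (h : ¬ HasSixMinor M) :
    InQ M := by
  classical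
  rw [inQ_iff]
  exact ⟨hf, tconn_noSix' h⟩

theorem inQ_rank6 {α : Type u} (M : Matroid α) (hf : M.Finite) (h : M.eRank ≤ 6) : InQ M := by
  classical
  rw [inQ_iff]
  exact ⟨hf, R6.tconn_rank6 h⟩

/-- All matroids all of whose circuits have at least `rank - 2` elements. -/
theorem inQ_circ {α : Type u} (M : Matroid α) (hf : M.Finite)
    (h : ∀ C : Set α, M.IsCircuit C → M.eRank ≤ C.encard + 2) : InQ M := by
  classical
  rw [inQ_iff]
  exact ⟨hf, EX54.tconn_circ h⟩

/-- All matroids on at most thirteen elements. -/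
theorem inQ_card {α : Type u} (M : Matroid α) (h : M.E.encard ≤ 13) :
    InQ M := by
  have hf : M.Finite := ⟨Set.finite_of_encard_le_coe (k := 13) (by exact_mod_cast h)⟩
  have h1 := M.eRank_add_eRank_dual
  rcases le_or_gt M.eRank 6 with h2 | h2
  · exact inQ_rank6 M hf h2
  · have h3 : M✶.eRank ≤ 6 := by
      by_contra h4
      rw [not_le] at h4
      have h5 : (7 : ℕ∞) ≤ M.eRank := Order.add_one_le_of_lt h2
      have h6 : (7 : ℕ∞) ≤ M✶.eRank := Order.add_one_le_of_lt h4
      have h7 : (14 : ℕ∞) ≤ 13 := by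
        calc (14 : ℕ∞) = 7 + 7 := by norm_num
          _ ≤ M.eRank + M✶.eRank := add_le_add h5 h6
          _ = M.E.encard := h1
          _ ≤ 13 := h
      exact absurd h7 (by norm_num)
    have h4 := inQ_dual M✶ (inQ_rank6 M✶ ⟨M.ground_finite⟩ h3)
    rwa [Matroid.dual_dual] at h4

end Pool.Agent.EX18
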