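import Pool.Agent.H94.ToricDefs

/-!
The class `Q` of the closure theorem.
-/

set_option autoImplicit false

namespace Pool.Agent.EX18

open Pool.Agent.H94

universe u

/-- The class `Q`: finite matroids whose toric ideal over every field is generated by its elements of degree two.
(By convention every finite matroid of rank zero is in the class.) -/
def InQ {α : Type u} (M : Matroid α) : Prop :=
  M.Finite ∧ (M.RankPos → ∀ (K : Type) [Field K],
    toricIdeal K M = Ideal.span {f | f ∈ toricIdeal K M ∧ f.IsHomogeneous 2})

end Pool.Agent.EX18
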