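import Pool.Agent.EX18.Mat

/-!
Paving matroids have no minor isomorphic to `U_{1,2} ⊕ U_{1,2} ⊕ U_{1,1}`.
-/

set_option autoImplicit false

namespace Pool.Agent.EX18

open scoped Matroid

/-- A matroid of finite rank all of whose circuits have at least `rank` elements has no minor
`U_{1,2} ⊕ U_{1,2} ⊕ U_{1,1}`. -/
theorem paving {α : Type*} (M : Matroid α) [M.RankFinite]
    (h : ∀ C : Set α, M.IsCircuit C → M.eRank ≤ C.encard) : ¬ HasPairsMinor M := by
  rintro ⟨N, a, a', b, b', z, ⟨C, D, rfl⟩, hnd, hE, hB⟩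
  simp only [List.nodup_cons, List.mem_cons, List.not_mem_nil, not_or, or_false,
    not_false_eq_true, List.nodup_nil, and_true] at hnd
  obtain ⟨⟨haa, hab, hab', haz⟩, ⟨ha'b, ha'b', ha'z⟩, ⟨hbb, hbz⟩, hb'z⟩ := hnd
  obtain ⟨I, hI⟩ := M.exists_isBasis' C
  have hIf : I.Finite := hI.indep.finite
  -- the triple `a, b, z`
  have t1 : (M ／ C ＼ D).Indep {a, b, z} :=
    ((hB {a, b, z}).2 ⟨a, b, Or.inl rfl, Or.inl rfl, rfl⟩).indep
  rw [Matroid.delete_indep_iff, hI.contract_indep_iff] at t1
  have t2 : ({a, b, z} ∪ I : Set α).encard = 3 + I.encard := by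
    rw [Set.encard_union_eq]
    · rw [Set.encard_insert_of_notMem, Set.encard_pair hbz]
      · norm_num
      · simp only [Set.mem_insert_iff, Set.mem_singleton_iff, not_or]
        exact ⟨hab, haz⟩
    · exact (t1.1.2.mono_left hI.subset).symm
  have t3 : 3 + I.encard ≤ M.eRank := by
    rw [← t2]
    exact t1.1.1.encard_le_eRank
  -- the pair `a, a'`
  have haE : a ∈ (M ／ C ＼ D).E := by rw [hE]; simp
  have ha'E : a' ∈ (M ／ C ＼ D).E := by rw [hE]; simp
  rw [Matroid.delete_ground, Matroid.contract_ground] at haE ha'E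
  have p1 : ¬ (M ／ C ＼ D).Indep {a, a'} := by
    intro hc
    obtain ⟨B, hBB, hs⟩ := hc.exists_isBase_superset
    obtain ⟨x, y, hx, hy, rfl⟩ := (hB B).1 hBB
    have h1 : a ∈ ({x, y, z} : Set α) := hs (by simp)
    have h2 : a' ∈ ({x, y, z} : Set α) := hs (by simp)
    simp only [Set.mem_insert_iff, Set.mem_singleton_iff] at h1 h2
    rcases h1 with h1 | h1 | h1
    · rcases h2 with h2 | h2 | h2
      · exact haa (h1.trans h2.symm)
      · rcases hy with rfl | rfl
        · exact ha'b h2
        · exact ha'b' h2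
      · exact ha'z h2
    · rcases hy with rfl | rfl
      · exact hab h1
      · exact hab' h1
    · exact haz h1
  have p2 : ¬ M.Indep ({a, a'} ∪ I) := by
    intro hc
    apply p1
    rw [Matroid.delete_indep_iff, hI.contract_indep_iff]
    refine ⟨⟨hc, ?_⟩, ?_⟩
    · rw [Set.disjoint_right]
      intro t ht
      simp only [Set.mem_insert_iff, Set.mem_singleton_iff] at ht
      rcases ht with rfl | rfl
      · exact haE.1.2
      · exact ha'E.1.2
    · rw [Set.disjoint_left]
      intro t ht
      simp only [Set.mem_insert_iff, Set.mem_singleton_iff] at ht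
      rcases ht with rfl | rfl
      · exact haE.2
      · exact ha'E.2
  have p3 : M.Dep ({a, a'} ∪ I) := by
    refine (Matroid.not_indep_iff ?_).1 p2
    intro t ht
    simp only [Set.mem_union, Set.mem_insert_iff, Set.mem_singleton_iff] at ht
    rcases ht with (rfl | rfl) | ht
    · exact haE.1.1
    · exact ha'E.1.1
    · exact hI.indep.subset_ground ht
  obtain ⟨K, hK, hKc⟩ := p3.exists_isCircuit_subset
  have q1 := h K hKc
  have q2 : K.encard ≤ 2 + I.encard := by
    refine (Set.encard_le_encard hK).trans ((Set.encard_union_le _ _).trans ?_)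
    rw [Set.encard_pair haa]
  have q3 := (t3.trans q1).trans q2
  have q4 : I.encard ≠ ⊤ := by
    rw [Set.encard_ne_top_iff]
    exact hIf
  obtain ⟨n, hn⟩ := ENat.ne_top_iff_exists.1 q4
  rw [← hn] at q3
  have q5 : 3 + n ≤ 2 + n := by exact_mod_cast q3
  omega

end Pool.Agent.EX18
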