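import Pool.Agent.EX91.Fin
import Pool.Agent.EX18.Defs

/-!
Triples of bases of a direct sum.

* `tconn_sum`: if `TConn` holds for the restrictions to `S` and to its complement, then it holds for `M`.
* `tconn_comp`: if `TConn` holds for the restrictions to all components (and for matroids without elements), then it holds for `M`.
-/

set_option autoImplicit false

namespace Pool.Agent.EX18

open Finset Pool.Agent.DT3 Pool.Agent.CF98 Pool.Agent.WD Pool.Agent.H94 Pool.Agent.EX91
open scoped Matroid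

section

variable {α : Type*} [DecidableEq α]

theorem sameContent_iff {m : ℕ} (B D : Fin m → Finset α) :
    SameContent B D ↔ ∀ z, (univ.filter (fun k => z ∈ B k)).card = (univ.filter (fun k => z ∈ D k)).card :=
  Iff.rfl

/-- A permutation does not change the content. -/
theorem sameContent_perm {m : ℕ} (B : Fin m → Finset α) (σ : Equiv.Perm (Fin m)) :
    SameContent (fun k => B (σ k)) B := by
  intro z
  refine card_bij (fun k _ => σ k) ?_ ?_ ?_
  · intro k hk
    rw [mem_filter] at hk ⊢
    exact ⟨mem_univ _, hk.2⟩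
  · intro k _ l _ h
    exact σ.injective h
  · intro k hk
    rw [mem_filter] at hk
    exact ⟨σ.symm k, by
      rw [mem_filter]
      refine ⟨mem_univ _, ?_⟩
      show z ∈ B (σ (σ.symm k))
      rw [σ.apply_symm_apply]
      exact hk.2,
      σ.apply_symm_apply k⟩

/-- The content of a union of two tuples on disjoint sets. -/
theorem sameContent_union {m : ℕ} {S : Set α} {X X' Y Y' : Fin m → Finset α}
    (h1 : ∀ k, ∀ z ∈ X k, z ∈ S) (h1' : ∀ k, ∀ z ∈ X' k, z ∈ S)
    (h2 : ∀ k, ∀ z ∈ Y k, z ∉ S) (h2' : ∀ k, ∀ z ∈ Y' k, z ∉ S)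
    (hX : SameContent X X') (hY : SameContent Y Y') :
    SameContent (fun k => X k ∪ Y k) (fun k => X' k ∪ Y' k) := by
  intro z
  by_cases hz : z ∈ S
  · have e1 : (univ.filter (fun k => z ∈ X k ∪ Y k)) = univ.filter (fun k => z ∈ X k) := by
      refine filter_congr fun k _ => ?_
      rw [mem_union]
      exact or_iff_left fun h => h2 k z h hz
    have e2 : (univ.filter (fun k => z ∈ X' k ∪ Y' k)) = univ.filter (fun k => z ∈ X' k) := by
      refine filter_congr fun k _ => ?_
      rw [mem_union]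
      exact or_iff_left fun h => h2' k z h hz
    rw [e1, e2]
    exact hX z
  · have e1 : (univ.filter (fun k => z ∈ X k ∪ Y k)) = univ.filter (fun k => z ∈ Y k) := by
      refine filter_congr fun k _ => ?_
      rw [mem_union]
      exact or_iff_right fun h => hz (h1 k z h)
    have e2 : (univ.filter (fun k => z ∈ X' k ∪ Y' k)) = univ.filter (fun k => z ∈ Y' k) := by
      refine filter_congr fun k _ => ?_
      rw [mem_union]
      exact or_iff_right fun h => hz (h1' k z h)
    rw [e1, e2]
    exact hY z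

/-- A step in the first summand. -/
theorem step_left {b b1 b2 : Finset α → Prop} {S : Set α} (h : ∀ X Y, b1 X → b2 Y → b (X ∪ Y))
    (h1 : ∀ X, b1 X → ∀ z ∈ X, z ∈ S) (h2 : ∀ Y, b2 Y → ∀ z ∈ Y, z ∉ S)
    {X X' Y : Fin 3 → Finset α} (hs : ShareStep b1 X X') (hY : ∀ k, b2 (Y k)) :
    Relation.ReflTransGen (ShareStep b) (fun k => X k ∪ Y k) (fun k => X' k ∪ Y k) := by
  obtain ⟨hX, hX', hc, i, j, hij⟩ := hs
  set σ : Equiv.Perm (Fin 3) := Equiv.swap i j with hσ
  have hσi : σ i = j := Equiv.swap_apply_left i j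
  have s1 : ShareStep b (fun k => X k ∪ Y k) (fun k => X' (σ k) ∪ Y k) := by
    refine ⟨fun k => h _ _ (hX k) (hY k), fun k => h _ _ (hX' _) (hY k), ?_, i, i, ?_⟩
    · refine sameContent_union (S := S) (fun k => h1 _ (hX k)) (fun k => h1 _ (hX' _))
        (fun k => h2 _ (hY k)) (fun k => h2 _ (hY k)) ?_ (fun _ => rfl)
      intro z
      rw [hc z]
      exact (sameContent_perm X' σ z).symm
    · show X i ∪ Y i = X' (σ i) ∪ Y i
      rw [hσi, hij]
  obtain ⟨l, hl⟩ : ∃ l : Fin 3, σ l = l := by
    by_cases hij' : i = j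
    · refine ⟨i, ?_⟩
      rw [hσi, hij']
    · have hall : ∀ i j : Fin 3, ∃ l : Fin 3, l ≠ i ∧ l ≠ j := by decide
      obtain ⟨l, hl1, hl2⟩ := hall i j
      exact ⟨l, Equiv.swap_apply_of_ne_of_ne hl1 hl2⟩
  have s2 : ShareStep b (fun k => X' (σ k) ∪ Y k) (fun k => X' k ∪ Y k) := by
    refine ⟨fun k => h _ _ (hX' _) (hY k), fun k => h _ _ (hX' k) (hY k), ?_, l, l, ?_⟩
    · exact sameContent_union (S := S) (fun k => h1 _ (hX' _)) (fun k => h1 _ (hX' k))
        (fun k => h2 _ (hY k)) (fun k => h2 _ (hY k)) (sameContent_perm X' σ) (fun _ => rfl)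
    · show X' (σ l) ∪ Y l = X' l ∪ Y l
      rw [hl]
  exact (Relation.ReflTransGen.single s1).tail s2

theorem path_left {b b1 b2 : Finset α → Prop} {S : Set α} (h : ∀ X Y, b1 X → b2 Y → b (X ∪ Y))
    (h1 : ∀ X, b1 X → ∀ z ∈ X, z ∈ S) (h2 : ∀ Y, b2 Y → ∀ z ∈ Y, z ∉ S)
    {X X' Y : Fin 3 → Finset α} (hs : Relation.ReflTransGen (ShareStep b1) X X')
    (hY : ∀ k, b2 (Y k)) :
    Relation.ReflTransGen (ShareStep b) (fun k => X k ∪ Y k) (fun k => X' k ∪ Y k) := by
  induction hs with
  | refl => exact Relation.ReflTransGen.refl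
  | tail _ hst ih => exact ih.trans (step_left h h1 h2 hst hY)

theorem path_both {b b1 b2 : Finset α → Prop} {S : Set α} (h : ∀ X Y, b1 X → b2 Y → b (X ∪ Y))
    (h1 : ∀ X, b1 X → ∀ z ∈ X, z ∈ S) (h2 : ∀ Y, b2 Y → ∀ z ∈ Y, z ∉ S)
    {X X' Y Y' : Fin 3 → Finset α} (hs : Relation.ReflTransGen (ShareStep b1) X X')
    (ht : Relation.ReflTransGen (ShareStep b2) Y Y') (hX' : ∀ k, b1 (X' k)) (hY : ∀ k, b2 (Y k)) :
    Relation.ReflTransGen (ShareStep b) (fun k => X k ∪ Y k) (fun k => X' k ∪ Y' k) := by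
  refine (path_left h h1 h2 hs hY).trans ?_
  have k := path_left (b := b) (b1 := b2) (b2 := b1) (S := Sᶜ)
    (fun Y X hY hX => by rw [union_comm]; exact h X Y hX hY) (fun Y hY z hz => h2 Y hY z hz)
    (fun X hX z hz hn => hn (h1 X hX z hz)) ht hX'
  have e1 : (fun k => X' k ∪ Y k) = fun k => Y k ∪ X' k := funext fun k => union_comm _ _
  have e2 : (fun k => X' k ∪ Y' k) = fun k => Y' k ∪ X' k := funext fun k => union_comm _ _
  rw [e1, e2]
  exact k

end

section

variable {α : Type*} {M : Matroid α} {S : Set α}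

theorem IsSep.compl (h : IsSep M S) : IsSep M (M.E \ S) := by
  refine ⟨Set.sdiff_subset, fun C hC => ?_⟩
  rcases h.2 C hC with h1 | h1
  · right
    rw [Set.disjoint_left]
    exact fun x hx hx' => hx'.2 (h1 hx)
  · left
    exact fun x hx => ⟨hC.subset_ground hx, Set.disjoint_left.1 h1 hx⟩

theorem IsSep.indep_iff (h : IsSep M S) (I : Set α) :
    M.Indep I ↔ M.Indep (I ∩ S) ∧ M.Indep (I \ S) := by
  constructor
  · exact fun hI => ⟨hI.subset Set.inter_subset_left, hI.subset Set.sdiff_subset⟩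
  · rintro ⟨h1, h2⟩
    have hIE : I ⊆ M.E := by
      intro x hx
      by_cases hxS : x ∈ S
      · exact h1.subset_ground ⟨hx, hxS⟩
      · exact h2.subset_ground ⟨hx, hxS⟩
    by_contra hI
    obtain ⟨C, hC, hCc⟩ := (M.not_indep_iff hIE |>.1 hI).exists_isCircuit_subset
    rcases h.2 C hCc with h3 | h3
    · exact hCc.not_indep (h1.subset fun x hx => ⟨hC hx, h3 hx⟩)
    · exact hCc.not_indep (h2.subset fun x hx => ⟨hC hx, Set.disjoint_left.1 h3 hx⟩)

theorem IsSep.isBase_inter (h : IsSep M S) {B : Set α} (hB : M.IsBase B) :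
    (M ↾ S).IsBase (B ∩ S) := by
  rw [Matroid.isBase_restrict_iff h.1]
  refine (hB.indep.subset Set.inter_subset_left).isBasis_of_forall_insert Set.inter_subset_right ?_
  rintro e ⟨heS, heB⟩
  have heE : e ∈ M.E := h.1 heS
  have heB' : e ∉ B := fun h1 => heB ⟨h1, heS⟩
  rw [← M.not_indep_iff (Set.insert_subset heE (Set.inter_subset_left.trans hB.subset_ground))]
  intro hI
  refine (hB.insert_dep ⟨heE, heB'⟩).not_indep ?_
  rw [h.indep_iff]
  refine ⟨hI.subset ?_, hB.indep.subset ?_⟩
  · rintro x ⟨hx, hxS⟩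
    rcases hx with rfl | hx
    · exact Set.mem_insert _ _
    · exact Set.mem_insert_of_mem _ ⟨hx, hxS⟩
  · rintro x ⟨hx, hxS⟩
    rcases hx with rfl | hx
    · exact absurd heS hxS
    · exact hx

theorem IsSep.isBase_sdiff (h : IsSep M S) {B : Set α} (hB : M.IsBase B) :
    (M ↾ (M.E \ S)).IsBase (B \ S) := by
  have h1 := h.compl.isBase_inter hB
  have e : B ∩ (M.E \ S) = B \ S := by
    ext x
    constructor
    · rintro ⟨hx, -, hxS⟩
      exact ⟨hx, hxS⟩
    · rintro ⟨hx, hxS⟩
      exact ⟨hx, hB.subset_ground hx, hxS⟩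
  rwa [e] at h1

theorem IsSep.isBase_union (h : IsSep M S) {X Y : Set α} (hX : (M ↾ S).IsBase X)
    (hY : (M ↾ (M.E \ S)).IsBase Y) : M.IsBase (X ∪ Y) := by
  have hXS : X ⊆ S := hX.subset_ground
  have hYS : Y ⊆ M.E \ S := hY.subset_ground
  have hXb : M.IsBasis X S := (Matroid.isBase_restrict_iff h.1).1 hX
  have hYb : M.IsBasis Y (M.E \ S) := (Matroid.isBase_restrict_iff Set.sdiff_subset).1 hY
  have e1 : (X ∪ Y) ∩ S = X := by
    ext x
    constructor
    · rintro ⟨hx | hx, hxS⟩
      · exact hx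
      · exact absurd hxS (hYS hx).2
    · exact fun hx => ⟨Or.inl hx, hXS hx⟩
  have e2 : (X ∪ Y) \ S = Y := by
    ext x
    constructor
    · rintro ⟨hx | hx, hxS⟩
      · exact absurd (hXS hx) hxS
      · exact hx
    · exact fun hx => ⟨Or.inr hx, (hYS hx).2⟩
  have hI : M.Indep (X ∪ Y) := by
    rw [h.indep_iff, e1, e2]
    exact ⟨hXb.indep, hYb.indep⟩
  refine hI.isBase_of_forall_insert ?_
  rintro e ⟨heE, he⟩ hIe
  by_cases heS : e ∈ S
  · have h1 : M.Indep (insert e X) := hIe.subset (Set.insert_subset_insert Set.subset_union_left)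
    exact (hXb.insert_dep ⟨heS, fun hx => he (Or.inl hx)⟩).not_indep h1
  · have h1 : M.Indep (insert e Y) := hIe.subset (Set.insert_subset_insert Set.subset_union_right)
    exact (hYb.insert_dep ⟨⟨heE, heS⟩, fun hx => he (Or.inr hx)⟩).not_indep h1

theorem IsSep.restrict_isComp (h : IsSep M S) {K : Set α} (hK : IsComp (M ↾ S) K) : IsComp M K := by
  obtain ⟨⟨hKS, hKc⟩, hne, hmin⟩ := hK
  have hKS' : K ⊆ S := hKS
  have hcirc : ∀ C, (M ↾ S).IsCircuit C ↔ M.IsCircuit C ∧ C ⊆ S := fun C =>
    Matroid.restrict_isCircuit_iff h.1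
  refine ⟨⟨hKS'.trans h.1, fun C hC => ?_⟩, hne, fun T hT hTs hTne => ?_⟩
  · rcases h.2 C hC with h1 | h1
    · exact hKc C ((hcirc C).2 ⟨hC, h1⟩)
    · exact Or.inr (h1.mono_right hKS')
  · exact hmin T hT ⟨hT.trans hKS', fun C hC => hTs.2 C ((hcirc C).1 hC).1⟩ hTne

/-- The whole ground set of a matroid without proper separators is a component. -/
theorem isComp_ground (hne : M.E.Nonempty) (h : ∀ S, IsSep M S → S.Nonempty → S = M.E) :
    IsComp M M.E :=
  ⟨⟨Set.Subset.rfl, fun _ hC => Or.inl hC.subset_ground⟩, hne, fun S _ h1 h2 => h S h1 h2⟩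

theorem tconn_sum [DecidableEq α] (h : IsSep M S) (h1 : TConn (M ↾ S))
    (h2 : TConn (M ↾ (M.E \ S))) : TConn M := by
  classical
  intro B D hB hD hBD
  let p : α → Prop := fun z => z ∈ S
  have i1 : ∀ T : Finset α, ((T.filter p : Finset α) : Set α) = (T : Set α) ∩ S := by
    intro T
    ext z
    simp [p]
  have i2 : ∀ T : Finset α, ((T.filter (fun z => ¬ p z) : Finset α) : Set α) = (T : Set α) \ S := by
    intro T
    ext z
    simp [p]
  have c1 : SameContent (fun k => (B k).filter p) (fun k => (D k).filter p) := by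
    intro z
    by_cases hz : p z
    · simp only [mem_filter, hz, and_true]
      exact hBD z
    · simp only [mem_filter, hz, and_false, filter_false]
  have c2 : SameContent (fun k => (B k).filter (fun z => ¬ p z))
      (fun k => (D k).filter (fun z => ¬ p z)) := by
    intro z
    by_cases hz : p z
    · simp only [mem_filter, hz, not_true, and_false, filter_false]
    · simp only [mem_filter, hz, not_false_iff, and_true]
      exact hBD z
  have r1 := h1 (fun k => (B k).filter p) (fun k => (D k).filter p)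
    (fun k => by rw [i1]; exact h.isBase_inter (hB k)) (fun k => by rw [i1]; exact h.isBase_inter (hD k)) c1
  have r2 := h2 (fun k => (B k).filter (fun z => ¬ p z)) (fun k => (D k).filter (fun z => ¬ p z))
    (fun k => by rw [i2]; exact h.isBase_sdiff (hB k)) (fun k => by rw [i2]; exact h.isBase_sdiff (hD k)) c2
  have key := path_both (b := fun T : Finset α => M.IsBase (T : Set α))
    (b1 := fun T : Finset α => (M ↾ S).IsBase (T : Set α))
    (b2 := fun T : Finset α => (M ↾ (M.E \ S)).IsBase (T : Set α)) (S := S)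
    (fun X Y hX hY => by
      rw [coe_union]
      exact h.isBase_union hX hY)
    (fun X hX z hz => hX.subset_ground (mem_coe.2 hz))
    (fun Y hY z hz => (hY.subset_ground (mem_coe.2 hz)).2) r1 r2
    (fun k => by
      show (M ↾ S).IsBase (((D k).filter p : Finset α) : Set α)
      rw [i1]
      exact h.isBase_inter (hD k))
    (fun k => by
      show (M ↾ (M.E \ S)).IsBase (((B k).filter (fun z => ¬ p z) : Finset α) : Set α)
      rw [i2]
      exact h.isBase_sdiff (hB k))
  have e1 : (fun k => (B k).filter p ∪ (B k).filter (fun z => ¬ p z)) = B :=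
    funext fun k => filter_union_filter_not_eq p (B k)
  have e2 : (fun k => (D k).filter p ∪ (D k).filter (fun z => ¬ p z)) = D :=
    funext fun k => filter_union_filter_not_eq p (D k)
  rw [e1, e2] at key
  exact key

end

/-- Connectivity of triples of bases is inherited from the connected components. -/
theorem tconn_comp {α : Type*} [DecidableEq α] (hz : ∀ N : Matroid α, N.E = ∅ → TConn N) (n : ℕ) :
    ∀ (M : Matroid α) [M.Finite], M.E.ncard ≤ n → (∀ K, IsComp M K → TConn (M ↾ K)) → TConn M := by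
  induction n with
  | zero =>
    intro M _ hn _
    exact hz M (by rw [← Set.ncard_eq_zero M.ground_finite]; omega)
  | succ n ih =>
    intro M _ hn hc
    by_cases hE : M.E = ∅
    · exact hz M hE
    by_cases hs : ∀ S, IsSep M S → S.Nonempty → S = M.E
    · have h1 := hc M.E (isComp_ground (Set.nonempty_iff_ne_empty.2 hE) hs)
      rwa [Matroid.restrict_ground_eq_self] at h1
    · push Not at hs
      obtain ⟨S, hS, hSne, hSE⟩ := hs
      have key : ∀ T, IsSep M T → T ≠ M.E → TConn (M ↾ T) := by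
        intro T hT hTne
        have hlt := Set.ncard_lt_ncard (hT.1.ssubset_of_ne hTne) M.ground_finite
        have hfin : (M ↾ T).Finite := ⟨M.ground_finite.subset hT.1⟩
        refine ih (M ↾ T) (by rw [Matroid.restrict_ground_eq]; omega) (fun K hK => ?_)
        have h2 := hc K (hT.restrict_isComp hK)
        rwa [Matroid.restrict_restrict_eq (R₁ := T) (R₂ := K) _ hK.1.1]
      refine tconn_sum hS (key S hS hSE) (key _ hS.compl ?_)
      intro h
      obtain ⟨x, hx⟩ := hSne
      have : x ∈ M.E \ S := by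
        rw [h]
        exact hS.1 hx
      exact this.2 hx

end Pool.Agent.EX18
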