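import Pool.Agent.CF98.SplitA

/-!
The condition `Star` of the theorem EX: two coloopless sets `K1`, `K2` of non-loops modulo `F`, each of them without parallel
elements, which are skew modulo `F`, span together with `F` the whole ground set.

* `SWs`: in every strict system of three blocks with `Star` all good bases are in one class.
* `star_res`, `star_con`: the restriction to a tight set and the contraction by a tight set.
-/

set_option autoImplicit false

namespace Pool.Agent.EX18

open Finset Pool.Agent.DT3 Pool.Agent.CF98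

/-- Two skew coloopless sets without parallel elements span. -/
def Star {α : Type*} [DecidableEq α] (r : Finset α → ℕ) (E : Finset α) (f : ℕ) : Prop :=
  ∀ F ⊆ E, ∀ K1 ⊆ E, ∀ K2 ⊆ E, K1.Nonempty → K2.Nonempty →
    (∀ x ∈ K1, ∀ y ∈ K1, x ≠ y → r {x, y} = 2) → (∀ x ∈ K2, ∀ y ∈ K2, x ≠ y → r {x, y} = 2) →
    (∀ x ∈ K1 ∪ K2, r (insert x F) ≠ r F) →
    (∀ x ∈ K1, r (F ∪ K1.erase x) = r (F ∪ K1)) → (∀ x ∈ K2, r (F ∪ K2.erase x) = r (F ∪ K2)) →
    r (F ∪ K1) + r (F ∪ K2) = r (F ∪ (K1 ∪ K2)) + r F → r (F ∪ (K1 ∪ K2)) = f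

/-- In every strict system of three blocks with `Star` all good bases are in one class. -/
def SWs (α : Type*) [DecidableEq α] : Prop :=
  ∀ (E : Finset α) (r : Finset α → ℕ) (f : ℕ) (Q : Finset α → Prop) (A B : Finset α),
    Env r E f → Strict r E → Star r E f → (∀ A A', Stp r E f A A' → Q A → Q A') →
    Gd r E f A → Gd r E f B → Q A → Q B

variable {α : Type*} [DecidableEq α] {r : Finset α → ℕ} {E X : Finset α} {f : ℕ}

theorem star_res (hE : Env r E f) (hX : X ⊆ E) (hs : Star r E f) : Star r X (r X) := by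
  intro F hF K1 h1 K2 h2 n1 n2 s1 s2 nl c1 c2 sk
  have h := hs F (hF.trans hX) K1 (h1.trans hX) K2 (h2.trans hX) n1 n2 s1 s2 nl c1 c2 sk
  have m1 := hE.rk.mono (F ∪ (K1 ∪ K2)) X (union_subset hF (union_subset h1 h2))
  have m2 := hE.rk.mono X E hX
  rw [hE.rank] at m2
  omega

theorem star_con (hE : Env r E f) (hX : X ⊆ E) (hs : Star r E f) :
    Star (fun Y => r (Y ∪ X) - r X) (E \ X) (f - r X) := by
  intro F hF K1 h1 K2 h2 n1 n2 s1 s2 nl c1 c2 sk
  have hr := hE.rk
  have ge : ∀ Y, r X ≤ r (Y ∪ X) := fun Y => hr.mono _ _ subset_union_right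
  have two : ∀ x y : α, r ({x, y} ∪ X) - r X = 2 → r {x, y} = 2 := by
    intro x y hxy
    have g := ge {x, y}
    have s := hr.submod {x, y} X
    have c := hr.le_card {x, y}
    have c2 : ({x, y} : Finset α).card ≤ 2 := card_le_two
    omega
  have e1 : ∀ Y : Finset α, F ∪ X ∪ Y = F ∪ Y ∪ X := fun Y => union_right_comm F X Y
  have key := hs (F ∪ X) (union_subset (hF.trans sdiff_subset) hX) K1 (h1.trans sdiff_subset)
    K2 (h2.trans sdiff_subset) n1 n2 (fun x hx y hy hxy => two x y (s1 x hx y hy hxy))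
    (fun x hx y hy hxy => two x y (s2 x hx y hy hxy)) ?_ ?_ ?_ ?_
  · rw [e1] at key
    show r (F ∪ (K1 ∪ K2) ∪ X) - r X = f - r X
    rw [key]
  · intro x hx h
    apply nl x hx
    show r (insert x F ∪ X) - r X = r (F ∪ X) - r X
    rw [insert_union, h]
  · intro x hx
    have h := c1 x hx
    simp only at h
    have g1 := ge (F ∪ K1.erase x)
    have g2 := ge (F ∪ K1)
    rw [e1, e1]
    omega
  · intro x hx
    have h := c2 x hx
    simp only at h
    have g1 := ge (F ∪ K2.erase x)
    have g2 := ge (F ∪ K2)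
    rw [e1, e1]
    omega
  · simp only at sk
    have g1 := ge (F ∪ K1)
    have g2 := ge (F ∪ K2)
    have g3 := ge (F ∪ (K1 ∪ K2))
    have g4 := ge F
    rw [e1, e1, e1]
    omega

end Pool.Agent.EX18
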