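import Pool.Agent.EX84.K2D
import Pool.Agent.EX84.Min
import Pool.Agent.EX59.K1
import Pool.Agent.EX65.Mt
import Pool.Agent.EX18.Star

/-!
Assembly: in a strict system of three blocks with `Star` all good bases are in one class.
-/

set_option autoImplicit false

namespace Pool.Agent.EX18

open Finset Pool.Agent.DT3 Pool.Agent.CF98 Pool.Agent.WT59

variable {α : Type*} [DecidableEq α] {r : Finset α → ℕ} {E : Finset α} {f : ℕ} {Q : Finset α → Prop}

/-- Exact matching. -/
theorem em84 (hE : Env r E f) (Q : Finset α → Prop) (T0 T1 : Finset α) (hc : EX84.Clo r E f Q T0 T1) :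
    ∃ m c H, EX84.EM r E f T0 T1 m c H := by
  obtain ⟨m, c, H, h⟩ := EX65.em hE hc.g0 hc.g1 hc.q0 hc.q1 hc.min
  exact ⟨m, c, H, ⟨h.mp, h.cp, h.mi, h.ci, h.hE, h.t0, h.t1, h.n0, h.n1, h.x0, h.x1, h.in0, h.in1, h.c0, h.c1, h.ne⟩⟩

theorem swsMain (hE : Env r E f) (hst : EX84.Star r E f) (hQ : ∀ A A', Stp r E f A A' → Q A → Q A')
    {A B : Finset α} (hA : Gd r E f A) (hB : Gd r E f B) (hq : Q A) : Q B := by
  by_contra hq'
  obtain ⟨T0, T1, hc, h1⟩ := EX84.exists_clo hA hB hq hq'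
  rcases Nat.eq_or_lt_of_le h1 with h2 | h2
  · exact EX59.k1 hE hst hc hQ h2.symm
  · exact EX84.k2 hE hst hQ (em84 hE) hc h2

/-- In a strict system of three blocks with `Star` all good bases are in one class. -/
theorem sws (α : Type*) [DecidableEq α] : SWs α :=
  fun _ _ _ _ _ _ hE _ hst hQ hA hB hq => swsMain hE hst hQ hA hB hq

end Pool.Agent.EX18
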