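import Pool.Agent.EX18.Final
import Pool.Agent.EX18.Sum
import Pool.Agent.EX18.Pav
import Pool.Agent.EX18.Sws
import Pool.Agent.WS.Main

/-!
The class of matroids all of whose connected components `N` satisfy: `N` or `N✶` has no minor
`U_{1,2} ⊕ U_{1,2} ⊕ U_{1,1}` or has rank at most five.

* `toric_class`: the toric ideal of a matroid in the class is generated by quadrics.
* `inClass_of_paving`, `inClass_of_split`: two kinds of matroids in the class.
-/

set_option autoImplicit false

namespace Pool.Agent.EX18

open Finset Pool.Agent.DT3 Pool.Agent.CF98 Pool.Agent.WD Pool.Agent.H94 Pool.Agent.EX91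
open scoped Matroid

section

variable {α : Type*} {M : Matroid α}

theorem HasPairsMinor.mono {N : Matroid α} (h : HasPairsMinor N) (hNM : N ≤m M) :
    HasPairsMinor M := by
  obtain ⟨P, a, a', b, b', z, hP, h1, h2, h3⟩ := h
  exact ⟨P, a, a', b, b', z, hP.trans hNM, h1, h2, h3⟩

theorem not_pairs_empty (h : M.E = ∅) : ¬ HasPairsMinor M := by
  rintro ⟨P, a, a', b, b', z, hP, -, h2, -⟩
  have h3 := hP.subset
  rw [h, h2] at h3
  exact h3 (Set.mem_insert _ _)

theorem delete_minor (M : Matroid α) (D : Set α) : M ＼ D ≤m M :=
  ⟨∅, D, by rw [Matroid.contract_empty]⟩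

theorem contract_minor (M : Matroid α) (C : Set α) : M ／ C ≤m M :=
  ⟨C, ∅, by rw [Matroid.delete_empty]⟩

theorem restrict_minor {K : Set α} (hK : K ⊆ M.E) : M ↾ K ≤m M := by
  rw [← Matroid.delete_compl hK]
  exact delete_minor M _

theorem restrict_dual_minor {K : Set α} (hK : K ⊆ M.E) : (M ↾ K)✶ ≤m M✶ := by
  rw [← Matroid.delete_compl hK, Matroid.dual_delete]
  exact contract_minor M✶ _

theorem inClass_of_not (h : ¬ HasPairsMinor M ∨ ¬ HasPairsMinor M✶) : InClass M := by
  intro K hK
  rcases h with h | h
  · exact Or.inl fun h1 => h (h1.mono (restrict_minor hK.1.1))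
  · exact Or.inr (Or.inl fun h1 => h (h1.mono (restrict_dual_minor hK.1.1)))

theorem HasPairsMinor.split (h : HasPairsMinor M) : HasSplitMinor M := by
  obtain ⟨N, a, a', b, b', z, hN, hnd, hE, hB⟩ := h
  simp only [List.nodup_cons, List.mem_cons, List.not_mem_nil, not_or, or_false,
    not_false_eq_true, List.nodup_nil, and_true] at hnd
  obtain ⟨⟨haa, hab, hab', haz⟩, ⟨ha'b, ha'b', ha'z⟩, ⟨hbb, hbz⟩, hb'z⟩ := hnd
  have haI : N.Indep {a} := by
    have h1 : N.IsBase {a, b, z} := (hB _).2 ⟨a, b, Or.inl rfl, Or.inl rfl, rfl⟩
    exact h1.indep.subset (by simp)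
  refine ⟨N ／ {a}, a', b, b', z, (contract_minor N {a}).trans hN, ?_, ?_, ?_⟩
  · simp only [List.nodup_cons, List.mem_cons, List.not_mem_nil, not_or, or_false, not_false_eq_true,
      List.nodup_nil, and_true]
    exact ⟨⟨ha'b, ha'b', ha'z⟩, ⟨hbb, hbz⟩, hb'z⟩
  · rw [Matroid.contract_ground, hE]
    ext t
    simp only [Set.mem_sdiff, Set.mem_insert_iff, Set.mem_singleton_iff]
    constructor
    · rintro ⟨h1, h2⟩
      tauto
    · rintro (rfl | rfl | rfl | rfl)
      · exact ⟨by tauto, fun h => haa h.symm⟩
      · exact ⟨by tauto, fun h => hab h.symm⟩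
      · exact ⟨by tauto, fun h => hab' h.symm⟩
      · exact ⟨by tauto, fun h => haz h.symm⟩
  · intro B
    rw [haI.contract_isBase_iff, hB]
    have key : ∀ y, (y = b ∨ y = b') → a ∉ ({y, z} : Set α) := by
      rintro y (rfl | rfl) <;> simp [haz] <;> assumption
    have un : ∀ y : α, ({y, z} : Set α) ∪ {a} = {a, y, z} := by
      intro y
      rw [Set.union_comm]
      rfl
    constructor
    · rintro ⟨⟨x, y, hx, hy, hxy⟩, hd⟩
      have haB : a ∉ B := fun h => Set.disjoint_left.1 hd h (Set.mem_singleton _)
      have hxa : x = a := by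
        have h1 : a ∈ ({x, y, z} : Set α) := by
          rw [← hxy]
          exact Set.mem_union_right _ (Set.mem_singleton _)
        simp only [Set.mem_insert_iff, Set.mem_singleton_iff] at h1
        rcases h1 with h1 | h1 | h1
        · exact h1.symm
        · exfalso
          rcases hy with rfl | rfl
          · exact hab h1
          · exact hab' h1
        · exact absurd h1 haz
      have hBy : B = {y, z} := by
        have h1 : (B ∪ {a}) \ {a} = B := by
          ext t
          simp only [Set.mem_sdiff, Set.mem_union, Set.mem_singleton_iff]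
          constructor
          · tauto
          · intro ht
            exact ⟨Or.inl ht, fun h => haB (h ▸ ht)⟩
        have h2 : ({x, y, z} : Set α) \ {a} = {y, z} := by
          rw [hxa, ← un y]
          ext t
          simp only [Set.mem_sdiff, Set.mem_union, Set.mem_insert_iff, Set.mem_singleton_iff]
          have h3 := key y hy
          simp only [Set.mem_insert_iff, Set.mem_singleton_iff, not_or] at h3
          constructor
          · tauto
          · rintro (rfl | rfl)
            · exact ⟨by tauto, fun h => h3.1 h.symm⟩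
            · exact ⟨by tauto, fun h => h3.2 h.symm⟩
        rw [← h1, hxy, h2]
      rcases hy with rfl | rfl
      · exact Or.inl hBy
      · exact Or.inr hBy
    · rintro (rfl | rfl)
      · refine ⟨⟨a, b, Or.inl rfl, Or.inl rfl, un b⟩, ?_⟩
        rw [Set.disjoint_singleton_right]
        exact key b (Or.inl rfl)
      · refine ⟨⟨a, b', Or.inl rfl, Or.inr rfl, un b'⟩, ?_⟩
        rw [Set.disjoint_singleton_right]
        exact key b' (Or.inr rfl)

end

section

variable {α : Type*}

/-- Paving matroids and their duals are in the class. -/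
theorem inClass_of_paving {M : Matroid α} [M.Finite] (h : IsPaving M ∨ IsPaving M✶) : InClass M := by
  rcases h with h | h
  · exact inClass_of_not (Or.inl (paving M h))
  · exact inClass_of_not (Or.inr (paving M✶ h))

/-- Matroids none of whose components has a minor `U_{0,1} ⊕ U_{1,2} ⊕ U_{1,1}` are in the class. -/
theorem inClass_of_split {M : Matroid α} (h : ∀ K, IsComp M K → ¬ HasSplitMinor (M ↾ K)) :
    InClass M :=
  fun K hK => Or.inl fun h1 => h K hK h1.split

variable [DecidableEq α]

theorem tconn_of_share {M : Matroid α}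
    (h : ShareConn (fun S : Finset α => M.IsBase (S : Set α)) 2) : TConn M :=
  fun B D hB hD hBD => h 3 (by norm_num) B D hB hD hBD

theorem tconn_of_not {M : Matroid α} (hM : ¬ HasPairsMinor M) : TConn M :=
  fun B D hB hD hBD => connWs (sws (α × ℕ)) M hM B D hB hD hBD

theorem tconn_good {N : Matroid α} [N.Finite] (hN : Good N) : TConn N := by
  rcases hN with h1 | h1 | h1 | h1
  · exact tconn_of_not h1
  · exact TConn.dual (tconn_of_not h1)
  · exact tconn_of_share (WS.shareConn_five h1)
  · exact TConn.dual (tconn_of_share (WS.shareConn_five h1))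

theorem tconn_class {M : Matroid α} [M.Finite] (hM : InClass M) : TConn M := by
  refine tconn_comp (fun N hN => ?_) M.E.ncard M le_rfl (fun K hK => ?_)
  · exact tconn_of_not (not_pairs_empty hN)
  · have : (M ↾ K).Finite := ⟨M.ground_finite.subset hK.1.1⟩
    exact tconn_good (hM K hK)

end

/-- The toric ideal of a matroid in the class is generated by quadrics. -/
theorem toric_class {α : Type*} (K : Type*) [Field K] (M : Matroid α) [M.Finite] [M.RankPos]
    (hM : InClass M) : toricIdeal K M = Ideal.span {f | f ∈ toricIdeal K M ∧ f.IsHomogeneous 2} := by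
  classical
  exact quads_of_tconn K M (tconn_class hM)

end Pool.Agent.EX18
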