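import Mathlib

/-!
The principal extension of a finite matroid.
-/

set_option autoImplicit false

namespace Pool.Agent.EX18

open scoped Matroid

variable {α : Type*}

/-- Independent sets of the principal extension. -/
def PxInd (M : Matroid α) (G : Set α) (e : α) (I : Set α) : Prop :=
  M.Indep (I \ {e}) ∧ (e ∈ I → ¬ G ⊆ M.closure (I \ {e}))

theorem px_key {M : Matroid α} [M.Finite] {G : Set α} (hG : G ⊆ M.E) {I J : Set α} (hI : M.Indep I)
    (hGI : ¬ G ⊆ M.closure I) (hJ : M.Indep J) (hlt : I.ncard < J.ncard)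
    (hno : ∀ x ∈ J, x ∉ I → M.Indep (insert x I) → G ⊆ M.closure (insert x I)) :
    J.ncard = I.ncard + 1 ∧ G ⊆ M.closure J := by
  have hIf : I.Finite := M.ground_finite.subset hI.subset_ground
  have hJf : J.Finite := M.ground_finite.subset hJ.subset_ground
  obtain ⟨g, hg, hgI⟩ := Set.not_subset.1 hGI
  have hgE : g ∈ M.E := hG hg
  have hgI' : g ∉ I := fun h => hgI (M.mem_closure_of_mem h hI.subset_ground)
  have hgi : M.Indep (insert g I) := by
    rw [hI.insert_indep_iff_of_notMem hgI']
    exact ⟨hgE, hgI⟩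
  -- everything of `J` lies in the closure of `I + g`
  have hJc : J ⊆ M.closure (insert g I) := by
    intro x hx
    by_cases hxI : x ∈ M.closure I
    · exact M.closure_subset_closure (Set.subset_insert _ _) hxI
    · have hxE : x ∈ M.E := hJ.subset_ground hx
      have hxI' : x ∉ I := fun h => hxI (M.mem_closure_of_mem h hI.subset_ground)
      have hxi : M.Indep (insert x I) := by
        rw [hI.insert_indep_iff_of_notMem hxI']
        exact ⟨hxE, hxI⟩
      have h1 := hno x hx hxI' hxi hg
      exact (M.closure_exchange ⟨h1, hgI⟩).1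
  have hle : J.ncard ≤ I.ncard + 1 := by
    have h1 : J.encard ≤ (insert g I).encard := by
      rw [← hJ.eRk_eq_encard, ← hgi.eRk_eq_encard, ← M.eRk_closure_eq (insert g I)]
      exact M.eRk_mono hJc
    rw [← hJf.cast_ncard_eq, ← (hIf.insert g).cast_ncard_eq, Set.ncard_insert_of_notMem hgI' hIf] at h1
    exact_mod_cast h1
  have heq : J.ncard = I.ncard + 1 := by omega
  refine ⟨heq, ?_⟩
  -- an element of `J` outside the closure of `I`
  have hex : ∃ x ∈ J, x ∉ M.closure I := by
    by_contra hcon
    push Not at hcon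
    have h1 : J.encard ≤ I.encard := by
      rw [← hJ.eRk_eq_encard, ← hI.eRk_eq_encard, ← M.eRk_closure_eq I]
      exact M.eRk_mono hcon
    rw [← hJf.cast_ncard_eq, ← hIf.cast_ncard_eq] at h1
    have h2 : J.ncard ≤ I.ncard := by exact_mod_cast h1
    omega
  obtain ⟨x, hx, hxI⟩ := hex
  have hxI' : x ∉ I := fun h => hxI (M.mem_closure_of_mem h hI.subset_ground)
  have hxi : M.Indep (insert x I) := by
    rw [hI.insert_indep_iff_of_notMem hxI']
    exact ⟨hJ.subset_ground hx, hxI⟩
  have hGx := hno x hx hxI' hxi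
  have hxc : M.closure (insert x I) ⊆ M.closure (insert g I) := by
    refine M.closure_subset_closure_of_subset_closure ?_
    refine Set.insert_subset (hJc hx) ?_
    exact (Set.subset_insert _ _).trans (M.subset_closure _ hgi.subset_ground)
  -- `J` spans the closure of `I + g`
  have hJb : M.IsBasis J (M.closure (insert g I)) := by
    refine hJ.isBasis_of_eRk_ge hJf hJc ?_ (M.closure_subset_ground _)
    rw [M.eRk_closure_eq, hgi.eRk_eq_encard, hJ.eRk_eq_encard, ← hJf.cast_ncard_eq,
      ← (hIf.insert g).cast_ncard_eq, Set.ncard_insert_of_notMem hgI' hIf, heq]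
  have h1 := hJb.closure_eq_closure
  rw [M.closure_closure] at h1
  rw [h1]
  exact hGx.trans hxc

end Pool.Agent.EX18
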