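import Pool.Agent.EX18.QOld
import Pool.Agent.EX18.Main
import Pool.Agent.EX18.Par
import Pool.Agent.EX18.Minor
import Pool.Agent.EX18.MapC
import Pool.Agent.EX18.SixP
import Pool.Agent.AX2.LiftRep5

/-!
The closure theorem: the toric ideals of the matroids in `QClass` are generated by quadrics.
-/

set_option autoImplicit false

namespace Pool.Agent.EX18

open Finset Pool.Agent.DT3 Pool.Agent.CF98 Pool.Agent.WD Pool.Agent.H94 Pool.Agent.EX91
open scoped Matroid

universe u v w

section

variable {α : Type u} {M : Matroid α}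

theorem QClass.finite (h : QClass.{u, v, w} M) : M.Finite := by
  induction h with
  | rep M hfin _ => exact hfin
  | small M hfin _ => exact hfin
  | six M hfin _ => exact hfin
  | map M f hf _ ih =>
    refine ⟨?_⟩
    rw [Matroid.map_ground]
    exact ih.ground_finite.image f
  | dual M _ ih => have := ih; infer_instance
  | minor N M hm _ ih => exact ⟨ih.ground_finite.subset hm.subset⟩
  | sum M N hd _ _ ih1 ih2 =>
    refine ⟨?_⟩
    rw [Matroid.disjointSum_ground_eq]
    exact ih1.ground_finite.union ih2.ground_finite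
  | twoSum M M₁ M₂ p hp _ _ ih1 ih2 =>
    refine ⟨?_⟩
    rw [hp.2.2.2.1]
    exact (ih1.ground_finite.union ih2.ground_finite).subset Set.sdiff_subset
  | princExt M' M G e he _ ih =>
    refine ⟨?_⟩
    rw [he.2.2.1]
    exact ih.ground_finite.insert e
  | split M M₁ M₂ hfin G a hs _ _ _ _ => exact hfin

/-- A matroid is the direct sum of its restrictions to a separator and to its complement. -/
theorem IsSep.eq_disjointSum {S : Set α} (h : IsSep M S) :
    M = (M ↾ S).disjointSum (M ↾ (M.E \ S)) (by
      rw [Matroid.restrict_ground_eq, Matroid.restrict_ground_eq]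
      exact Set.disjoint_sdiff_right) := by
  refine Matroid.ext_isBase ?_ ?_
  · rw [Matroid.disjointSum_ground_eq, Matroid.restrict_ground_eq, Matroid.restrict_ground_eq,
      Set.union_sdiff_cancel h.1]
  · intro B hB
    rw [Matroid.disjointSum_isBase_iff, Matroid.restrict_ground_eq, Matroid.restrict_ground_eq,
      Set.union_sdiff_cancel h.1]
    have e : B ∩ (M.E \ S) = B \ S := by
      ext x
      constructor
      · rintro ⟨hx, -, hxS⟩
        exact ⟨hx, hxS⟩
      · rintro ⟨hx, hxS⟩
        exact ⟨hx, hB hx, hxS⟩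
    rw [e]
    constructor
    · exact fun h1 => ⟨h.isBase_inter h1, h.isBase_sdiff h1, hB⟩
    · rintro ⟨h1, h2, -⟩
      have h3 := h.isBase_union h1 h2
      rwa [Set.inter_union_sdiff] at h3

theorem qclass_pairs [M.Finite] (h : ¬ HasPairsMinor M) : QClass.{u, v, w} M :=
  QClass.six M inferInstance fun h1 => h h1.pairs

theorem qclass_empty (h : M.E = ∅) : QClass.{u, v, w} M := by
  have : M.Finite := ⟨by rw [h]; exact Set.finite_empty⟩
  exact qclass_pairs (not_pairs_empty h)

/-- If all connected components of `M` are in the class, then so is `M`. -/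
theorem qclass_comp_aux (n : ℕ) : ∀ (M : Matroid α) [M.Finite], M.E.ncard ≤ n →
    (∀ K, IsComp M K → QClass.{u, v, w} (M ↾ K)) → QClass.{u, v, w} M := by
  induction n with
  | zero =>
    intro M _ hn _
    exact qclass_empty (by rw [← Set.ncard_eq_zero M.ground_finite]; omega)
  | succ n ih =>
    intro M _ hn hc
    by_cases hE : M.E = ∅
    · exact qclass_empty hE
    by_cases hs : ∀ S, IsSep M S → S.Nonempty → S = M.E
    · have h1 := hc M.E (isComp_ground (Set.nonempty_iff_ne_empty.2 hE) hs)
      rwa [Matroid.restrict_ground_eq_self] at h1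
    · push Not at hs
      obtain ⟨S, hS, hSne, hSE⟩ := hs
      have key : ∀ T, IsSep M T → T ≠ M.E → QClass.{u, v, w} (M ↾ T) := by
        intro T hT hTne
        have hlt := Set.ncard_lt_ncard (hT.1.ssubset_of_ne hTne) M.ground_finite
        have hfin : (M ↾ T).Finite := ⟨M.ground_finite.subset hT.1⟩
        refine ih (M ↾ T) (by rw [Matroid.restrict_ground_eq]; omega) (fun K hK => ?_)
        have h2 := hc K (hT.restrict_isComp hK)
        rwa [Matroid.restrict_restrict_eq (R₁ := T) (R₂ := K) _ hK.1.1]
      rw [hS.eq_disjointSum]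
      refine QClass.sum _ _ _ (key S hS hSE) (key _ hS.compl ?_)
      intro h
      obtain ⟨x, hx⟩ := hSne
      have : x ∈ M.E \ S := by
        rw [h]
        exact hS.1 hx
      exact this.2 hx

theorem qclass_comp [M.Finite] (h : ∀ K, IsComp M K → QClass.{u, v, w} (M ↾ K)) :
    QClass.{u, v, w} M :=
  qclass_comp_aux M.E.ncard M le_rfl h

theorem qclass_of_dual (h : QClass.{u, v, w} M✶) : QClass.{u, v, w} M := by
  have h1 := QClass.dual _ h
  rwa [Matroid.dual_dual] at h1

theorem qclass_good [M.Finite] (h : Good M) : QClass.{u, v, w} M := by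
  rcases h with h1 | h1 | h1 | h1
  · exact qclass_pairs h1
  · exact qclass_of_dual (qclass_pairs h1)
  · exact QClass.small M inferInstance h1
  · exact qclass_of_dual (QClass.small M✶ inferInstance h1)

/-- The class contains the class of `ExcludedMinor`. -/
theorem qclass_of_inClass [M.Finite] (h : InClass M) : QClass.{u, v, w} M := by
  refine qclass_comp fun K hK => ?_
  have : (M ↾ K).Finite := ⟨M.ground_finite.subset hK.1.1⟩
  exact qclass_good (h K hK)

theorem tconn_rep [DecidableEq α] {N : Matroid α} [N.Finite] (h : IsRep.{u, v, w} N) :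
    TConn N := by
  obtain ⟨k, _, W, _, _, v, hv⟩ := h
  exact tconn_of_share (AX2.shareConn_rep5 v hv)

theorem QClass.tconn
    (hsix : ∀ {α : Type u} [DecidableEq α] (M : Matroid α), ¬ HasSixMinor M → TConn M)
    (hsp : ∀ {α : Type u} [DecidableEq α] (M M₁ M₂ : Matroid α) [M.Finite] (G : Set α) (a : ℕ),
      IsSplit M M₁ M₂ G a → TConn M₁ → TConn M₂ → TConn M)
    (h2s : ∀ {α : Type u} [DecidableEq α] (M M₁ M₂ : Matroid α) [M₁.Finite] [M₂.Finite] (p : α),
      IsTwoSum M M₁ M₂ p → TConn M₁ → TConn M₂ → TConn M)
    (hpe : ∀ {α : Type u} [DecidableEq α] (M' M : Matroid α) [M.Finite] (G : Set α) (e : α),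
      IsPrincExt M' M G e → TConn M → TConn M')
    [dec : DecidableEq α] (h : QClass.{u, v, w} M) : TConn M := by
  revert dec
  induction h with
  | rep M hfin h => intro _; exact tconn_rep h
  | small M hfin h => intro _; exact tconn_of_share (WS.shareConn_five h)
  | six M hfin h => intro _; exact hsix M h
  | map M f hf h ih =>
    intro _
    classical
    exact tconn_map hf ih
  | dual M h ih =>
    intro _
    have := h.finite
    have h1 : TConn M✶✶ := by
      rw [Matroid.dual_dual]
      exact ih
    exact TConn.dual h1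
  | minor N M hm h ih =>
    intro _
    have := h.finite
    exact tconn_minor hm ih
  | sum M N hd _ _ ih1 ih2 => intro _; exact tconn_disjointSum hd ih1 ih2
  | twoSum M M₁ M₂ p hp h1 h2 ih1 ih2 =>
    intro _
    have := h1.finite
    have := h2.finite
    exact h2s M M₁ M₂ p hp ih1 ih2
  | princExt M' M G e he h ih =>
    intro _
    have := h.finite
    exact hpe M' M G e he ih
  | split M M₁ M₂ hfin G a hs _ _ ih1 ih2 => intro _; exact hsp M M₁ M₂ G a hs ih1 ih2

end

end Pool.Agent.EX18
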