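import Pool.Agent.EX18.GenDefs
import Pool.Agent.EX18.InQ

/-!
The members of the class `QGen` have toric ideals generated by quadrics.
-/

set_option autoImplicit false

namespace Pool.Agent.EX18

open Pool.Agent.H94 Pool.Agent.Un25
open scoped Matroid

universe u v w

theorem InQ.of_not_rankPos {α : Type u} {M : Matroid α} (hM : M.Finite) (h : ¬ M.RankPos) : InQ M :=
  ⟨hM, fun h1 => absurd h1 h⟩

theorem QGen.inQ {α : Type u} {M : Matroid α} (h : QGen.{u, v} M) : InQ M := by
  induction h with
  | quad M hM K h =>
    by_cases hr : M.RankPos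
    · exact (inQ_field M K).1 h
    · exact InQ.of_not_rankPos hM hr
  | thirteen M h => exact inQ_card M h
  | rankSix M hM h => exact inQ_rank6 M hM h
  | noSix M hM h => exact inQ_noSix M hM h
  | circ M hM h => exact inQ_circ M hM h
  | map M f hf _ ih => exact inQ_map M f hf ih
  | dual M _ ih => exact inQ_dual M ih
  | minor N M hN _ ih => exact inQ_minor N M hN ih
  | sum M N hd _ _ ih1 ih2 => exact inQ_sum M N hd ih1 ih2
  | comp M hM _ ih => exact inQ_comp M hM ih
  | twoSum M M₁ M₂ p hp _ _ ih1 ih2 => exact inQ_twoSum M M₁ M₂ p hp ih1 ih2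
  | princExt M' M G e he _ ih => exact inQ_princExt M' M G e he ih
  | princTrunc M' M G ht _ ih => exact inQ_princTrunc M' M G ht ih
  | union M M₁ M₂ hu _ _ ih1 ih2 => exact inQ_union M M₁ M₂ hu ih1 ih2
  | induced M N R hM hi _ ih => exact inQ_induced M N R hM hi ih
  | split M M₁ M₂ G a hM hs _ _ ih1 ih2 => exact inQ_split M M₁ M₂ G a hM hs ih1 ih2
  | relax M' M hr _ ih => exact inQ_relax M' M hr ih

/-- Every matroid of positive rank in the class `QGen` has, over every field, a toric ideal which is generated by
its homogeneous elements of degree two. -/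
theorem QGen.main {α : Type u} (M : Matroid α) [M.RankPos] (h : QGen.{u, v} M) (K : Type w) [Field K] :
    toricIdeal K M = Ideal.span {f | f ∈ toricIdeal K M ∧ f.IsHomogeneous 2} := by
  have h1 := h.inQ
  have h2 := h1.1
  exact (inQ_field M K).2 h1

end Pool.Agent.EX18
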