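import Pool.Agent.EX18.Relax
import Pool.Agent.EX18.QSplit
import Pool.Agent.TwoSum25.Main
import Pool.Agent.EX18.SixM
import Pool.Agent.EX54.Nap

/-!
The closure theorem (modulo the closure under principal extensions).
-/

set_option autoImplicit false

namespace Pool.Agent.EX18

open Pool.Agent.DT3 Pool.Agent.WD Pool.Agent.H94 Pool.Agent.EX91
open scoped Matroid

universe u v w x

theorem napCorank (α : Type*) [DecidableEq α] : NapCorank α :=
  fun _ _ _ _ _ _ _ _ hE h => EX54.nap_corank hE.rk h

/-- `TConn` for matroids without a minor `U_{1,2} ⊕ U_{1,2} ⊕ U_{2,2}`. -/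
theorem tconn_noSix {α : Type*} [DecidableEq α] {M : Matroid α} (h : ¬ HasSixMinor M) : TConn M :=
  tconn_six (napCorank _) h

theorem QClass.tconnAll
    (hpe : ∀ {α : Type u} [DecidableEq α] (M' M : Matroid α) [M.Finite] (G : Set α) (e : α),
      IsPrincExt M' M G e → TConn M → TConn M')
    {α : Type u} [DecidableEq α] {M : Matroid α} (h : QClass.{u, v, w} M) :
    TConn M :=
  QClass.tconn
    (fun {_} _ M h6 => tconn_noSix (M := M) h6)
    (fun {_} _ M M₁ M₂ _ _G _a hs t1 t2 => tconn_isSplit (M := M) (M₁ := M₁) (M₂ := M₂) hs t1 t2)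
    (fun {_} _ M M₁ M₂ _ _ p hp t1 t2 =>
      TwoSum25.tconn_twoSum (M := M) (M₁ := M₁) (M₂ := M₂) (p := p) hp t1 t2)
    hpe h

/-- The toric ideals of the matroids in the class are generated by quadrics. -/
theorem toric_qclass
    (hpe : ∀ {α : Type u} [DecidableEq α] (M' M : Matroid α) [M.Finite] (G : Set α) (e : α),
      IsPrincExt M' M G e → TConn M → TConn M')
    {α : Type u} (K : Type x) [Field K] (M : Matroid α) [M.RankPos]
    (h : QClass.{u, v, w} M) :
    toricIdeal K M = Ideal.span {f | f ∈ toricIdeal K M ∧ f.IsHomogeneous 2} := by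
  classical
  have := h.finite
  exact quads_of_tconn K M (h.tconnAll hpe)

theorem qclass_paving {α : Type u} (M : Matroid α) [M.Finite] (h : IsPaving M) :
    QClass.{u, v, w} M :=
  qclass_of_inClass (inClass_of_paving (Or.inl h))

theorem qclass_noSplit {α : Type u} (M : Matroid α) [M.Finite]
    (h : ∀ C, IsComp M C → ¬ HasSplitMinor (M ↾ C)) : QClass.{u, v, w} M :=
  qclass_of_inClass (inClass_of_split h)

end Pool.Agent.EX18
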