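import Pool.Agent.EX18.QDefs

/-!
The class `QClass` (an earlier form of the class of the closure theorem).
-/

set_option autoImplicit false

namespace Pool.Agent.EX18

open scoped Matroid

universe u v w

/-- `M` is representable over some field. -/
def IsRep {α : Type u} (M : Matroid α) : Prop :=
  ∃ (k : Type v) (_ : Field k) (W : Type w) (_ : AddCommGroup W) (_ : Module k W) (v : α → W),
    ∀ I ⊆ M.E, M.Indep I ↔ LinearIndepOn k v I

/-- The smallest class of finite matroids which contains the matroids representable over some field, the
matroids of rank at most five and the matroids without a minor isomorphic to `U_{1,2} ⊕ U_{1,2} ⊕ U_{2,2}`,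
and which is closed under isomorphism, duality, minors, direct sums, 2-sums, principal extension and
splits of the base polytope: if a hyperplane `x(G) = a` splits the base polytope of `M` into the base
polytopes of two matroids in the class, then `M` is in the class. -/
inductive QClass : ∀ {α : Type u}, Matroid α → Prop
  | rep {α : Type u} (M : Matroid α) (hfin : M.Finite) (h : IsRep.{u, v, w} M) : QClass M
  | small {α : Type u} (M : Matroid α) (hfin : M.Finite) (h : M.eRank ≤ 5) : QClass M
  | six {α : Type u} (M : Matroid α) (hfin : M.Finite) (h : ¬ HasSixMinor M) : QClass M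
  | map {α β : Type u} (M : Matroid α) (f : α → β) (hf : M.E.InjOn f) (h : QClass M) :
      QClass (M.map f hf)
  | dual {α : Type u} (M : Matroid α) (h : QClass M) : QClass M✶
  | minor {α : Type u} (N M : Matroid α) (hm : N ≤m M) (h : QClass M) : QClass N
  | sum {α : Type u} (M N : Matroid α) (hd : Disjoint M.E N.E) (hM : QClass M) (hN : QClass N) :
      QClass (M.disjointSum N hd)
  | twoSum {α : Type u} (M M₁ M₂ : Matroid α) (p : α) (hp : IsTwoSum M M₁ M₂ p) (h₁ : QClass M₁)
      (h₂ : QClass M₂) : QClass M
  | princExt {α : Type u} (M' M : Matroid α) (G : Set α) (e : α) (he : IsPrincExt M' M G e)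
      (h : QClass M) : QClass M'
  | split {α : Type u} (M M₁ M₂ : Matroid α) (hfin : M.Finite) (G : Set α) (a : ℕ)
      (hs : IsSplit M M₁ M₂ G a) (h₁ : QClass M₁) (h₂ : QClass M₂) : QClass M

end Pool.Agent.EX18
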