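import Pool.Agent.EX18.QCls
import Pool.Agent.EX18.RelaxA

/-!
Relaxations of circuit-hyperplanes.

* `qclass_relax`: the relaxation of a circuit-hyperplane of a matroid in the class is in the class.
-/

set_option autoImplicit false

namespace Pool.Agent.EX18

open scoped Matroid

universe u v w

section

variable {α : Type u}

/-- Relaxations of circuit-hyperplanes stay in the class. -/
theorem qclass_relax {M M' : Matroid α} (h : QClass.{u, v, w} M) (hr : IsRelaxation M' M) :
    QClass.{u, v, w} M' := by
  obtain ⟨Q, hQ, hE', hB'⟩ := hr
  have hfin := h.finite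
  have hfin' : M'.Finite := ⟨by rw [hE']; exact M.ground_finite⟩
  have hfin2 : (oneOut Q M.E M.ground_finite hQ.1.subset_ground).Finite := ⟨M.ground_finite⟩
  exact QClass.split M' M _ hfin' Q (Q.ncard - 1) (relax_split hQ hE' hB') h
    (qclass_pairs (oneOut_pairs _ _))

end

end Pool.Agent.EX18
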