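import Pool.Agent.EX91.Fin
import Pool.Agent.SA65.D
import Pool.Agent.EX18.Ext

/-!
The condition `Star2`: two coloopless sets `K1`, `K2` of non-loops modulo `F`, each of them without parallel elements, which are skew
modulo `F`, span together with `F` a hyperplane or the whole ground set.  It is inherited by restrictions and contractions, and with
LEMMA D^1 (`NapCorank`) it makes all good bases of a system of three blocks equivalent.
-/

set_option autoImplicit false

namespace Pool.Agent.EX18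

open Finset Pool.Agent.DT3 Pool.Agent.CF98 Pool.Agent.SA65 Pool.Agent.EX91

/-- Two skew coloopless sets without parallel elements span at least a hyperplane. -/
def Star2 {α : Type*} [DecidableEq α] (E : Finset α) (r : Finset α → ℕ) : Prop :=
  ∀ F ⊆ E, ∀ K1 ⊆ E, ∀ K2 ⊆ E, K1.Nonempty → K2.Nonempty →
    (∀ x ∈ K1, ∀ y ∈ K1, x ≠ y → r {x, y} = 2) → (∀ x ∈ K2, ∀ y ∈ K2, x ≠ y → r {x, y} = 2) →
    (∀ x ∈ K1 ∪ K2, r (insert x F) ≠ r F) →
    (∀ x ∈ K1, r (F ∪ K1.erase x) = r (F ∪ K1)) → (∀ x ∈ K2, r (F ∪ K2.erase x) = r (F ∪ K2)) →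
    r (F ∪ K1) + r (F ∪ K2) = r (F ∪ (K1 ∪ K2)) + r F → r E ≤ r (F ∪ (K1 ∪ K2)) + 1

/-- LEMMA D^1 for completely non-adjacent sets. -/
def NapCorank (α : Type*) [DecidableEq α] : Prop :=
  ∀ (r : Finset α → ℕ) (E F M S K1 K2 : Finset α) (f : ℕ), Env r E f → NAP r E F M S K1 K2 →
    r (F ∪ (K1 ∪ K2)) + 2 ≤ r M

variable {α : Type*} [DecidableEq α]

theorem her_star2 : Her (Star2 (α := α)) where
  res := by
    intro E r f X hE hX hs F hF K1 h1 K2 h2 n1 n2 s1 s2 nl c1 c2 sk
    have h := hs F (hF.trans hX) K1 (h1.trans hX) K2 (h2.trans hX) n1 n2 s1 s2 nl c1 c2 sk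
    have m2 := hE.rk.mono X E hX
    omega
  con := by
    intro E r f X hE hX hs F hF K1 h1 K2 h2 n1 n2 s1 s2 nl c1 c2 sk
    have hr := hE.rk
    have ge : ∀ Y, r X ≤ r (Y ∪ X) := fun Y => hr.mono _ _ subset_union_right
    have two : ∀ x y : α, r ({x, y} ∪ X) - r X = 2 → r {x, y} = 2 := by
      intro x y hxy
      have g := ge {x, y}
      have s := hr.submod {x, y} X
      have c := hr.le_card {x, y}
      have c2 : ({x, y} : Finset α).card ≤ 2 := card_le_two
      omega
    have e1 : ∀ Y : Finset α, F ∪ X ∪ Y = F ∪ Y ∪ X := fun Y => union_right_comm F X Y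
    have key := hs (F ∪ X) (union_subset (hF.trans sdiff_subset) hX) K1 (h1.trans sdiff_subset)
      K2 (h2.trans sdiff_subset) n1 n2 (fun x hx y hy hxy => two x y (s1 x hx y hy hxy))
      (fun x hx y hy hxy => two x y (s2 x hx y hy hxy)) ?_ ?_ ?_ ?_
    · rw [e1] at key
      show r (E \ X ∪ X) - r X ≤ r (F ∪ (K1 ∪ K2) ∪ X) - r X + 1
      rw [sdiff_union_of_subset hX]
      omega
    · intro x hx h
      apply nl x hx
      show r (insert x F ∪ X) - r X = r (F ∪ X) - r X
      rw [insert_union, h]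
    · intro x hx
      have h := c1 x hx
      simp only at h
      have g1 := ge (F ∪ K1.erase x)
      have g2 := ge (F ∪ K1)
      rw [e1, e1]
      omega
    · intro x hx
      have h := c2 x hx
      simp only at h
      have g1 := ge (F ∪ K2.erase x)
      have g2 := ge (F ∪ K2)
      rw [e1, e1]
      omega
    · simp only at sk
      have g1 := ge (F ∪ K1)
      have g2 := ge (F ∪ K2)
      have g3 := ge (F ∪ (K1 ∪ K2))
      have g4 := ge F
      rw [e1, e1, e1]
      omega

theorem swp_star2 (hcr : NapCorank α) : SWP (Star2 (α := α)) := by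
  intro E r f Q A B hE _ hst hQ hA hB hq
  refine sw_of_na hE ?_ hQ hA hB hq
  intro F M S K1 K2 h
  have h1 := hcr r E F M S K1 K2 f hE h
  have h2 := hst F (h.FM.trans h.ME) K1 (h.K1M.trans h.ME) K2 (h.K2M.trans h.ME) h.n1 h.n2 h.p1 h.p2
    h.nl h.c1 h.c2 h.sk
  have h3 := hE.rk.mono M E h.ME
  omega

end Pool.Agent.EX18
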